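import Pool.Agent.H220Z.Frac.Inv

/-! Cutting a dual certificate to one band of scales. -/

set_option autoImplicit false
open Finset
open scoped Classical

namespace Pool.Agent.H220Z.Frac

/-- clamp to the interval from `-s` to `r s` -/
noncomputable def cl (r s x : ℝ) : ℝ := max (-s) (min x (r * s))

lemma cl_ge (r s x : ℝ) : -s ≤ cl r s x := le_max_left _ _

lemma cl_le {r s : ℝ} (hr : 1 ≤ r) (hs : 0 ≤ s) (x : ℝ) : cl r s x ≤ r * s :=
  max_le (by nlinarith) (min_le_right _ _)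

lemma cl_of_abs_le {r s x : ℝ} (hr : 1 ≤ r) (hs : 0 ≤ s) (hx : |x| ≤ s) : cl r s x = x := by
  obtain ⟨h1, h2⟩ := abs_le.1 hx
  unfold cl
  rw [min_eq_left (by nlinarith), max_eq_right h1]

lemma cl_pos {r s s' x : ℝ} (hr : 1 ≤ r) (hs : 0 ≤ s) (hss : s ≤ s') (hx : 0 ≤ x) :
    0 ≤ cl r s x ∧ cl r s x ≤ cl r s' x := by
  have h1 : 0 ≤ min x (r * s) := le_min hx (by nlinarith)
  have h2 : min x (r * s) ≤ min x (r * s') := min_le_min le_rfl (by nlinarith)
  unfold cl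
  rw [max_eq_right (by linarith), max_eq_right (by linarith)]
  exact ⟨h1, h2⟩

lemma cl_neg {r s s' x : ℝ} (hr : 1 ≤ r) (hs : 0 ≤ s) (hss : s ≤ s') (hx : x ≤ 0) :
    cl r s x ≤ 0 ∧ cl r s' x ≤ cl r s x := by
  unfold cl
  rw [min_eq_left (by nlinarith), min_eq_left (by nlinarith)]
  exact ⟨max_le (by linarith) hx, max_le_max (by linarith) le_rfl⟩

lemma cl_abs_le {r s : ℝ} (hr : 1 ≤ r) (hs : 0 ≤ s) (x : ℝ) : |cl r s x| ≤ r * s :=
  abs_le.2 ⟨le_trans (by nlinarith) (cl_ge r s x), cl_le hr hs x⟩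

lemma cl_feasible {ι : Type*} (r : ℕ) (s : ℝ) (hs : 0 ≤ s) (T : Finset ι) (hT : T.card = r + 1)
    (y : ι → ℝ) (h : 0 ≤ ∑ f ∈ T, y f) : 0 ≤ ∑ f ∈ T, cl r s (y f) := by
  by_cases hc : ∃ f ∈ T, r * s ≤ y f
  · obtain ⟨f, hf, hf'⟩ := hc
    rw [← add_sum_erase _ _ hf]
    have h1 : (r : ℝ) * s ≤ cl r s (y f) := le_max_of_le_right (le_min hf' le_rfl)
    have h2 : (T.erase f).card • (-s) ≤ ∑ x ∈ T.erase f, cl r s (y x) :=
      card_nsmul_le_sum _ _ _ fun x _ => cl_ge _ _ _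
    rw [card_erase_of_mem hf, hT, nsmul_eq_mul] at h2
    simp only [add_tsub_cancel_right] at h2
    linarith
  · push Not at hc
    refine h.trans (sum_le_sum fun f hf => ?_)
    exact le_max_of_le_right (le_min le_rfl (hc f hf).le)

lemma geom_ind (s0 t : ℝ) (hs : 0 ≤ s0) (ht : 0 ≤ t) (I : ℕ) :
    ∑ i ∈ range I, (if s0 * 2 ^ i < t then s0 * 2 ^ i else 0) ≤ min (2 * t) (s0 * 2 ^ I) := by
  induction I with
  | zero => simp; exact ⟨ht, hs⟩
  | succ I ih =>
    rw [sum_range_succ]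
    obtain ⟨h1, h2⟩ := le_min_iff.1 ih
    have h3 : 0 ≤ s0 * 2 ^ I := by positivity
    have e : s0 * 2 ^ (I + 1) = 2 * (s0 * 2 ^ I) := by ring
    rw [e]
    split_ifs with h
    · exact le_min (by linarith) (by linarith)
    · exact le_min (by linarith) (by linarith)

/-- the band function -/
noncomputable def bb (r : ℝ) (J : ℕ) (s x : ℝ) : ℝ := cl r (s * 2 ^ J) x - cl r s x

lemma bb_pos {r s x : ℝ} (J : ℕ) (hr : 1 ≤ r) (hs : 0 ≤ s) (hx : 0 ≤ x) :
    0 ≤ bb r J s x ∧ bb r J s x ≤ r * (s * 2 ^ J) := by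
  have h0 : s ≤ s * 2 ^ J := le_mul_of_one_le_right hs (one_le_pow₀ (by norm_num))
  obtain ⟨h1, h2⟩ := cl_pos hr hs h0 hx
  have h3 := cl_le hr (hs.trans h0) x
  unfold bb; constructor <;> linarith

lemma bb_neg {r s x : ℝ} (J : ℕ) (hr : 1 ≤ r) (hs : 0 ≤ s) (hx : x ≤ 0) :
    bb r J s x ≤ 0 ∧ -(s * 2 ^ J) ≤ bb r J s x := by
  have h0 : s ≤ s * 2 ^ J := le_mul_of_one_le_right hs (one_le_pow₀ (by norm_num))
  obtain ⟨h1, h2⟩ := cl_neg hr hs h0 hx
  have h3 := cl_ge r (s * 2 ^ J) x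
  unfold bb; constructor <;> linarith

lemma bb_bounds {r s : ℝ} (J : ℕ) (hr : 1 ≤ r) (hs : 0 ≤ s) (x : ℝ) :
    -(s * 2 ^ J) ≤ bb r J s x ∧ bb r J s x ≤ r * (s * 2 ^ J) := by
  have h0 : 0 ≤ s * 2 ^ J := by positivity
  rcases le_total 0 x with hx | hx
  · obtain ⟨h1, h2⟩ := bb_pos J hr hs hx
    exact ⟨by linarith, h2⟩
  · obtain ⟨h1, h2⟩ := bb_neg J hr hs hx
    exact ⟨h2, by nlinarith⟩

lemma bb_eq_zero {r s x : ℝ} (J : ℕ) (hr : 1 ≤ r) (hs : 0 ≤ s) (hx : |x| ≤ s) :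
    bb r J s x = 0 := by
  have h0 : s ≤ s * 2 ^ J := le_mul_of_one_le_right hs (one_le_pow₀ (by norm_num))
  unfold bb
  rw [cl_of_abs_le hr hs hx, cl_of_abs_le hr (hs.trans h0) (hx.trans h0), sub_self]

lemma bb_sum {r s0 x : ℝ} (J I : ℕ) (hr : 1 ≤ r) (hs : 0 ≤ s0) (hx : |x| ≤ s0 * 2 ^ I) :
    |∑ i ∈ range I, bb r J (s0 * 2 ^ i) x - J * x| ≤ r * s0 * 2 ^ J := by
  set a : ℕ → ℝ := fun i => cl r (s0 * 2 ^ i) x with ha
  have e1 : ∀ i, bb r J (s0 * 2 ^ i) x = a (J + i) - a i := by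
    intro i; simp only [ha, bb]; congr 2; ring
  have e2 := sum_range_add a I J
  have e3 := sum_range_add a J I
  rw [add_comm J I] at e3
  have e4 : ∑ i ∈ range J, a (I + i) = J * x := by
    rw [sum_congr rfl (g := fun _ => x), sum_const, card_range, nsmul_eq_mul]
    intro i _
    apply cl_of_abs_le hr (by positivity)
    refine hx.trans (mul_le_mul_of_nonneg_left ?_ hs)
    exact pow_le_pow_right₀ (by norm_num) (by omega)
  have e5 : ∑ i ∈ range I, bb r J (s0 * 2 ^ i) x - J * x = -∑ i ∈ range J, a i := by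
    simp only [e1, sum_sub_distrib]; linarith
  rw [e5, abs_neg]
  refine (abs_sum_le_sum_abs _ _).trans ?_
  have e6 : ∀ i ∈ range J, |a i| ≤ r * s0 * 2 ^ i := fun i _ => by
    rw [mul_assoc]; exact cl_abs_le hr (by positivity) x
  refine (sum_le_sum e6).trans ?_
  rw [← mul_sum]
  refine mul_le_mul_of_nonneg_left ?_ (by positivity)
  rw [geom_sum_eq (by norm_num)]; norm_num

lemma bb_point {r s0 x C B : ℝ} (J I : ℕ) (hr : 1 ≤ r) (hs : 0 ≤ s0) (hx : |x| ≤ s0 * 2 ^ I)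
    (hC : 1 ≤ C) (hB : 0 ≤ B) (hJ : C * (2 * B + 2) ≤ J) :
    2 * |x| - J * x - 2 * (r * s0 * 2 ^ J) ≤
      ∑ i ∈ range I, (|bb r J (s0 * 2 ^ i) x| / C - bb r J (s0 * 2 ^ i) x
        - B * (s0 * 2 ^ i) * (if bb r J (s0 * 2 ^ i) x ≠ 0 then 1 else 0)) := by
  have h1 := abs_le.1 (bb_sum J I hr hs hx)
  have h2 : J * |x| - r * s0 * 2 ^ J ≤ ∑ i ∈ range I, |bb r J (s0 * 2 ^ i) x| := by
    rcases le_total 0 x with h | h
    · rw [abs_of_nonneg h, sum_congr rfl fun i _ => abs_of_nonneg (bb_pos J hr (by positivity) h).1]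
      linarith
    · rw [abs_of_nonpos h, sum_congr rfl fun i _ => abs_of_nonpos (bb_neg J hr (by positivity) h).1,
        sum_neg_distrib]
      linarith
  have h3 : ∑ i ∈ range I, (s0 * 2 ^ i) * (if bb r J (s0 * 2 ^ i) x ≠ 0 then (1 : ℝ) else 0)
      ≤ 2 * |x| := by
    refine le_trans (sum_le_sum fun i _ => ?_)
      ((geom_ind s0 |x| hs (abs_nonneg x) I).trans (min_le_left _ _))
    by_cases h : s0 * 2 ^ i < |x|
    · rw [if_pos h]
      split_ifs
      · rw [mul_one]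
      · rw [mul_zero]; positivity
    · rw [if_neg h, bb_eq_zero J hr (by positivity) (not_lt.1 h)]; simp
  simp only [sum_sub_distrib, mul_assoc B, ← mul_sum, ← sum_div]
  have hC0 : 0 < C := by linarith
  have h4 : (2 * B + 2) * |x| - r * s0 * 2 ^ J ≤ (∑ i ∈ range I, |bb r J (s0 * 2 ^ i) x|) / C := by
    rw [le_div_iff₀ hC0]
    have h5 : 0 ≤ r * s0 * 2 ^ J := by positivity
    have h6 := abs_nonneg x
    nlinarith
  have h7 := mul_le_mul_of_nonneg_left h3 hB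
  linarith

lemma exists_band {ι : Type*} (T : Finset ι) (y : ι → ℝ) (hy : ∑ f ∈ T, y f < 0) {r C B : ℝ}
    (J : ℕ) (hr : 1 ≤ r) (hC : 1 ≤ C) (hB : 0 ≤ B) (hJ : C * (2 * B + 2) ≤ J) :
    ∃ s : ℝ, 0 < s ∧ B * s * (T.filter fun f => bb r J s (y f) ≠ 0).card <
      (∑ f ∈ T, |bb r J s (y f)|) / C - ∑ f ∈ T, bb r J s (y f) := by
  set Y := ∑ f ∈ T, |y f| with hY
  have hY0 : 0 < Y := by
    have : |∑ f ∈ T, y f| ≤ Y := abs_sum_le_sum_abs _ _
    have h2 : 0 < |∑ f ∈ T, y f| := abs_pos.2 hy.ne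
    linarith
  have hT : T.Nonempty := by
    rcases T.eq_empty_or_nonempty with h | h
    · rw [h] at hy; simp at hy
    · exact h
  have hN : (0 : ℝ) < T.card := by exact_mod_cast hT.card_pos
  have hr0 : 0 < r := by linarith
  set s0 : ℝ := Y / (2 * T.card * r * 2 ^ J) with hs0
  have hs : 0 < s0 := by positivity
  obtain ⟨I, hI⟩ := pow_unbounded_of_one_lt (Y / s0) (by norm_num : (1 : ℝ) < 2)
  have hI' : ∀ f ∈ T, |y f| ≤ s0 * 2 ^ I := by
    intro f hf
    have h1 : |y f| ≤ Y := single_le_sum (f := fun f => |y f|) (fun _ _ => abs_nonneg _) hf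
    rw [div_lt_iff₀ hs] at hI
    linarith
  have h1 := sum_le_sum fun f hf => bb_point J I hr hs.le (hI' f hf) hC hB hJ
  rw [sum_comm] at h1
  have h2 : 0 < ∑ f ∈ T, (2 * |y f| - J * y f - 2 * (r * s0 * 2 ^ J)) := by
    simp only [sum_sub_distrib, ← mul_sum, sum_const, nsmul_eq_mul]
    have e : 2 * (r * s0 * ((T.card : ℝ) * 2 ^ J)) = Y := by rw [hs0]; field_simp
    have hJ0 : (0 : ℝ) ≤ J := by positivity
    rw [e, ← hY]
    nlinarith
  have h3 := (sum_const_zero (s := range I)).le.trans_lt (h2.trans_le h1)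
  obtain ⟨i, _, hi⟩ := exists_lt_of_sum_lt h3
  refine ⟨s0 * 2 ^ i, by positivity, ?_⟩
  simp only [sum_sub_distrib, ← mul_sum, ← sum_div] at hi
  rw [card_filter]
  push_cast
  linarith

/-- a bounded integer certificate with many violated edges -/
lemma certificate (r : ℕ) (hr : 1 ≤ r) : ∃ (W : ℕ) (c : ℝ), 0 < c ∧ ∀ n : ℕ, 4 * (r + 1) ≤ n →
    ∀ y : Finset (Fin n) → ℝ, ∑ f ∈ PS n r, y f < 0 →
    ∃ (w : Finset (Fin n) → ℤ) (F : Finset (Finset (Fin n))), F ⊆ PS n r ∧ F.Nonempty ∧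
      (∀ f, |w f| ≤ W) ∧ (∀ f ∈ PS n r, w f ≠ 0 → f ∈ F) ∧ (∀ f ∈ F, y f ≠ 0) ∧
      (∀ e ∈ PS n (r + 1), 0 ≤ bd r y e → -((r + 1 : ℤ) ^ 2) ≤ bd r w e) ∧
      c * F.card * n ≤ ((PS n (r + 1)).filter fun e => bd r w e < -((r + 1 : ℤ) ^ 2)).card := by
  set Bn : ℕ := 2 * ((r + 1) ^ 2 + (r + 1)) + 1 with hBn
  set J : ℕ := 2 ^ (2 * r + 3) * (2 * Bn + 2) with hJ
  refine ⟨r * 2 ^ J, 1 / (4 * (r + 1) * 2 ^ J), by positivity, fun n hn y hy => ?_⟩
  have hr' : (1 : ℝ) ≤ r := by exact_mod_cast hr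
  obtain ⟨s, hs, hb⟩ := exists_band (PS n r) y hy (r := r) (C := 2 ^ (2 * r + 3)) (B := Bn) J hr'
    (one_le_pow₀ (by norm_num)) (by positivity) (by rw [hJ]; push_cast; exact le_rfl)
  set b : Finset (Fin n) → ℝ := fun f => bb r J s (y f) with hbd
  set F := (PS n r).filter fun f => bb r J s (y f) ≠ 0 with hF
  set w : Finset (Fin n) → ℤ := fun f => ⌈b f / s⌉ with hw
  have hK : (0 : ℝ) < 2 ^ J := by positivity
  have hb1 : ∀ f, -(s * 2 ^ J) ≤ b f := fun f => (bb_bounds J hr' hs.le _).1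
  have hb2 : ∀ f, b f ≤ r * (s * 2 ^ J) := fun f => (bb_bounds J hr' hs.le _).2
  have hw1 : ∀ f, b f ≤ s * w f := fun f => by
    have := Int.le_ceil (b f / s)
    rw [div_le_iff₀ hs] at this; simp only [hw]; linarith
  have hw2 : ∀ f, s * w f ≤ b f + s := fun f => by
    have := (Int.ceil_lt_add_one (b f / s)).le
    have h2 := mul_le_mul_of_nonneg_left this hs.le
    rw [mul_add, mul_div_cancel₀ _ hs.ne', mul_one] at h2
    exact h2
  have hcast : ∀ e, ((bd r w e : ℤ) : ℝ) = ∑ f ∈ e.powersetCard r, (w f : ℝ) := fun e => by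
    simp [bd]
  have hcard : ∀ e ∈ PS n (r + 1), (e.powersetCard r).card = r + 1 := fun e he => by
    rw [card_powersetCard, mem_PS.1 he, Nat.choose_succ_self_right]
  refine ⟨w, F, filter_subset _ _, ?_, ?_, ?_, ?_, ?_, ?_⟩
  · rw [nonempty_iff_ne_empty]
    intro h0
    have hz : ∀ f ∈ PS n r, bb r J s (y f) = 0 := by
      intro f hf
      by_contra hne
      have : f ∈ F := mem_filter.2 ⟨hf, hne⟩
      rw [h0] at this; exact notMem_empty _ this
    rw [h0, sum_eq_zero hz, sum_eq_zero fun f hf => by rw [hz f hf, abs_zero]] at hb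
    simp at hb
  · intro f
    rw [abs_le]
    constructor
    · have h1 : ((-((r * 2 ^ J : ℕ) : ℤ) : ℤ) : ℝ) ≤ b f / s := by
        rw [le_div_iff₀ hs]; push_cast
        have := hb1 f
        nlinarith [mul_pos hs hK]
      have h2 : ((-((r * 2 ^ J : ℕ) : ℤ) : ℤ) : ℝ) ≤ (w f : ℝ) := h1.trans (Int.le_ceil _)
      exact_mod_cast h2
    · apply Int.ceil_le.2
      rw [div_le_iff₀ hs]; push_cast
      have := hb2 f
      linarith
  · intro f hf hwf
    refine mem_filter.2 ⟨hf, fun h0 => hwf ?_⟩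
    simp only [hw, hbd, h0, zero_div, Int.ceil_zero]
  · intro f hf h0
    apply (mem_filter.1 hf).2
    rw [h0]; exact bb_eq_zero J hr' hs.le (by simpa using hs.le)
  · intro e he h0
    have h1 := cl_feasible r (s * 2 ^ J) (by positivity) _ (hcard e he) y h0
    have h2 : ∑ f ∈ e.powersetCard r, cl r s (y f) ≤ (r + 1) * (r * s) := by
      have := sum_le_card_nsmul (e.powersetCard r) (fun f => cl r s (y f)) (r * s)
        fun f _ => cl_le hr' hs.le _
      rw [hcard e he, nsmul_eq_mul] at this; push_cast at this; exact this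
    have h3 : ∑ f ∈ e.powersetCard r, b f ≤ s * ∑ f ∈ e.powersetCard r, (w f : ℝ) := by
      rw [mul_sum]; exact sum_le_sum fun f _ => hw1 f
    have h4 : ∑ f ∈ e.powersetCard r, b f = ∑ f ∈ e.powersetCard r, cl r (s * 2 ^ J) (y f)
        - ∑ f ∈ e.powersetCard r, cl r s (y f) := by
      rw [← sum_sub_distrib]; rfl
    have h5 : s * (-((r : ℝ) + 1) ^ 2) ≤ s * ∑ f ∈ e.powersetCard r, (w f : ℝ) := by nlinarith
    have h6 := le_of_mul_le_mul_left h5 hs
    rw [← hcast] at h6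
    exact_mod_cast h6
  · set Q := (PS n (r + 1)).filter fun e => bd r w e < -((r + 1 : ℤ) ^ 2) with hQ
    set Mt := F.biUnion fun f => up (r + 1) f with hMt
    have hn' : 4 * ((r : ℝ) + 1) ≤ n := by exact_mod_cast hn
    have hMt1 : (Mt.card : ℝ) ≤ F.card * ((n : ℝ) - r) := by
      have h1 : Mt.card ≤ F.card * (n - r) := by
        refine card_biUnion_le.trans ?_
        rw [← smul_eq_mul]
        exact sum_le_card_nsmul _ _ _ fun f hf => (card_star (mem_PS.1 (mem_filter.1 hf).1)).le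
      rw [← Nat.cast_sub (by omega)]
      exact_mod_cast h1
    have hpt : ∀ e ∈ PS n (r + 1), |bd r b e| ≤ bd r b e +
        2 * (((r + 1) * (s * 2 ^ J)) * (if bd r w e < -((r + 1 : ℤ) ^ 2) then 1 else 0) +
          ((((r : ℝ) + 1) ^ 2 + (r + 1)) * s) * (if e ∈ Mt then 1 else 0)) := by
      intro e he
      have h1 : -((r + 1) * (s * 2 ^ J)) ≤ bd r b e := by
        have := card_nsmul_le_sum (e.powersetCard r) b _ fun f _ => hb1 f
        rw [hcard e he, nsmul_eq_mul] at this; push_cast at this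
        unfold bd; linarith
      have hA : 0 ≤ ((r : ℝ) + 1) * (s * 2 ^ J) := by positivity
      have hB : 0 ≤ (((r : ℝ) + 1) ^ 2 + (r + 1)) * s := by positivity
      by_cases h3 : e ∈ Mt
      · rw [if_pos h3]
        by_cases h2 : bd r w e < -((r + 1 : ℤ) ^ 2)
        · rw [if_pos h2, abs_le]; constructor <;> linarith
        · rw [if_neg h2]
          have h4 : ((-((r + 1 : ℤ) ^ 2) : ℤ) : ℝ) ≤ ((bd r w e : ℤ) : ℝ) := by
            exact_mod_cast not_lt.1 h2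
          rw [hcast] at h4; push_cast at h4
          have h5 : s * ∑ f ∈ e.powersetCard r, (w f : ℝ) ≤ bd r b e + (r + 1) * s := by
            rw [mul_sum]
            refine (sum_le_sum fun f _ => hw2 f).trans (le_of_eq ?_)
            rw [sum_add_distrib, sum_const, hcard e he, nsmul_eq_mul]; push_cast; rfl
          have h6 := mul_le_mul_of_nonneg_left h4 hs.le
          rw [abs_le]; constructor <;> nlinarith
      · have h4 : bd r b e = 0 := by
          refine sum_eq_zero fun f hf => ?_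
          by_contra hne
          obtain ⟨h5, h6⟩ := mem_powersetCard.1 hf
          exact h3 (mem_biUnion.2 ⟨f, mem_filter.2 ⟨mem_PS.2 h6, hne⟩,
            mem_up.2 ⟨mem_PS.1 he, h5⟩⟩)
        rw [h4, if_neg h3]
        split_ifs
        · simp; positivity
        · simp
    have h1 := sum_le_sum hpt
    rw [sum_add_distrib, ← mul_sum, sum_add_distrib, ← mul_sum, ← mul_sum,
      sum_bd r (by omega) b] at h1
    have eQ : ∑ e ∈ PS n (r + 1), (if bd r w e < -((r + 1 : ℤ) ^ 2) then (1 : ℝ) else 0)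
        = Q.card := by rw [hQ, card_filter]; push_cast; rfl
    have eM : ∑ e ∈ PS n (r + 1), (if e ∈ Mt then (1 : ℝ) else 0) ≤ Mt.card := by
      rw [← sum_filter, sum_const, nsmul_eq_mul, mul_one]
      exact_mod_cast card_le_card fun e he => (mem_filter.1 he).2
    rw [eQ] at h1
    have h2 := l1_inverse r hn b
    set L := ∑ f ∈ PS n r, |b f| with hL
    set D := ∑ f ∈ PS n r, b f with hD
    set C : ℝ := 2 ^ (2 * r + 3) with hC
    have hC0 : 0 < C := by positivity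
    have hL0 : 0 ≤ L := sum_nonneg fun _ _ => abs_nonneg _
    have hb' : (Bn : ℝ) * s * F.card < L / C - D := hb
    have hnr : 0 < (n : ℝ) - r := by linarith
    have h3 : ((n : ℝ) - r) * (L / C) ≤ ∑ e ∈ PS n (r + 1), |bd r b e| := by
      rw [← mul_div_assoc, div_le_iff₀ hC0]
      have : (0 : ℝ) ≤ r := by positivity
      nlinarith
    have hBn' : (Bn : ℝ) = 2 * (((r : ℝ) + 1) ^ 2 + (r + 1)) + 1 := by rw [hBn]; push_cast; ring
    have h4 := mul_le_mul_of_nonneg_left hb'.le hnr.le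
    have hB : 0 ≤ (((r : ℝ) + 1) ^ 2 + (r + 1)) * s := by positivity
    have h5 := mul_le_mul_of_nonneg_left (eM.trans hMt1) hB
    have h6 : s * (((n : ℝ) - r) * F.card) ≤ s * (2 * ((r + 1) * 2 ^ J) * Q.card) := by
      rw [hBn'] at h4
      nlinarith
    have h7 := le_of_mul_le_mul_left h6 hs
    have hF0 : (0 : ℝ) ≤ F.card := by positivity
    rw [one_div, mul_assoc, inv_mul_le_iff₀ (by positivity)]
    have h8 : (n : ℝ) ≤ 2 * ((n : ℝ) - r) := by linarith
    nlinarith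

end Pool.Agent.H220Z.Frac
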