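import Pool.Agent.H220Z.Frac.Struct

/-! Duality and the deterministic theorem. -/

set_option autoImplicit false
open Finset
open scoped Classical

namespace Pool.Agent.H220Z.Frac

variable {n : ℕ}

lemma farkas (r : ℕ) (R G : Finset (Finset (Fin n))) (hG : G ⊆ PS n (r + 1))
    (hGR : ∀ e ∈ G, ∀ f ∈ R, ¬ f ⊆ e) :
    (∃ w : Finset (Fin n) → ℝ, (∀ e, 0 ≤ w e) ∧ ∀ f ∈ PS n r, f ∉ R →
      ∑ e ∈ G.filter (fun e => f ⊆ e), w e = 1) ∨
    ∃ y : Finset (Fin n) → ℝ, (∀ f ∈ R, y f = 0) ∧ ∑ f ∈ PS n r, y f < 0 ∧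
      ∀ e ∈ G, 0 ≤ bd r y e := by
  set T := (PS n r).filter fun f => f ∉ R with hT
  rcases T.eq_empty_or_nonempty with h0 | hne
  · left
    refine ⟨fun _ => 0, fun _ => le_rfl, fun f hf hf' => ?_⟩
    have : f ∈ T := mem_filter.2 ⟨hf, hf'⟩
    rw [h0] at this; exact absurd this (notMem_empty _)
  have hN : (0 : ℝ) < T.card := by exact_mod_cast hne.card_pos
  let v : G → (Finset (Fin n) → ℝ) := fun e f => if f ∈ e.1.powersetCard r then 1 else 0
  let Lm : (G → ℝ) →ₗ[ℝ] (Finset (Fin n) → ℝ) := Fintype.linearCombination ℝ v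
  let p : Finset (Fin n) → ℝ := fun f => if f ∈ T then (r + 1) / T.card else 0
  have hconv : Convex ℝ (Lm '' stdSimplex ℝ G) := (convex_stdSimplex ℝ G).linear_image Lm
  have hcl : IsClosed (Lm '' stdSimplex ℝ G) :=
    ((isCompact_stdSimplex ℝ G).image Lm.continuous_of_finiteDimensional).isClosed
  by_cases hp : p ∈ Lm '' stdSimplex ℝ G
  · left
    obtain ⟨x, hx, hxp⟩ := hp
    refine ⟨fun e => if h : e ∈ G then x ⟨e, h⟩ * (T.card / (r + 1)) else 0, fun e => ?_,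
      fun f hf hf' => ?_⟩
    · beta_reduce
      split_ifs with h
      · exact mul_nonneg (hx.1 _) (by positivity)
      · exact le_rfl
    · have h1 := congrFun hxp f
      have hfT : f ∈ T := mem_filter.2 ⟨hf, hf'⟩
      simp only [Lm, p, v, Fintype.linearCombination_apply, Finset.sum_apply, Pi.smul_apply,
        smul_eq_mul, if_pos hfT, mem_powersetCard, mem_PS.1 hf, and_true] at h1
      rw [sum_filter, ← sum_coe_sort G]
      have : ∀ e : G, (if f ⊆ e.1 then (if h : e.1 ∈ G then x ⟨e.1, h⟩ * (T.card / (r + 1)) else 0)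
          else (0 : ℝ)) = (x e * if f ⊆ e.1 then 1 else 0) * (T.card / (r + 1)) := by
        intro e
        rw [dif_pos e.2]
        split_ifs <;> simp
      rw [sum_congr rfl fun e _ => this e, ← sum_mul, h1]
      field_simp
  · right
    obtain ⟨φ, c, h1, h2⟩ := geometric_hahn_banach_point_closed hconv hcl hp
    have hφ : ∀ (S : Finset (Finset (Fin n))) (a : ℝ), φ (fun f => if f ∈ S then a else 0) =
        a * ∑ f ∈ S, φ (Pi.single f 1) := by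
      intro S a
      have : (fun f => if f ∈ S then a else 0) =
          a • ∑ f ∈ S, (Pi.single f 1 : Finset (Fin n) → ℝ) := by
        ext g
        simp [Finset.sum_apply, Pi.single_apply]
      rw [this, map_smul, map_sum, smul_eq_mul]
    refine ⟨fun f => if f ∈ T then φ (Pi.single f 1) - c / (r + 1) else 0, fun f hf => ?_, ?_,
      fun e he => ?_⟩
    · exact if_neg fun h : f ∈ T => (mem_filter.1 h).2 hf
    · rw [← sum_filter, filter_mem_eq_inter, inter_eq_right.2 (filter_subset _ _),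
        sum_sub_distrib, sum_const, nsmul_eq_mul]
      have h3 := hφ T ((r + 1) / T.card)
      have h4 : (r + 1) / (T.card : ℝ) * ∑ f ∈ T, φ (Pi.single f 1) < c := h3 ▸ h1
      rw [div_mul_eq_mul_div, div_lt_iff₀ hN] at h4
      rw [sub_neg, ← mul_div_assoc, lt_div_iff₀ (by positivity)]
      linarith
    · have h3 : v ⟨e, he⟩ ∈ Lm '' stdSimplex ℝ G := by
        refine ⟨Pi.single ⟨e, he⟩ 1, single_mem_stdSimplex ℝ _, ?_⟩
        simp [Lm]
      have h4 := h2 _ h3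
      have h5 := hφ (e.powersetCard r) 1
      have h6 : c < 1 * ∑ f ∈ e.powersetCard r, φ (Pi.single f 1) := h5 ▸ h4
      have h7 : ∀ f ∈ e.powersetCard r, f ∈ T := fun f hf =>
        mem_filter.2 ⟨mem_PS.2 (mem_powersetCard.1 hf).2,
          fun h => hGR e he f h (mem_powersetCard.1 hf).1⟩
      unfold bd
      rw [sum_congr rfl fun f hf => if_pos (h7 f hf), sum_sub_distrib, sum_const,
        card_powersetCard, mem_PS.1 (hG he), Nat.choose_succ_self_right, nsmul_eq_mul]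
      push_cast
      rw [mul_div_cancel₀ _ (by positivity)]
      linarith

/-- low degree facets -/
def low (r : ℕ) (D : ℝ) (G : Finset (Finset (Fin n))) (f : Finset (Fin n)) : Prop :=
  f.card = r ∧ ((up (r + 1) f ∩ G).card : ℝ) < D

def Far2 (r : ℕ) (D : ℝ) (G1 G2 : Finset (Finset (Fin n))) : Prop :=
  ∀ f f' g e e' : Finset (Fin n), low r D G1 f → low r D G1 f' → f ≠ f' → e ≠ e' → e ∈ G2 →
    e' ∈ G2 → g.card = r → f ⊆ e → g ⊆ e → g ⊆ e' → f' ⊆ e' → False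

def Far4 (r : ℕ) (D : ℝ) (G1 G2 : Finset (Finset (Fin n))) : Prop :=
  ∀ f f' g1 g2 g3 e1 e2 e3 e4 : Finset (Fin n), low r D G1 f → low r D G1 f' → f ≠ f' →
    e1 ≠ e2 → e1 ≠ e3 → e1 ≠ e4 → e2 ≠ e3 → e2 ≠ e4 → e3 ≠ e4 →
    e1 ∈ G2 → e2 ∈ G2 → e3 ∈ G2 → e4 ∈ G2 → g1.card = r → g2.card = r → g3.card = r →
    f ⊆ e1 → g1 ⊆ e1 → g1 ⊆ e2 → g2 ⊆ e2 → g2 ⊆ e3 → g3 ⊆ e3 → g3 ⊆ e4 → f' ⊆ e4 → False

lemma remove_low {r : ℕ} {D : ℝ} {G1 H G2 : Finset (Finset (Fin n))} (h1 : G1 ⊆ H) (h2 : H ⊆ G2)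
    (h3 : G2 ⊆ PS n (r + 1)) (hcov : ∀ f ∈ PS n r, ∃ e ∈ H, f ⊆ e)
    (hf2 : Far2 r D G1 G2) (hf4 : Far4 r D G1 G2) :
    ∃ C R : Finset (Finset (Fin n)), C ⊆ H ∧ R ⊆ PS n r ∧
      R.card ≤ (r + 1) * ((PS n r).filter (low r D G1)).card ∧
      (∀ f ∈ R, (C.filter fun e => f ⊆ e).card = 1) ∧
      (∀ f ∈ PS n r, f ∉ R → ∀ e ∈ C, ¬ f ⊆ e) ∧
      (∀ f ∈ PS n r, f ∉ R →
        D - (r + 1) ≤ (G1.filter fun e => f ⊆ e ∧ ∀ g ∈ R, ¬ g ⊆ e).card) := by
  choose! ef hef1 hef2 using hcov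
  set Low := (PS n r).filter (low r D G1) with hLow
  set C := Low.image ef with hC
  set R := C.biUnion fun e => e.powersetCard r with hR
  have hCH : C ⊆ H := by
    intro e he
    obtain ⟨f, hf, rfl⟩ := mem_image.1 he
    exact hef1 f (mem_filter.1 hf).1
  have hCc : ∀ e ∈ C, e.card = r + 1 := fun e he => mem_PS.1 (h3 (h2 (hCH he)))
  have hnot : ∀ f ∈ PS n r, f ∉ R → ∀ e ∈ C, ¬ f ⊆ e := fun f hf hfR e he hfe =>
    hfR (mem_biUnion.2 ⟨e, he, mem_powersetCard.2 ⟨hfe, mem_PS.1 hf⟩⟩)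
  refine ⟨C, R, hCH, ?_, ?_, ?_, hnot, ?_⟩
  · intro f hf
    obtain ⟨e, _, h⟩ := mem_biUnion.1 hf
    exact mem_PS.2 (mem_powersetCard.1 h).2
  · refine card_biUnion_le.trans ?_
    refine (sum_le_card_nsmul _ _ (r + 1) fun e he => ?_).trans ?_
    · rw [card_powersetCard, hCc e he, Nat.choose_succ_self_right]
    · rw [smul_eq_mul, mul_comm]
      exact Nat.mul_le_mul_left _ card_image_le
  · intro g hg
    obtain ⟨e, he, h⟩ := mem_biUnion.1 hg
    obtain ⟨h4, h5⟩ := mem_powersetCard.1 h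
    rw [card_eq_one]
    refine ⟨e, eq_singleton_iff_unique_mem.2 ⟨mem_filter.2 ⟨he, h4⟩, fun e' he' => ?_⟩⟩
    obtain ⟨h6, h7⟩ := mem_filter.1 he'
    by_contra hne
    obtain ⟨f, hf, rfl⟩ := mem_image.1 he
    obtain ⟨f', hf', rfl⟩ := mem_image.1 h6
    exact hf2 f' f g _ _ (mem_filter.1 hf').2 (mem_filter.1 hf).2 (fun h => hne (h ▸ rfl)) hne
      (h2 (hCH h6)) (h2 (hCH he)) h5 (hef2 f' (mem_filter.1 hf').1) h7 h4
      (hef2 f (mem_filter.1 hf).1)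
  · intro f hf hfR
    have hfc := mem_PS.1 hf
    have hnl : ¬ low r D G1 f := fun h =>
      hnot f hf hfR (ef f) (mem_image_of_mem _ (mem_filter.2 ⟨hf, h⟩)) (hef2 f hf)
    have hD : D ≤ (up (r + 1) f ∩ G1).card := by
      by_contra h; exact hnl ⟨hfc, not_le.1 h⟩
    set B := (up (r + 1) f ∩ G1).filter fun e => ∃ g ∈ R, g ⊆ e with hB
    have hBc : B.card ≤ r + 1 := by
      rcases B.eq_empty_or_nonempty with h | ⟨e0, he0⟩
      · rw [h]; simp
      have key : ∀ e ∈ B, ∃ g c, c ∈ C ∧ g.card = r ∧ g ⊆ e ∧ g ⊆ c ∧ e ∈ G1 ∧ f ⊆ e := by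
        intro e he
        obtain ⟨h4, g, hg, hge⟩ := mem_filter.1 he
        obtain ⟨c, hc, h5⟩ := mem_biUnion.1 hg
        obtain ⟨h6, h7⟩ := mem_powersetCard.1 h5
        exact ⟨g, c, hc, h7, hge, h6, (mem_inter.1 h4).2, (mem_up.1 (mem_inter.1 h4).1).2⟩
      obtain ⟨g0, c0, hc0, hg0, hg0e, hg0c, he0G, hfe0⟩ := key e0 he0
      have hsub : B ⊆ c0.image fun v => insert v f := by
        intro e he
        have : ∃ g, g.card = r ∧ g ⊆ e ∧ g ⊆ c0 := by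
          by_cases hee : e = e0
          · exact ⟨g0, hg0, hee ▸ hg0e, hg0c⟩
          obtain ⟨g, c, hc, hg, hge, hgc, heG, hfe⟩ := key e he
          refine ⟨g, hg, hge, ?_⟩
          by_contra hcon
          have hcc : c ≠ c0 := fun h => hcon (h ▸ hgc)
          have n1 := hnot f hf hfR c hc
          have n2 := hnot f hf hfR c0 hc0
          obtain ⟨f1, hf1, rfl⟩ := mem_image.1 hc
          obtain ⟨f2, hf2', rfl⟩ := mem_image.1 hc0
          exact hf4 f1 f2 g f g0 (ef f1) e e0 (ef f2) (mem_filter.1 hf1).2 (mem_filter.1 hf2').2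
            (fun h => hcc (h ▸ rfl)) (fun h => n1 (h.symm ▸ hfe)) (fun h => n1 (h.symm ▸ hfe0)) hcc hee
            (fun h => n2 (h ▸ hfe)) (fun h => n2 (h ▸ hfe0))
            (h2 (hCH hc)) (h2 (h1 heG)) (h2 (h1 he0G)) (h2 (hCH hc0)) hg hfc hg0
            (hef2 f1 (mem_filter.1 hf1).1) hgc hge hfe hfe0 hg0e hg0c
            (hef2 f2 (mem_filter.1 hf2').1)
        obtain ⟨g, hg, hge, hgc⟩ := this
        have h4 := mem_up.1 (mem_inter.1 (mem_filter.1 he).1).1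
        have h5 : ¬ g ⊆ f := by
          intro h
          have : g = f := eq_of_subset_of_card_le h (by rw [hg, hfc])
          exact hnot f hf hfR c0 hc0 (this ▸ hgc)
        obtain ⟨v, hv1, hv2⟩ := not_subset.1 h5
        exact mem_image.2 ⟨v, hgc hv1, eq_insert_of h4.1 hfc h4.2 (hge hv1) hv2⟩
      exact (card_le_card hsub).trans (card_image_le.trans (hCc c0 hc0).le)
    have h4 : up (r + 1) f ∩ G1 ⊆ (G1.filter fun e => f ⊆ e ∧ ∀ g ∈ R, ¬ g ⊆ e) ∪ B := by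
      intro e he
      by_cases h : ∃ g ∈ R, g ⊆ e
      · exact mem_union_right _ (mem_filter.2 ⟨he, h⟩)
      · push Not at h
        exact mem_union_left _ (mem_filter.2 ⟨(mem_inter.1 he).2,
          (mem_up.1 (mem_inter.1 he).1).2, h⟩)
    have h5 := (card_le_card h4).trans ((card_union_le _ _).trans (Nat.add_le_add_left hBc _))
    have h6 : ((up (r + 1) f ∩ G1).card : ℝ) ≤
        (G1.filter fun e => f ⊆ e ∧ ∀ g ∈ R, ¬ g ⊆ e).card + (r + 1) := by exact_mod_cast h5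
    linarith

/-- the certificate property of the constants `W`, `c` at size `n` -/
def Cert (n r W : ℕ) (c : ℝ) : Prop :=
  ∀ y : Finset (Fin n) → ℝ, ∑ f ∈ PS n r, y f < 0 →
    ∃ (w : Finset (Fin n) → ℤ) (F : Finset (Finset (Fin n))), F ⊆ PS n r ∧ F.Nonempty ∧
      (∀ f, |w f| ≤ W) ∧ (∀ f ∈ PS n r, w f ≠ 0 → f ∈ F) ∧ (∀ f ∈ F, y f ≠ 0) ∧
      (∀ e ∈ PS n (r + 1), 0 ≤ bd r y e → -((r + 1 : ℤ) ^ 2) ≤ bd r w e) ∧
      c * F.card * n ≤ ((PS n (r + 1)).filter fun e => bd r w e < -((r + 1 : ℤ) ^ 2)).card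

def PropP (r W : ℕ) (γ : ℕ → ℝ) (α κ ℓ : ℝ) (G : Finset (Finset (Fin n))) : Prop :=
  ∀ j < r, ∀ S ∈ PS n j, ∀ h : Finset (Fin n) → ℤ, (∀ f, |h f| ≤ ((r + 1) * W : ℕ)) →
    α * γ j * (n : ℝ) ^ (r + 1 - j) ≤ (QQ r ((r + 1 : ℤ) ^ 2) S h).card →
    2 * κ * γ j * (n : ℝ) ^ (r - j) * ℓ ≤ (QQ r ((r + 1 : ℤ) ^ 2) S h ∩ G).card

def PropU (r : ℕ) (γ : ℕ → ℝ) (ν ℓ : ℝ) (G : Finset (Finset (Fin n))) : Prop :=
  ∀ F ⊆ PS n r, F.Nonempty → ∀ j < r,
    ((MM r γ F (j + 1) ∩ G).card : ℝ) < ν * γ (j + 1) * F.card * ℓ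

theorem deterministic {r W : ℕ} {γ : ℕ → ℝ} (hγ : ∀ j, 0 < γ j)
    (hγr : γ r = 1) {c α κ ℓ D : ℝ} (hc : 0 < c) (hα : α = c / (6 * (r + 1) * 2 ^ r)) (hκ : 0 < κ)
    (hℓ : 1 ≤ ℓ) (hn : 1 ≤ n) (hγ1 : ∀ j < r, (r + 1) * γ j ≤ α * γ (j + 1))
    (hcert : Cert n r W c) {G1 H G2 : Finset (Finset (Fin n))} (h1 : G1 ⊆ H) (h2 : H ⊆ G2)
    (h3 : G2 ⊆ PS n (r + 1)) (hcov : ∀ f ∈ PS n r, ∃ e ∈ H, f ⊆ e)
    (hf2 : Far2 r D G1 G2) (hf4 : Far4 r D G1 G2) (hD : κ * ℓ ≤ D - (r + 1))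
    (hP : PropP r W γ α κ ℓ G1) (hU : PropU r γ (κ * c / (2 * (r + 1) * 2 ^ (r + 1))) ℓ G1)
    (hL : ∀ j < r, ((r : ℝ) + 1) * ((PS n r).filter (low r D G1)).card ≤ α * γ j * n ∧
      ((r : ℝ) + 1) * ((PS n r).filter (low r D G1)).card ≤ κ * γ j * n) :
    ∃ w : Finset (Fin n) → ℝ, (∀ e, 0 ≤ w e ∧ w e ≤ 1) ∧
      ∀ f ∈ PS n r, ∑ e ∈ H.filter (fun e => f ⊆ e), w e = 1 := by
  obtain ⟨C, R, hCH, hR, hRc, hR1, hR2, hR3⟩ := remove_low h1 h2 h3 hcov hf2 hf4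
  have hG1 : G1 ⊆ PS n (r + 1) := h1.trans (h2.trans h3)
  set G := G1.filter fun e => ∀ g ∈ R, ¬ g ⊆ e with hG
  have hGs : G ⊆ PS n (r + 1) := (filter_subset _ _).trans hG1
  rcases farkas r R G hGs (fun e he => (mem_filter.1 he).2) with ⟨w, hw0, hw1⟩ | ⟨y, hy0, hy1, hy2⟩
  · refine ⟨fun e => if e ∈ C then 1 else if e ∈ G then w e else 0, fun e => ?_, fun f hf => ?_⟩
    · beta_reduce
      split_ifs with a b
      · exact ⟨zero_le_one, le_rfl⟩
      · refine ⟨hw0 e, ?_⟩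
        obtain ⟨f, hf1, hf2⟩ := exists_subset_card_eq (s := e) (n := r)
          (by rw [mem_PS.1 (hGs b)]; omega)
        rw [← hw1 f (mem_PS.2 hf2) fun h => (mem_filter.1 b).2 f h hf1]
        exact single_le_sum (f := w) (fun _ _ => hw0 _) (mem_filter.2 ⟨b, hf1⟩)
      · exact ⟨le_rfl, zero_le_one⟩
    · by_cases hfR : f ∈ R
      · have e1 : ∀ e ∈ H.filter (fun e => f ⊆ e),
            (if e ∈ C then (1 : ℝ) else if e ∈ G then w e else 0) = if e ∈ C then 1 else 0 := by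
          intro e he
          rw [if_neg (c := e ∈ G) fun h => (mem_filter.1 h).2 f hfR (mem_filter.1 he).2]
        rw [sum_congr rfl e1, ← sum_filter, sum_const, nsmul_eq_mul, mul_one]
        have : ((H.filter fun e => f ⊆ e).filter fun e => e ∈ C) = C.filter fun e => f ⊆ e := by
          ext e; simp only [mem_filter]
          exact ⟨fun h => ⟨h.2, h.1.2⟩, fun h => ⟨⟨hCH h.1, h.2⟩, h.1⟩⟩
        rw [this, hR1 f hfR, Nat.cast_one]
      · have e1 : ∀ e ∈ H.filter (fun e => f ⊆ e),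
            (if e ∈ C then (1 : ℝ) else if e ∈ G then w e else 0) = if e ∈ G then w e else 0 := by
          intro e he
          rw [if_neg fun h => hR2 f hf hfR e h (mem_filter.1 he).2]
        rw [sum_congr rfl e1, ← sum_filter, ← hw1 f hf hfR]
        refine sum_congr ?_ fun _ _ => rfl
        ext e
        rw [mem_filter, mem_filter, mem_filter (s := G)]
        exact ⟨fun h => ⟨h.2, h.1.2⟩, fun h => ⟨⟨h1 (mem_filter.1 h.1).1, h.2⟩, h.1⟩⟩
  · exfalso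
    obtain ⟨w, F, hF, hFne, hw, hwF, hFy, hfe, hQ⟩ := hcert y hy1
    have hRc' : (R.card : ℝ) ≤ ((r : ℝ) + 1) * ((PS n r).filter (low r D G1)).card := by
      exact_mod_cast hRc
    obtain ⟨j, hj, h⟩ := structure_lemma (θ := (r + 1 : ℤ) ^ 2) (by positivity) hγ hγr hc hα hκ hℓ
      hn hγ1 hF hFne hw hwF (fun f hf h => hFy f hf (hy0 f h)) hR hG1
      (fun e he h => hfe e (hG1 he) (hy2 e (mem_filter.2 ⟨he, h⟩))) hP
      (fun f hf h => hD.trans (hR3 f hf h))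
      (fun j hj => ⟨hRc'.trans (hL j hj).1, hRc'.trans (hL j hj).2⟩) hQ
    exact absurd (hU F hF hFne j hj) (not_lt.2 h)

end Pool.Agent.H220Z.Frac
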