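import Pool.Agent.H220Z.Frac.Det

/-! Probability bounds for the bad events at a fixed size. -/

set_option autoImplicit false
open Finset
open scoped Classical

namespace Pool.Agent.H220Z.Frac

lemma late_term_bounds {M m i : ℕ} (hi : i < M) :
    0 ≤ ((M - m - i : ℕ) : ℝ) / ((M : ℝ) - i) ∧ ((M - m - i : ℕ) : ℝ) / ((M : ℝ) - i) ≤ 1 := by
  have h : (0 : ℝ) < (M : ℝ) - i := by
    have : (i : ℝ) < M := by exact_mod_cast hi
    linarith
  refine ⟨by positivity, div_le_one_of_le₀ ?_ h.le⟩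
  rw [← Nat.cast_sub hi.le]
  exact_mod_cast (by omega)

lemma late_term_anti {M m i j : ℕ} (hij : i ≤ j) (hj : j < M) :
    ((M - m - j : ℕ) : ℝ) / ((M : ℝ) - j) ≤ ((M - m - i : ℕ) : ℝ) / ((M : ℝ) - i) := by
  have hj' : (j : ℝ) < M := by exact_mod_cast hj
  have hij' : (i : ℝ) ≤ j := by exact_mod_cast hij
  rcases le_total (M - m) j with h | h
  · rw [Nat.sub_eq_zero_of_le h, Nat.cast_zero, zero_div]
    exact (late_term_bounds (by omega)).1
  · rw [div_le_div_iff₀ (by linarith) (by linarith), Nat.cast_sub h, Nat.cast_sub (hij.trans h)]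
    have : ((M - m : ℕ) : ℝ) ≤ M := by exact_mod_cast Nat.sub_le _ _
    nlinarith

lemma late_nonneg {M m x : ℕ} (hx : x ≤ M) : 0 ≤ late M m x :=
  prod_nonneg fun i hi => (late_term_bounds (by have := mem_range.1 hi; omega)).1

lemma late_add {M m a b : ℕ} (h : a + b ≤ M) : late M m (a + b) ≤ late M m a * late M m b := by
  unfold late
  rw [prod_range_add]
  refine mul_le_mul_of_nonneg_left (prod_le_prod (fun i hi => ?_) fun i hi => ?_)
    (late_nonneg (by omega))
  · exact (late_term_bounds (by have := mem_range.1 hi; omega)).1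
  · exact late_term_anti (by omega) (by have := mem_range.1 hi; omega)

lemma late_le_one {M m x : ℕ} (hx : x ≤ M) : late M m x ≤ 1 :=
  prod_le_one (fun i hi => (late_term_bounds (by have := mem_range.1 hi; omega)).1)
    fun i hi => (late_term_bounds (by have := mem_range.1 hi; omega)).2

lemma late_anti {M m a b : ℕ} (hab : a ≤ b) (h : b ≤ M) : late M m b ≤ late M m a := by
  obtain ⟨c, rfl⟩ := Nat.exists_eq_add_of_le hab
  exact (late_add h).trans (mul_le_of_le_one_right (late_nonneg (by omega)) (late_le_one (by omega)))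

lemma late_term_ge {M m d i : ℕ} {z : ℝ} (hi : i ≤ d) (h : m + d < M)
    (hz : (m : ℝ) ≤ z * ((M : ℝ) - d)) : 1 - z ≤ ((M - m - i : ℕ) : ℝ) / ((M : ℝ) - i) := by
  have h1 : ((m + d : ℕ) : ℝ) < M := by exact_mod_cast h
  push_cast at h1
  have h2 : (i : ℝ) ≤ d := by exact_mod_cast hi
  have h3 : (0 : ℝ) ≤ m := by positivity
  have hz0 : 0 ≤ z := by
    by_contra hc
    have : z * ((M : ℝ) - d) < 0 := mul_neg_of_neg_of_pos (not_le.1 hc) (by linarith)
    linarith
  rw [le_div_iff₀ (by linarith), Nat.cast_sub (by omega), Nat.cast_sub (by omega)]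
  nlinarith

lemma exp_le_one_sub {z : ℝ} (h0 : 0 ≤ z) (h1 : z ≤ 1 / 2) :
    Real.exp (-(z * (1 + 2 * z))) ≤ 1 - z := by
  rw [Real.exp_neg, inv_le_comm₀ (Real.exp_pos _) (by linarith)]
  refine le_trans ?_ (Real.add_one_le_exp _)
  rw [inv_eq_one_div, div_le_iff₀ (by linarith)]
  nlinarith [mul_nonneg h0 h0]

variable {n r : ℕ} [Fintype (Ordg n (r + 1))]

omit [Fintype (Ordg n (r + 1))] in
lemma card_star_union {f f' : Finset (Fin n)} (hf : f.card = r) (hf' : f'.card = r) (h : f ≠ f') :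
    2 * (n - r) ≤ (up (r + 1) f ∪ up (r + 1) f').card + 1 := by
  have h1 := card_union_add_card_inter (up (r + 1) f) (up (r + 1) f')
  rw [card_star hf, card_star hf'] at h1
  have h2 : (up (r + 1) f ∩ up (r + 1) f').card ≤ 1 := by
    rw [card_le_one]
    have h3 : ¬ f' ⊆ f := fun hh => h (eq_of_subset_of_card_le hh (by rw [hf, hf'])).symm
    obtain ⟨v, hv1, hv2⟩ := not_subset.1 h3
    have : ∀ e ∈ up (r + 1) f ∩ up (r + 1) f', insert v f = e := fun e he =>
      eq_insert_of (mem_up.1 (mem_inter.1 he).1).1 hf (mem_up.1 (mem_inter.1 he).1).2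
        ((mem_up.1 (mem_inter.1 he).2).2 hv1) hv2
    intro a ha b hb
    rw [← this a ha, ← this b hb]
  omega

lemma pr_cov_early (m : ℕ) (z : ℝ) (hrn : r < n) (h : m + (n - r) < n.choose (r + 1))
    (hz : (m : ℝ) ≤ z * ((n.choose (r + 1) : ℝ) - (n - r : ℕ))) (hz0 : 0 ≤ z) (hz1 : z ≤ 1 / 2) :
    pr (fun σ : Ordg n (r + 1) => ∀ f ∈ PS n r, ∃ e ∈ HH σ m, f ⊆ e) ≤
      Real.exp ((n - r : ℕ) * (z * (1 + 2 * z))) / n.choose r + 2 * z := by
  have : Nonempty (Ordg n (r + 1)) := nonempty_Ordg _ _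
  obtain ⟨d, hd⟩ : ∃ d, n - r = d + 1 := ⟨n - r - 1, by omega⟩
  set M := n.choose (r + 1) with hM
  have hπ : Real.exp (-((n - r : ℕ) * (z * (1 + 2 * z)))) ≤ late M m (n - r) := by
    rw [← mul_neg, Real.exp_nat_mul, late, ← card_range (n - r), ← prod_const, card_range]
    refine prod_le_prod (fun _ _ => (Real.exp_pos _).le) fun i hi => ?_
    exact (exp_le_one_sub hz0 hz1).trans (late_term_ge (mem_range.1 hi).le h hz)
  have hπ0 : 0 < late M m (n - r) := (Real.exp_pos _).trans_le hπ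
  have hN : (PS n r).Nonempty := by
    rw [← card_pos, card_PS]; exact Nat.choose_pos hrn.le
  have h2 := pr_second_moment (PS n r)
    (fun f (σ : Ordg n (r + 1)) => Disjoint (up (r + 1) f) (HH σ m)) (late M m (n - r)) (1 + 2 * z)
    hπ0 (by linarith) hN (fun f hf => by
      rw [pr_disj m (by omega) _ (up_subset _ _), card_star (mem_PS.1 hf)]) (by
      intro f hf f' hf' hne
      have e1 : pr (fun σ : Ordg n (r + 1) => Disjoint (up (r + 1) f) (HH σ m) ∧
          Disjoint (up (r + 1) f') (HH σ m)) =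
          pr (fun σ : Ordg n (r + 1) => Disjoint (up (r + 1) f ∪ up (r + 1) f') (HH σ m)) :=
        pr_congr fun σ => disjoint_union_left.symm
      have hs : up (r + 1) f ∪ up (r + 1) f' ⊆ PS n (r + 1) :=
        union_subset (up_subset _ _) (up_subset _ _)
      have hc := card_le_card hs
      rw [card_PS] at hc
      have hc2 := card_star_union (mem_PS.1 hf) (mem_PS.1 hf') hne
      rw [e1, pr_disj m (by omega) _ hs]
      have h3 : late M m (up (r + 1) f ∪ up (r + 1) f').card ≤ late M m (n - r) * late M m d :=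
        (late_anti (a := (n - r) + d) (by omega) hc).trans (late_add (by omega))
      have h4 : late M m d * (1 - z) ≤ late M m (n - r) := by
        rw [hd, late, late, prod_range_succ]
        exact mul_le_mul_of_nonneg_left (late_term_ge (by omega) h hz) (late_nonneg (by omega))
      have h5 : 0 ≤ late M m d := late_nonneg (by omega)
      have h6 : late M m d ≤ (1 + 2 * z) * late M m (n - r) := by
        have : 1 ≤ (1 + 2 * z) * (1 - z) := by nlinarith
        nlinarith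
      nlinarith)
  refine le_trans (pr_mono fun σ hσ f hf hd => ?_) (h2.trans ?_)
  · obtain ⟨e, he, hfe⟩ := hσ f hf
    exact disjoint_left.1 hd (mem_up.2 ⟨mem_PS.1 (HH_subset _ _ he), hfe⟩) he
  · rw [card_PS, add_sub_cancel_left]
    have hN' : (0 : ℝ) < n.choose r := by exact_mod_cast Nat.choose_pos hrn.le
    refine add_le_add_left ?_ _
    rw [div_le_div_iff₀ (by positivity) hN', one_mul, mul_left_comm]
    refine le_mul_of_one_le_right hN'.le ?_
    have := mul_le_mul_of_nonneg_left hπ (Real.exp_pos ((n - r : ℕ) * (z * (1 + 2 * z)))).le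
    rwa [← Real.exp_add, add_neg_cancel, Real.exp_zero] at this

lemma pr_cov_late (m : ℕ) (h : m ≤ n.choose (r + 1)) (hM : 0 < n.choose (r + 1)) :
    pr (fun σ : Ordg n (r + 1) => ¬ ∀ f ∈ PS n r, ∃ e ∈ HH σ m, f ⊆ e) ≤
      (n : ℝ) ^ r * Real.exp (-((n - r : ℕ) * ((m : ℝ) / n.choose (r + 1)))) := by
  have hM' : (0 : ℝ) < n.choose (r + 1) := by exact_mod_cast hM
  refine le_trans (pr_mono (B := fun σ : Ordg n (r + 1) => ∃ f ∈ PS n r,
    ∅ ⊆ HH σ m ∧ Disjoint (up (r + 1) f) (HH σ m)) fun σ hσ => ?_)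
    (pr_exists_le _ _ _ _ ?_ (by positivity) fun f hf => ?_)
  · push Not at hσ
    obtain ⟨f, hf, h⟩ := hσ
    exact ⟨f, hf, empty_subset _, disjoint_left.2 fun e he he' => h e he' (mem_up.1 he).2⟩
  · rw [card_PS]; exact_mod_cast Nat.choose_le_pow _ _
  · refine (pr_PB m m h h ∅ _ (empty_subset _) (up_subset _ _) (by simpa using hM)
      (disjoint_empty_right _)).trans ?_
    rw [card_empty, pow_zero, one_mul, Nat.cast_zero, sub_zero, card_star (mem_PS.1 hf), ← mul_neg,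
      Real.exp_nat_mul]
    refine pow_le_pow_left₀ (div_nonneg (sub_nonneg.2 (by exact_mod_cast h)) hM'.le) ?_ _
    rw [sub_div, div_self hM'.ne']
    have := Real.add_one_le_exp (-((m : ℝ) / n.choose (r + 1)))
    linarith

/-- the numerical hypotheses behind the low-degree estimates -/
structure LowHyp (n r m1 m2 : ℕ) (D L b a : ℝ) : Prop where
  h12 : m1 ≤ m2
  h2 : m2 ≤ n.choose (r + 1)
  hM : 0 < n.choose (r + 1)
  hD : 0 ≤ D
  hL : 1 ≤ L
  hu : 2 * (4 + 2 * D) ≤ n.choose (r + 1)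
  hb0 : 0 ≤ b
  hb : (m2 : ℝ) / n.choose (r + 1) / L - (m1 : ℝ) / n.choose (r + 1)
    + 2 * (4 + 2 * D) / n.choose (r + 1) ≤ -b
  ha : D * Real.log L - (((n - r : ℕ) : ℝ) - 3) * b ≤ -a

lemma pr_low {m1 m2 : ℕ} {D L b a : ℝ} (H : LowHyp n r m1 m2 D L b a) (f : Finset (Fin n)) :
    pr (fun σ : Ordg n (r + 1) => low r D (HH σ m1) f) ≤ Real.exp (-a) := by
  by_cases hf : f.card = r
  · have hD := H.hD
    have h := pr_LT m1 m2 H.h12 H.h2 ∅ (up (r + 1) f) (empty_subset _) (up_subset _ _)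
      (disjoint_empty_left _) D L H.hD H.hL H.hM (by have := H.hu; simp; linarith)
    refine le_trans (pr_mono fun σ hσ => ⟨empty_subset _, hσ.2⟩) (h.trans ?_)
    rw [card_empty, pow_zero, one_mul, Nat.cast_zero, zero_add, card_star hf]
    refine Real.exp_le_exp.2 (le_trans ?_ H.ha)
    have hM' : (0 : ℝ) < n.choose (r + 1) := by exact_mod_cast H.hM
    have h1 : 2 * D / n.choose (r + 1) ≤ 2 * (4 + 2 * D) / n.choose (r + 1) :=
      div_le_div_of_nonneg_right (by linarith) hM'.le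
    have h2 := H.hb
    have h3 := H.hb0
    have h4 : (0 : ℝ) ≤ (n - r : ℕ) := by positivity
    nlinarith
  · rw [pr_false fun σ h => hf h.1]; positivity

lemma pr_two_low {m1 m2 : ℕ} {D L b a : ℝ} (H : LowHyp n r m1 m2 D L b a)
    (f f' : Finset (Fin n)) (Y : Finset (Finset (Fin n))) (y : ℕ) (hy : y ≤ 4) :
    pr (fun σ : Ordg n (r + 1) => f ≠ f' ∧ Y.card = y ∧ Y ⊆ HH σ m2 ∧ low r D (HH σ m1) f ∧
      low r D (HH σ m1) f') ≤ ((m2 : ℝ) / n.choose (r + 1)) ^ y * Real.exp (-(2 * a)) := by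
  by_cases hc : f ≠ f' ∧ Y.card = y ∧ Y ⊆ PS n (r + 1) ∧ f.card = r ∧ f'.card = r
  · obtain ⟨hne, hY, hYs, hf, hf'⟩ := hc
    have hD := H.hD
    have hy' : (y : ℝ) ≤ 4 := by exact_mod_cast hy
    set Z := (up (r + 1) f ∪ up (r + 1) f') \ Y with hZ
    have h := pr_LT m1 m2 H.h12 H.h2 Y Z hYs
      (sdiff_subset.trans (union_subset (up_subset _ _) (up_subset _ _))) disjoint_sdiff
      (2 * D) L (by linarith) H.hL H.hM (by have := H.hu; rw [hY]; linarith)
    refine le_trans (pr_mono fun σ hσ => ⟨hσ.2.2.1, ?_⟩) (h.trans ?_)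
    swap
    · have h1 : Z ∩ HH σ m1 ⊆ (up (r + 1) f ∩ HH σ m1) ∪ (up (r + 1) f' ∩ HH σ m1) := by
        rw [← union_inter_distrib_right]
        exact inter_subset_inter_right sdiff_subset
      have h2 : ((Z ∩ HH σ m1).card : ℝ) ≤
          (up (r + 1) f ∩ HH σ m1).card + (up (r + 1) f' ∩ HH σ m1).card := by
        exact_mod_cast (card_le_card h1).trans (card_union_le _ _)
      have h3 := hσ.2.2.2.1.2
      have h4 := hσ.2.2.2.2.2
      linarith
    · rw [hY]
      refine mul_le_mul_of_nonneg_left (Real.exp_le_exp.2 ?_) (by positivity)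
      have hM' : (0 : ℝ) < n.choose (r + 1) := by exact_mod_cast H.hM
      have h1 : 2 * (y + 2 * D) / n.choose (r + 1) ≤ 2 * (4 + 2 * D) / n.choose (r + 1) :=
        div_le_div_of_nonneg_right (by linarith) hM'.le
      have h2 := H.hb
      have h3 := H.hb0
      have h4 := H.ha
      have h5 : 2 * (n - r) ≤ Z.card + 5 := by
        have := card_star_union hf hf' hne
        have h6 := le_card_sdiff Y (up (r + 1) f ∪ up (r + 1) f')
        rw [← hZ] at h6
        omega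
      have h6 : 2 * ((n - r : ℕ) : ℝ) ≤ Z.card + 5 := by exact_mod_cast h5
      have h7 : (0 : ℝ) ≤ Z.card := by positivity
      nlinarith
  · rw [pr_false fun σ h => hc ⟨h.1, h.2.1, h.2.2.1.trans (HH_subset _ _), h.2.2.2.1.1,
      h.2.2.2.2.1⟩]
    positivity

lemma pr_many_low {m1 m2 : ℕ} {D L b a : ℝ} (H : LowHyp n r m1 m2 D L b a) (T : ℝ) (hT : 0 < T) :
    pr (fun σ : Ordg n (r + 1) => T ≤ ((PS n r).filter (low r D (HH σ m1))).card) ≤
      (n : ℝ) ^ r * Real.exp (-a) / T := by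
  refine le_trans (le_of_eq ?_) ((pr_markov (PS n r)
    (fun f (σ : Ordg n (r + 1)) => low r D (HH σ m1) f) T hT).trans ?_)
  · rfl
  · refine div_le_div_of_nonneg_right ?_ hT.le
    refine (sum_le_card_nsmul _ _ _ fun f _ => pr_low H f).trans ?_
    rw [nsmul_eq_mul, card_PS]
    refine mul_le_mul_of_nonneg_right ?_ (by positivity)
    exact_mod_cast Nat.choose_le_pow _ _

/-- one step of a walk: an edge through `f` and a facet of it -/
noncomputable def St (r : ℕ) (f : Finset (Fin n)) : Finset (Finset (Fin n) × Finset (Fin n)) :=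
  if f.card = r then
    (up (r + 1) f).biUnion fun e => (e.powersetCard r).image fun g => (e, g) else ∅

omit [Fintype (Ordg n (r + 1))] in
lemma mem_St {f e g : Finset (Fin n)} (hf : f.card = r) (he : e.card = r + 1) (hg : g.card = r)
    (h1 : f ⊆ e) (h2 : g ⊆ e) : (e, g) ∈ St r f := by
  rw [St, if_pos hf]
  exact mem_biUnion.2 ⟨e, mem_up.2 ⟨he, h1⟩, mem_image.2 ⟨g, mem_powersetCard.2 ⟨h2, hg⟩, rfl⟩⟩

omit [Fintype (Ordg n (r + 1))] in
lemma card_St (f : Finset (Fin n)) : ((St r f).card : ℝ) ≤ n * (r + 1) := by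
  have : (St r f).card ≤ n * (r + 1) := by
    unfold St
    split_ifs with hf
    · refine card_biUnion_le.trans ((sum_le_card_nsmul _ _ (r + 1) fun e he => ?_).trans ?_)
      · refine card_image_le.trans ?_
        rw [card_powersetCard, (mem_up.1 he).1, Nat.choose_succ_self_right]
      · rw [smul_eq_mul, card_star hf]
        exact Nat.mul_le_mul_right _ (Nat.sub_le _ _)
    · simp
  exact_mod_cast this

lemma pr_far2 {m1 m2 : ℕ} {D L b a : ℝ} (H : LowHyp n r m1 m2 D L b a) :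
    pr (fun σ : Ordg n (r + 1) => ¬ Far2 r D (HH σ m1) (HH σ m2)) ≤
      (n : ℝ) ^ r * (n * (r + 1) * (n * (r + 1) *
        (((m2 : ℝ) / n.choose (r + 1)) ^ 2 * Real.exp (-(2 * a))))) := by
  refine le_trans (pr_mono (B := fun σ : Ordg n (r + 1) => ∃ f ∈ PS n r, ∃ p ∈ St r f,
    ∃ q ∈ St r p.2, f ≠ q.2 ∧ ({p.1, q.1} : Finset _).card = 2 ∧ {p.1, q.1} ⊆ HH σ m2 ∧
      low r D (HH σ m1) f ∧ low r D (HH σ m1) q.2) fun σ hσ => ?_) ?_
  · unfold Far2 at hσ
    push Not at hσ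
    obtain ⟨f, f', g, e, e', h1, h2, h3, h4, h5, h6, h7, h8, h9, h10, h11, _⟩ := hσ
    have c1 := mem_PS.1 (HH_subset _ _ h5)
    have c2 := mem_PS.1 (HH_subset _ _ h6)
    exact ⟨f, mem_PS.2 h1.1, (e, g), mem_St h1.1 c1 h7 h8 h9, (e', f'),
      mem_St h7 c2 h2.1 h10 h11, h3, card_pair h4,
      insert_subset h5 (singleton_subset_iff.2 h6), h1, h2⟩
  · refine pr_exists_le _ _ _ _ (by rw [card_PS]; exact_mod_cast Nat.choose_le_pow _ _)
      (by positivity) fun f _ => ?_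
    refine pr_exists_le _ _ _ _ (card_St _) (by positivity) fun p _ => ?_
    refine pr_exists_le _ _ _ _ (card_St _) (by positivity) fun q _ => ?_
    exact pr_two_low H _ _ _ 2 (by norm_num)

lemma pr_far4 {m1 m2 : ℕ} {D L b a : ℝ} (H : LowHyp n r m1 m2 D L b a) :
    pr (fun σ : Ordg n (r + 1) => ¬ Far4 r D (HH σ m1) (HH σ m2)) ≤
      (n : ℝ) ^ r * (n * (r + 1) * (n * (r + 1) * (n * (r + 1) * (n * (r + 1) *
        (((m2 : ℝ) / n.choose (r + 1)) ^ 4 * Real.exp (-(2 * a))))))) := by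
  refine le_trans (pr_mono (B := fun σ : Ordg n (r + 1) => ∃ f ∈ PS n r, ∃ p ∈ St r f,
    ∃ q ∈ St r p.2, ∃ s ∈ St r q.2, ∃ t ∈ St r s.2, f ≠ t.2 ∧
      ({p.1, q.1, s.1, t.1} : Finset _).card = 4 ∧ {p.1, q.1, s.1, t.1} ⊆ HH σ m2 ∧
      low r D (HH σ m1) f ∧ low r D (HH σ m1) t.2) fun σ hσ => ?_) ?_
  · unfold Far4 at hσ
    push Not at hσ
    obtain ⟨f, f', g1, g2, g3, e1, e2, e3, e4, l1, l2, hne, n12, n13, n14, n23, n24, n34,
      m1', m2', m3', m4', c1, c2, c3, s1, s2, s3, s4, s5, s6, s7, s8, _⟩ := hσ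
    have d1 := mem_PS.1 (HH_subset _ _ m1')
    have d2 := mem_PS.1 (HH_subset _ _ m2')
    have d3 := mem_PS.1 (HH_subset _ _ m3')
    have d4 := mem_PS.1 (HH_subset _ _ m4')
    refine ⟨f, mem_PS.2 l1.1, (e1, g1), mem_St l1.1 d1 c1 s1 s2, (e2, g2), mem_St c1 d2 c2 s3 s4,
      (e3, g3), mem_St c2 d3 c3 s5 s6, (e4, f'), mem_St c3 d4 l2.1 s7 s8, hne, ?_,
      insert_subset m1' (insert_subset m2' (insert_subset m3' (singleton_subset_iff.2 m4'))),
      l1, l2⟩
    rw [card_insert_of_notMem (by simp [n12, n13, n14]), card_insert_of_notMem (by simp [n23, n24]),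
      card_pair n34]
  · refine pr_exists_le _ _ _ _ (by rw [card_PS]; exact_mod_cast Nat.choose_le_pow _ _)
      (by positivity) fun f _ => ?_
    refine pr_exists_le _ _ _ _ (card_St _) (by positivity) fun p _ => ?_
    refine pr_exists_le _ _ _ _ (card_St _) (by positivity) fun q _ => ?_
    refine pr_exists_le _ _ _ _ (card_St _) (by positivity) fun s _ => ?_
    refine pr_exists_le _ _ _ _ (card_St _) (by positivity) fun t _ => ?_
    exact pr_two_low H _ _ _ 4 le_rfl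

lemma pr_notP {W m : ℕ} {γ : ℕ → ℝ} (hγ : ∀ j, 0 < γ j) {α κ ℓ : ℝ} (hα : 0 < α)
    (hκ : 2 * κ ≤ α / 16) (hℓ : 0 ≤ ℓ) (hn : 1 ≤ n) (hm : m ≤ n.choose (r + 1))
    (hM : 0 < n.choose (r + 1)) (hp : ℓ / (2 * n) ≤ (m : ℝ) / n.choose (r + 1))
    (hW : ∀ j < r, Real.log (2 * ((r + 1) * W : ℕ) + 1) + 1 ≤ α * γ j * ℓ / 8) :
    pr (fun σ : Ordg n (r + 1) => ¬ PropP r W γ α κ ℓ (HH σ m)) ≤
      r * ((n : ℝ) ^ r * Real.exp (-n)) := by
  have hn' : (1 : ℝ) ≤ n := by exact_mod_cast hn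
  set V : ℕ := (r + 1) * W with hV
  set p : ℝ := (m : ℝ) / n.choose (r + 1) with hpd
  let ext : (S : Finset (Fin n)) → (∀ f ∈ up r S, ℤ) → Finset (Fin n) → ℤ :=
    fun S φ f => if h : f ∈ up r S then φ f h else 0
  refine le_trans (pr_mono (B := fun σ : Ordg n (r + 1) => ∃ j ∈ range r, ∃ S ∈ PS n j,
    ∃ φ ∈ (up r S).pi (fun _ => Icc (-(V : ℤ)) V),
      α * γ j * (n : ℝ) ^ (r + 1 - j) ≤ (QQ r ((r + 1 : ℤ) ^ 2) S (ext S φ)).card ∧
      ((QQ r ((r + 1 : ℤ) ^ 2) S (ext S φ) ∩ HH σ m).card : ℝ) <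
        p * (QQ r ((r + 1 : ℤ) ^ 2) S (ext S φ)).card / 8) fun σ hσ => ?_) ?_
  · unfold PropP at hσ
    push Not at hσ
    obtain ⟨j, hj, S, hS, h, h1, h2, h3⟩ := hσ
    have e : QQ r ((r + 1 : ℤ) ^ 2) S (ext S fun f _ => h f) = QQ r ((r + 1 : ℤ) ^ 2) S h := by
      unfold QQ
      refine filter_congr fun e _ => ?_
      rw [sum_congr rfl]
      intro f hf
      obtain ⟨h4, h5⟩ := mem_filter.1 hf
      exact dif_pos (mem_up.2 ⟨(mem_powersetCard.1 h4).2, h5⟩)
    refine ⟨j, mem_range.2 hj, S, hS, fun f _ => h f,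
      mem_pi.2 fun f _ => mem_Icc.2 (abs_le.1 (h1 f)), ?_⟩
    rw [e]
    refine ⟨h2, h3.trans_le ?_⟩
    have g0 := hγ j
    have e1 : (n : ℝ) ^ (r + 1 - j) = (n : ℝ) ^ (r - j) * n := by
      rw [← pow_succ]; congr 1; omega
    calc 2 * κ * γ j * (n : ℝ) ^ (r - j) * ℓ ≤ α / 16 * γ j * (n : ℝ) ^ (r - j) * ℓ := by gcongr
      _ = ℓ / (2 * n) * (α * γ j * (n : ℝ) ^ (r + 1 - j)) / 8 := by rw [e1]; field_simp; ring
      _ ≤ _ := by gcongr
  · refine pr_exists_le _ _ _ _ (by simp) (by positivity) fun j hj => ?_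
    have hjr := mem_range.1 hj
    refine pr_exists_le _ _ _ _ ?_ (by positivity) fun S hS => ?_
    · rw [card_PS]
      refine le_trans ?_ (pow_le_pow_right₀ hn' hjr.le)
      exact_mod_cast Nat.choose_le_pow _ _
    have g0 := hγ j
    set X : ℝ := (n : ℝ) ^ (r - j) with hX
    have hX1 : (n : ℝ) ≤ X := le_self_pow₀ hn' (by omega)
    have hlog : 0 ≤ Real.log (2 * V + 1) := Real.log_nonneg (by
      have : (0 : ℝ) ≤ V := by positivity
      linarith)
    refine (pr_exists_le _ _ (Real.exp (X * Real.log (2 * V + 1)))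
      (Real.exp (-(X * (α * γ j * ℓ / 8)))) ?_ (by positivity) fun φ _ => ?_).trans ?_
    · rw [card_pi, prod_const, Int.card_Icc]
      have e2 : ((V : ℤ) + 1 - -(V : ℤ)).toNat = 2 * V + 1 := by omega
      rw [e2]; push_cast
      have h1 := card_up_le (j := r) (S := S) (by rw [mem_PS.1 hS]; exact hjr.le)
      rw [mem_PS.1 hS] at h1
      calc (2 * (V : ℝ) + 1) ^ (up r S).card
          = Real.exp ((up r S).card * Real.log (2 * V + 1)) := by
            rw [Real.exp_nat_mul, Real.exp_log (by positivity)]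
        _ ≤ _ := Real.exp_le_exp.2 (mul_le_mul_of_nonneg_right h1 hlog)
    · by_cases hq : α * γ j * (n : ℝ) ^ (r + 1 - j) ≤ (QQ r ((r + 1 : ℤ) ^ 2) S (ext S φ)).card
      · refine le_trans (pr_mono fun σ hσ => hσ.2)
          ((pr_LT2 m hm _ (QQ_subset _ _ _ _) hM).trans (Real.exp_le_exp.2 (neg_le_neg ?_)))
        have e1 : (n : ℝ) ^ (r + 1 - j) = X * n := by
          rw [hX, ← pow_succ]; congr 1; omega
        calc X * (α * γ j * ℓ / 8) = ℓ / (2 * n) * (α * γ j * (n : ℝ) ^ (r + 1 - j)) / 4 := by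
              rw [e1]; field_simp; ring
          _ ≤ _ := by gcongr
      · rw [pr_false fun σ h => hq h.1]; positivity
    · rw [← Real.exp_add]
      refine Real.exp_le_exp.2 ?_
      have := hW j hjr
      nlinarith

lemma pr_notU {m : ℕ} {γ : ℕ → ℝ} (hγ : ∀ j, 0 < γ j) {ν : ℝ} (hν : 0 < ν)
    (hn : 1 ≤ n) (hm : m ≤ n.choose (r + 1))
    (hp : (m : ℝ) / n.choose (r + 1) ≤ (r + 1) * Real.log n / n)
    (hγ2 : ∀ j < r, 2 ^ r * (r + 1) ^ 2 * Real.exp ((r + 2) / (ν * γ (j + 1))) * γ j ≤ γ (j + 1)) :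
    pr (fun σ : Ordg n (r + 1) => ¬ PropU r γ ν (Real.log n) (HH σ m)) ≤
      r * (Real.exp (1 / n) - 1) := by
  have hn' : (1 : ℝ) ≤ n := by exact_mod_cast hn
  set ℓ := Real.log n with hℓ
  have hℓ0 : 0 ≤ ℓ := Real.log_nonneg hn'
  refine le_trans (pr_mono (B := fun σ : Ordg n (r + 1) => ∃ j ∈ range r,
    ∃ F ∈ (PS n r).powerset.erase ∅,
      ν * γ (j + 1) * F.card * ℓ ≤ ((MM r γ F (j + 1) ∩ HH σ m).card : ℝ)) fun σ hσ => ?_) ?_
  · unfold PropU at hσ
    push Not at hσ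
    obtain ⟨F, hF, hne, j, hj, h⟩ := hσ
    exact ⟨j, mem_range.2 hj, F, mem_erase.2 ⟨hne.ne_empty, mem_powerset.2 hF⟩, h⟩
  · have h0 : 0 ≤ Real.exp (1 / n) - 1 := sub_nonneg.2 (Real.one_le_exp (by positivity))
    refine pr_exists_le _ _ _ _ (by simp) h0 fun j hj => ?_
    have hjr := mem_range.1 hj
    set a : ℝ := Real.exp (-((r + 1) * ℓ)) with ha
    have ha0 : 0 < a := Real.exp_pos _
    have g0 := hγ j
    have g1 := hγ (j + 1)
    refine (pr_exists_le_sum _ _).trans ((sum_le_sum (g := fun F => a ^ F.card * 1 ^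
      ((PS n r).card - F.card)) fun F hF => ?_).trans ?_)
    · have hFs := mem_powerset.1 (mem_of_mem_erase hF)
      refine (pr_UT m hm _ (MM_subset _ _ _ _) _ ((r + 2) / (ν * γ (j + 1)))
        (by positivity)).trans ?_
      rw [one_pow, mul_one, ha, ← Real.exp_nat_mul]
      refine Real.exp_le_exp.2 ?_
      have h1 := card_MM r γ hγ F hFs j hjr
      have h2 := hγ2 j hjr
      set E := Real.exp ((r + 2) / (ν * γ (j + 1))) with hE
      have hE0 : 0 < E := Real.exp_pos _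
      have h3 : E * ((m : ℝ) / n.choose (r + 1)) * (MM r γ F (j + 1)).card ≤ F.card * ℓ := by
        apply le_of_mul_le_mul_left _ g1
        calc γ (j + 1) * (E * ((m : ℝ) / n.choose (r + 1)) * (MM r γ F (j + 1)).card)
            = E * ((m : ℝ) / n.choose (r + 1)) * (γ (j + 1) * (MM r γ F (j + 1)).card) := by ring
          _ ≤ E * ((r + 1) * ℓ / n) * (2 ^ r * (r + 1) * γ j * F.card * n) := by gcongr
          _ = (2 ^ r * (r + 1) ^ 2 * E * γ j) * (F.card * ℓ) := by field_simp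
          _ ≤ _ := by gcongr
      have h4 : ν * γ (j + 1) * F.card * ℓ * ((r + 2) / (ν * γ (j + 1))) = (r + 2) * (F.card * ℓ) := by
        field_simp
      rw [h4]; nlinarith
    · have h1 := add_sum_erase (PS n r).powerset
        (fun F => a ^ F.card * (1 : ℝ) ^ ((PS n r).card - F.card)) (empty_mem_powerset _)
      rw [sum_pow_mul_eq_add_pow] at h1
      simp only [card_empty, pow_zero, one_pow, mul_one] at h1 ⊢
      rw [← sub_eq_iff_eq_add'.2 h1.symm]
      refine sub_le_sub_right ?_ _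
      calc (a + 1) ^ (PS n r).card ≤ (Real.exp a) ^ (PS n r).card := by
            gcongr; exact Real.add_one_le_exp _
        _ = Real.exp ((PS n r).card * a) := by rw [Real.exp_nat_mul]
        _ ≤ _ := by
            refine Real.exp_le_exp.2 ?_
            have h2 : ((PS n r).card : ℝ) ≤ (n : ℝ) ^ r := by
              rw [card_PS]; exact_mod_cast Nat.choose_le_pow _ _
            have h3 : a = 1 / (n : ℝ) ^ (r + 1) := by
              rw [ha, Real.exp_neg, ← Nat.cast_succ, Real.exp_nat_mul, hℓ,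
                Real.exp_log (by linarith), one_div]
            calc ((PS n r).card : ℝ) * a ≤ (n : ℝ) ^ r * a := by gcongr
              _ = _ := by rw [h3]; field_simp; ring

end Pool.Agent.H220Z.Frac
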