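import Pool.Agent.H220Z.Frac.Tail

/-! An L1 lower bound for the inclusion operator from `r`-sets to `(r+1)`-sets. -/

set_option autoImplicit false
open Finset
open scoped Classical

namespace Pool.Agent.H220Z.Frac

variable {n : ℕ}

/-- the `j`-sets containing `S` -/
def up (j : ℕ) (S : Finset (Fin n)) : Finset (Finset (Fin n)) := (PS n j).filter (S ⊆ ·)

/-- sum of `g` over the `r`-subsets of `e` -/
def bd {A : Type*} [AddCommMonoid A] (r : ℕ) (g : Finset (Fin n) → A) (e : Finset (Fin n)) : A :=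
  ∑ f ∈ e.powersetCard r, g f

lemma mem_up {j : ℕ} {S e : Finset (Fin n)} : e ∈ up j S ↔ e.card = j ∧ S ⊆ e := by
  simp [up, mem_PS]

lemma up_subset (j : ℕ) (S : Finset (Fin n)) : up j S ⊆ PS n j := filter_subset _ _

lemma card_up {j : ℕ} {S : Finset (Fin n)} (h : S.card ≤ j) :
    (up j S).card = (n - S.card).choose (j - S.card) := by
  have := card_filter_powersetCard_subset S univ j (subset_univ _) h
  rw [card_univ, Fintype.card_fin] at this
  exact this

lemma card_up_le {j : ℕ} {S : Finset (Fin n)} (h : S.card ≤ j) :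
    ((up j S).card : ℝ) ≤ (n : ℝ) ^ (j - S.card) := by
  rw [card_up h]
  have : (n - S.card).choose (j - S.card) ≤ n ^ (j - S.card) :=
    (Nat.choose_le_pow _ _).trans (Nat.pow_le_pow_left (Nat.sub_le _ _) _)
  exact_mod_cast this

lemma card_star {r : ℕ} {f : Finset (Fin n)} (h : f.card = r) : (up (r + 1) f).card = n - r := by
  rw [card_up (by omega), h]; simp

lemma up_eq_empty {j : ℕ} {S : Finset (Fin n)} (h : j < S.card) : up j S = ∅ := by
  rw [eq_empty_iff_forall_notMem]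
  intro e he
  obtain ⟨h1, h2⟩ := mem_up.1 he
  have := card_le_card h2
  omega

lemma coef (r : ℕ) (hr : r ≤ n) (S f : Finset (Fin n)) (hf : f.card = r) :
    ((up (r + 1) (S ∪ f)).card : ℝ) = ((n : ℝ) - r - S.card) * (if S ⊆ f then 1 else 0)
      + ((S.filter fun s => S.erase s ⊆ f).card : ℝ) := by
  by_cases h : S ⊆ f
  · rw [union_eq_right.2 h, card_star hf, if_pos h,
      filter_true_of_mem fun s _ => (erase_subset s S).trans h, Nat.cast_sub hr]
    ring
  · rw [if_neg h, mul_zero, zero_add]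
    have hc : (S ∪ f).card = (S \ f).card + r := by rw [← hf, card_sdiff_add_card]
    have hne : (S \ f).Nonempty := sdiff_nonempty.2 h
    by_cases h1 : (S \ f).card = 1
    · obtain ⟨a, ha⟩ := card_eq_one.1 h1
      have haS : a ∈ S \ f := by rw [ha]; exact mem_singleton_self a
      have : (S.filter fun s => S.erase s ⊆ f) = {a} := by
        ext s
        rw [mem_filter, mem_singleton]
        constructor
        · rintro ⟨_, h3⟩
          by_contra hsa
          exact (mem_sdiff.1 haS).2 (h3 (mem_erase.2 ⟨Ne.symm hsa, (mem_sdiff.1 haS).1⟩))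
        · rintro rfl
          refine ⟨(mem_sdiff.1 haS).1, fun x hx => ?_⟩
          by_contra hxf
          have : x ∈ S \ f := mem_sdiff.2 ⟨mem_of_mem_erase hx, hxf⟩
          rw [ha, mem_singleton] at this
          exact (mem_erase.1 hx).1 this
      rw [this, card_up (by omega), hc, h1, card_singleton, add_comm 1 r]
      simp
    · have h2 : 2 ≤ (S \ f).card := by
        have := hne.card_pos; omega
      rw [up_eq_empty (by omega), filter_eq_empty_iff.2]
      · simp
      · intro s _ h3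
        have : S \ f ⊆ {s} := by
          intro x hx
          rw [mem_singleton]
          by_contra hxs
          exact (mem_sdiff.1 hx).2 (h3 (mem_erase.2 ⟨hxs, (mem_sdiff.1 hx).1⟩))
        have := card_le_card this
        rw [card_singleton] at this; omega

lemma bd_eq {A : Type*} [AddCommMonoid A] (r : ℕ) (g : Finset (Fin n) → A) (e : Finset (Fin n)) :
    bd r g e = ∑ f ∈ PS n r, if f ⊆ e then g f else 0 := by
  rw [← sum_filter, bd]
  refine sum_congr ?_ fun _ _ => rfl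
  ext f; simp [mem_PS, and_comm]

lemma star_identity (r : ℕ) (hr : r ≤ n) (g : Finset (Fin n) → ℝ) (S : Finset (Fin n)) :
    ∑ e ∈ up (r + 1) S, bd r g e = ((n : ℝ) - r - S.card) * ∑ f ∈ up r S, g f
      + ∑ s ∈ S, ∑ f ∈ up r (S.erase s), g f := by
  have e1 : ∑ e ∈ up (r + 1) S, bd r g e = ∑ f ∈ PS n r, ((up (r + 1) (S ∪ f)).card : ℝ) * g f := by
    simp only [bd_eq]
    rw [sum_comm]
    refine sum_congr rfl fun f _ => ?_
    rw [← sum_filter, sum_const, nsmul_eq_mul]
    congr 3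
    ext e; simp [mem_up, union_subset_iff, and_assoc]
  rw [e1, sum_congr rfl fun f hf => by rw [coef r hr S f (mem_PS.1 hf)]]
  simp only [add_mul, sum_add_distrib]
  congr 1
  · rw [up, sum_filter, mul_sum]
    refine sum_congr rfl fun f _ => ?_
    split_ifs <;> simp
  · simp only [up, sum_filter, card_filter, Nat.cast_sum, sum_mul]
    rw [sum_comm]
    refine sum_congr rfl fun s _ => sum_congr rfl fun f _ => ?_
    split_ifs <;> simp

lemma sum_up_le (k j : ℕ) (Z : Finset (Fin n) → ℝ) (hZ : ∀ e, 0 ≤ Z e) :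
    ∑ S ∈ PS n j, ∑ e ∈ up k S, Z e ≤ 2 ^ k * ∑ e ∈ PS n k, Z e := by
  simp only [up, sum_filter]
  rw [sum_comm, mul_sum]
  refine sum_le_sum fun e he => ?_
  rw [← sum_filter, sum_const, nsmul_eq_mul]
  refine mul_le_mul_of_nonneg_right ?_ (hZ e)
  have : ((PS n j).filter fun S => S ⊆ e) ⊆ e.powerset := fun S hS =>
    mem_powerset.2 (mem_filter.1 hS).2
  have h2 := card_le_card this
  rw [card_powerset, mem_PS.1 he] at h2
  exact_mod_cast h2

lemma sum_erase_le (j : ℕ) (Φ : Finset (Fin n) → ℝ) (hΦ : ∀ e, 0 ≤ Φ e) :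
    ∑ S ∈ PS n (j + 1), ∑ s ∈ S, Φ (S.erase s) ≤ n * ∑ T ∈ PS n j, Φ T := by
  have e1 : ∑ S ∈ PS n (j + 1), ∑ s ∈ S, Φ (S.erase s) =
      ∑ s : Fin n, ∑ S ∈ (PS n (j + 1)).filter (s ∈ ·), Φ (S.erase s) := by
    simp only [sum_filter]
    rw [sum_comm]
    refine sum_congr rfl fun S _ => ?_
    rw [← sum_filter]
    refine sum_congr ?_ fun _ _ => rfl
    ext s; simp
  rw [e1]
  have e2 : ∀ s : Fin n, ∑ S ∈ (PS n (j + 1)).filter (s ∈ ·), Φ (S.erase s) ≤
      ∑ T ∈ PS n j, Φ T := by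
    intro s
    rw [← sum_image (s := (PS n (j + 1)).filter (s ∈ ·)) (g := fun S => S.erase s) (f := Φ)]
    · refine sum_le_sum_of_subset_of_nonneg ?_ fun _ _ _ => hΦ _
      intro T hT
      obtain ⟨S, hS, rfl⟩ := mem_image.1 hT
      rw [mem_PS, card_erase_of_mem (mem_filter.1 hS).2, mem_PS.1 (mem_filter.1 hS).1]; rfl
    · intro S hS S' hS' h
      have h1 : s ∈ S := (mem_filter.1 (mem_coe.1 hS)).2
      have h2 : s ∈ S' := (mem_filter.1 (mem_coe.1 hS')).2
      rw [← insert_erase h1, ← insert_erase h2]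
      exact congrArg _ h
  refine (sum_le_sum fun s _ => e2 s).trans ?_
  rw [sum_const, card_univ, Fintype.card_fin, nsmul_eq_mul]

lemma l1_aux (r : ℕ) (hn : 4 * (r + 1) ≤ n) (g : Finset (Fin n) → ℝ) (j : ℕ) (hj : j ≤ r) :
    (n : ℝ) * ∑ S ∈ PS n j, |∑ f ∈ up r S, g f| ≤
      2 ^ (r + 2) * (2 ^ (j + 1) - 1) * ∑ e ∈ PS n (r + 1), |bd r g e| := by
  have hn' : 4 * ((r : ℝ) + 1) ≤ n := by exact_mod_cast hn
  have key : ∀ j, j ≤ r → ∀ S ∈ PS n j, (n : ℝ) * |∑ f ∈ up r S, g f| ≤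
      2 * ∑ e ∈ up (r + 1) S, |bd r g e| + 2 * ∑ s ∈ S, |∑ f ∈ up r (S.erase s), g f| := by
    intro j hj S hS
    have h := star_identity r (by omega) g S
    rw [mem_PS.1 hS] at h
    have hj' : (j : ℝ) ≤ r := by exact_mod_cast hj
    have h0 : (0 : ℝ) ≤ j := by positivity
    have h1 : |((n : ℝ) - r - j) * ∑ f ∈ up r S, g f| ≤
        ∑ e ∈ up (r + 1) S, |bd r g e| + ∑ s ∈ S, |∑ f ∈ up r (S.erase s), g f| := by
      rw [← sub_eq_iff_eq_add.2 h]
      exact (abs_sub _ _).trans (add_le_add (abs_sum_le_sum_abs _ _) (abs_sum_le_sum_abs _ _))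
    rw [abs_mul, abs_of_nonneg (by linarith)] at h1
    have h2 := abs_nonneg (∑ f ∈ up r S, g f)
    nlinarith
  have hZ : 0 ≤ ∑ e ∈ PS n (r + 1), |bd r g e| := sum_nonneg fun _ _ => abs_nonneg _
  induction j with
  | zero =>
    rw [mul_sum]
    refine (sum_le_sum (key 0 hj)).trans ?_
    rw [sum_add_distrib, ← mul_sum, ← mul_sum]
    have h1 := sum_up_le (n := n) (r + 1) 0 (fun e => |bd r g e|) fun _ => abs_nonneg _
    have h2 : ∑ S ∈ PS n 0, ∑ s ∈ S, |∑ f ∈ up r (S.erase s), g f| = 0 := by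
      refine sum_eq_zero fun S hS => ?_
      rw [card_eq_zero.1 (mem_PS.1 hS), sum_empty]
    rw [h2]
    have : (2 : ℝ) ^ (r + 2) = 2 * 2 ^ (r + 1) := by ring
    rw [this]; norm_num; linarith
  | succ j ih =>
    have ih' := ih (by omega)
    rw [mul_sum]
    refine (sum_le_sum (key (j + 1) hj)).trans ?_
    rw [sum_add_distrib, ← mul_sum, ← mul_sum]
    have h1 := sum_up_le (n := n) (r + 1) (j + 1) (fun e => |bd r g e|) fun _ => abs_nonneg _
    have h2 := sum_erase_le (n := n) j (fun T => |∑ f ∈ up r T, g f|) fun _ => abs_nonneg _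
    have e1 : (2 : ℝ) ^ (r + 2) = 2 * 2 ^ (r + 1) := by ring
    have e2 : (2 : ℝ) ^ (j + 1 + 1) = 2 * 2 ^ (j + 1) := by ring
    rw [e1] at ih'
    rw [e1, e2]
    nlinarith

/-- L1 lower bound -/
lemma l1_inverse (r : ℕ) (hn : 4 * (r + 1) ≤ n) (g : Finset (Fin n) → ℝ) :
    (n : ℝ) * ∑ f ∈ PS n r, |g f| ≤ 2 ^ (2 * r + 3) * ∑ e ∈ PS n (r + 1), |bd r g e| := by
  have h := l1_aux r hn g r le_rfl
  have e : ∀ S ∈ PS n r, |∑ f ∈ up r S, g f| = |g S| := by
    intro S hS
    have : up r S = {S} := by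
      ext f
      rw [mem_up, mem_singleton]
      constructor
      · rintro ⟨h1, h2⟩
        exact (eq_of_subset_of_card_le h2 (by rw [h1, mem_PS.1 hS])).symm
      · rintro rfl; exact ⟨mem_PS.1 hS, Subset.refl _⟩
    rw [this, sum_singleton]
  rw [sum_congr rfl e] at h
  refine h.trans (mul_le_mul_of_nonneg_right ?_ (sum_nonneg fun _ _ => abs_nonneg _))
  have : (2 : ℝ) ^ (2 * r + 3) = 2 ^ (r + 2) * 2 ^ (r + 1) := by ring
  rw [this]
  have : (0 : ℝ) < 2 ^ (r + 2) := by positivity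
  nlinarith

lemma sum_bd (r : ℕ) (hr : r ≤ n) (g : Finset (Fin n) → ℝ) :
    ∑ e ∈ PS n (r + 1), bd r g e = ((n : ℝ) - r) * ∑ f ∈ PS n r, g f := by
  have h := star_identity r hr g ∅
  have e : ∀ j, up (n := n) j ∅ = PS n j := fun j => filter_true_of_mem fun _ _ => empty_subset _
  simpa [e] using h

end Pool.Agent.H220Z.Frac
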