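import Mathlib

/-! Numerical inequalities between the parameters. -/

set_option autoImplicit false

namespace Pool.Agent.H220Z.Frac

structure Num (r x ℓ u M m1 m2 δ : ℝ) : Prop where
  hr : 1 ≤ r
  hx : 1280 * (r + 3) ^ 2 ≤ x
  hux : u * x = ℓ
  hℓ : 1 ≤ ℓ
  hu1 : 64 * (r + 3) ^ 2 * u ≤ 1
  hM320 : 320 * x ≤ M
  hM32 : 32 * r * x ≤ M
  p1u : m1 ≤ (r - 1 / 8) * u * M
  p1l : (r - 1 / 8) * u * M ≤ m1 + 1
  p2l : (r + 2) * u * M ≤ m2
  p2u : m2 ≤ (r + 2) * u * M + 1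
  hδ0 : 0 < δ
  hδ1 : δ ≤ 1 / 16

namespace Num

variable {r x ℓ u M m1 m2 δ : ℝ} (h : Num r x ℓ u M m1 m2 δ)
include h

lemma x0 : 0 < x := by have := h.hr; have := h.hx; nlinarith

lemma xr : 4 * (r + 1) ≤ x := by have := h.hr; have := h.hx; nlinarith

lemma M0 : 0 < M := by have := h.x0; have := h.hM320; linarith

lemma u0 : 0 < u := by
  have h1 := h.x0; have h2 := h.hux; have h3 := h.hℓ
  by_contra hc
  have : u * x ≤ 0 := mul_nonpos_of_nonpos_of_nonneg (not_lt.1 hc) h1.le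
  linarith

lemma u2 : (r + 3) * u ≤ 1 / 256 := by
  have h1 := h.hr; have h2 := h.u0; have h3 := h.hu1
  have : 0 ≤ (r + 3) * u * (r - 1) := mul_nonneg (by positivity) (by linarith)
  nlinarith

lemma ru : r * u ≤ 1 / 256 := by have := h.u2; have := h.u0; nlinarith

lemma uM : 320 * ℓ ≤ u * M := by
  have h1 := mul_le_mul_of_nonneg_left h.hM320 h.u0.le
  have h2 := h.hux
  nlinarith

lemma iM : 1 / M ≤ u / 320 := by
  rw [div_le_div_iff₀ h.M0 (by norm_num)]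
  have := h.uM; have := h.hℓ; linarith

lemma q1u : m1 / M ≤ (r - 1 / 8) * u := by rw [div_le_iff₀ h.M0]; exact h.p1u

lemma q1l : (r - 1 / 8) * u - 1 / M ≤ m1 / M := by
  rw [sub_le_iff_le_add, ← add_div, le_div_iff₀ h.M0]; exact h.p1l

lemma q2l : (r + 2) * u ≤ m2 / M := by rw [le_div_iff₀ h.M0]; exact h.p2l

lemma q2u : m2 / M ≤ (r + 3) * u := by
  have h2 : m2 / M ≤ (r + 2) * u + 1 / M := by
    rw [div_le_iff₀ h.M0, add_mul, one_div_mul_cancel h.M0.ne']; exact h.p2u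
  have := h.iM; have := h.u0
  linarith

lemma m2M : m2 ≤ M := by
  rw [← div_le_one h.M0]; have := h.q2u; have := h.u2; linarith

lemma m12 : m1 ≤ m2 := by
  have : m1 / M ≤ m2 / M := by have := h.q1u; have := h.q2l; have := h.u0; linarith
  rwa [div_le_div_iff_of_pos_right h.M0] at this

lemma lx : ℓ ≤ x := by
  have h1 := h.u2; have h2 := h.hr; have h3 := h.u0; have h4 := h.x0; have h5 := h.hux
  have : u ≤ 1 := by nlinarith
  nlinarith

lemma D10 : 2 * (4 + 2 * (δ * ℓ)) + 1 ≤ 10 * ℓ := by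
  have h1 := h.hℓ; have h2 := h.hδ1
  have : δ * ℓ ≤ 1 / 16 * ℓ := mul_le_mul_of_nonneg_right h2 (by linarith)
  linarith

lemma low_u : 2 * (4 + 2 * (δ * ℓ)) ≤ M := by
  have := h.D10; have := h.lx; have := h.hM320; have := h.x0; linarith

lemma low_b : m2 / M / (32 * (r + 3)) - m1 / M + 2 * (4 + 2 * (δ * ℓ)) / M ≤
    -((r - 3 / 16) * u) := by
  have hr := h.hr
  have e1 : m2 / M / (32 * (r + 3)) ≤ u / 32 := by
    rw [div_le_iff₀ (by positivity)]; have := h.q2u; linarith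
  have e2 : 2 * (4 + 2 * (δ * ℓ)) / M + 1 / M ≤ u / 32 := by
    rw [← add_div, div_le_iff₀ h.M0]
    have := h.D10; have := h.uM; linarith
  have := h.q1l
  linarith

lemma low_a : 1 / 16 * ℓ - (x - r - 3) * ((r - 3 / 16) * u) ≤ -((r - 5 / 16) * ℓ) := by
  have h1 := h.hr; have h2 := h.hx; have h3 := h.u0; have h4 := h.hux
  have e0 : (r + 3) * (r - 3 / 16) * 16 ≤ x := by nlinarith
  have e1 := mul_le_mul_of_nonneg_left e0 h3.le
  have e2 : (x - r - 3) * ((r - 3 / 16) * u) =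
      (r - 3 / 16) * (u * x) - u * ((r + 3) * (r - 3 / 16) * 16) / 16 := by ring
  rw [e2, h4]; linarith

lemma z0 : 0 ≤ (r - 3 / 32) * u := mul_nonneg (by have := h.hr; linarith) h.u0.le

lemma z1 : (r - 3 / 32) * u ≤ 1 / 2 := by have := h.ru; have := h.u0; linarith

lemma cov2 : m1 ≤ (r - 3 / 32) * u * (M - (x - r)) := by
  refine h.p1u.trans ?_
  have h1 := h.hr; have h2 := h.hM32; have h3 := h.x0
  have : (r - 1 / 8) * M ≤ (r - 3 / 32) * (M - (x - r)) := by nlinarith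
  have := mul_le_mul_of_nonneg_left this h.u0.le
  linarith

lemma cov1 : m1 + (x - r) < M := by
  have h1 := h.cov2; have h2 := h.z1; have h3 := h.hM320; have h4 := h.x0; have h5 := h.hr
  have := mul_le_mul_of_nonneg_right h2 (by linarith : 0 ≤ M - (x - r))
  linarith

lemma cov3 : (x - r) * ((r - 3 / 32) * u * (1 + 2 * ((r - 3 / 32) * u))) ≤ r * ℓ - ℓ / 16 := by
  have h1 := h.hr; have h2 := h.hu1; have h3 := h.u0; have h6 := h.z0; have h7 := h.hℓ
  have h0 : 64 * (r - 3 / 32) ^ 2 * u ≤ 1 := by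
    refine le_trans ?_ h2
    have : (r - 3 / 32) ^ 2 ≤ (r + 3) ^ 2 := by nlinarith
    gcongr
  have h4 : (r - 3 / 32) * (1 + 2 * ((r - 3 / 32) * u)) ≤ r - 1 / 16 := by nlinarith
  have h5 : 0 ≤ (r - 3 / 32) * u * (1 + 2 * ((r - 3 / 32) * u)) :=
    mul_nonneg h6 (by linarith)
  calc _ ≤ x * ((r - 3 / 32) * u * (1 + 2 * ((r - 3 / 32) * u))) :=
        mul_le_mul_of_nonneg_right (by linarith) h5
    _ = ℓ * ((r - 3 / 32) * (1 + 2 * ((r - 3 / 32) * u))) := by rw [← h.hux]; ring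
    _ ≤ ℓ * (r - 1 / 16) := mul_le_mul_of_nonneg_left h4 (by linarith)
    _ = _ := by ring

lemma cov4 : r * ℓ + -((x - r) * (m2 / M)) ≤ -ℓ := by
  have h0 := h.xr; have h3 := h.hr; have h4 := h.hx; have h5 := h.hℓ
  have h1 : (x - r) * ((r + 2) * u) ≤ (x - r) * (m2 / M) :=
    mul_le_mul_of_nonneg_left h.q2l (by linarith)
  have h2 : r * (r + 2) ≤ x := by nlinarith
  have h6 := mul_le_mul_of_nonneg_left h2 h.u0.le
  have e : (x - r) * ((r + 2) * u) = (r + 2) * (u * x) - u * (r * (r + 2)) := by ring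
  rw [e] at h1
  rw [h.hux] at h1 h6
  linarith

lemma A1 : 1 ≤ (r + 1) * (r + 3) * ℓ := by
  have h1 := h.hr; have h2 := h.hℓ
  have : 1 ≤ (r + 1) * (r + 3) := by nlinarith
  nlinarith

lemma A2 : x * (r + 1) * (m2 / M) ≤ (r + 1) * (r + 3) * ℓ := by
  have h1 := h.hr; have h2 := h.x0
  calc _ ≤ x * (r + 1) * ((r + 3) * u) := mul_le_mul_of_nonneg_left h.q2u (by positivity)
    _ = _ := by rw [← h.hux]; ring

lemma A3 : r * ℓ + -(2 * ((r - 5 / 16) * ℓ)) ≤ -(3 / 8 * ℓ) := by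
  have h1 := h.hr; have h2 := h.hℓ
  nlinarith

lemma P1 : ℓ / (2 * x) ≤ m1 / M := by
  have : ℓ / (2 * x) = u / 2 := by rw [← h.hux]; have := h.x0; field_simp
  rw [this]
  have h1 := h.q1l; have h2 := h.iM; have h3 := h.u0; have h4 := h.hr
  nlinarith

lemma U1 : m1 / M ≤ (r + 1) * ℓ / x := by
  have : (r + 1) * ℓ / x = (r + 1) * u := by rw [← h.hux]; have := h.x0; field_simp
  rw [this]
  have h1 := h.q1u; have h3 := h.u0
  linarith

end Num

end Pool.Agent.H220Z.Frac
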