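import Pool.Agent.H220Z.Frac.Events
import Pool.Agent.H220Z.Frac.Num

/-! Choice of the parameters and the limit. -/

set_option autoImplicit false
open Finset Filter Topology
open scoped Classical

namespace Pool.Agent.H220Z.Frac

/-- the hitting-time event -/
def Good {n r : ℕ} (σ : Ordg n (r + 1)) : Prop :=
  ∀ t : ℕ, (∀ f ∈ PS n r, ∃ e ∈ HH σ t, f ⊆ e) →
    ∃ w : Finset (Fin n) → ℝ, (∀ e, 0 ≤ w e ∧ w e ≤ 1) ∧
      ∀ f ∈ PS n r, ∑ e ∈ (HH σ t).filter (fun e => f ⊆ e), w e = 1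

lemma frac_mono {n r : ℕ} {H H' : Finset (Finset (Fin n))} (h : H ⊆ H')
    (hw : ∃ w : Finset (Fin n) → ℝ, (∀ e, 0 ≤ w e ∧ w e ≤ 1) ∧
      ∀ f ∈ PS n r, ∑ e ∈ H.filter (fun e => f ⊆ e), w e = 1) :
    ∃ w : Finset (Fin n) → ℝ, (∀ e, 0 ≤ w e ∧ w e ≤ 1) ∧
      ∀ f ∈ PS n r, ∑ e ∈ H'.filter (fun e => f ⊆ e), w e = 1 := by
  obtain ⟨w, h1, h2⟩ := hw
  refine ⟨fun e => if e ∈ H then w e else 0, fun e => ?_, fun f hf => ?_⟩
  · beta_reduce
    split_ifs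
    · exact h1 e
    · exact ⟨le_rfl, zero_le_one⟩
  · rw [← sum_filter, ← h2 f hf]
    refine sum_congr ?_ fun _ _ => rfl
    ext e; simp only [mem_filter]
    exact ⟨fun hh => ⟨hh.2, hh.1.2⟩, fun hh => ⟨⟨h hh.1, hh.2⟩, hh.1⟩⟩

lemma choose_lower (n r : ℕ) (hn : 2 * r ≤ n) : ((n : ℝ) / 2) ^ r / r.factorial ≤ n.choose r := by
  refine le_trans ?_ (Nat.pow_le_choose r n)
  refine div_le_div_of_nonneg_right ?_ (by positivity)
  refine pow_le_pow_left₀ (by positivity) ?_ _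
  have h : (2 * r : ℝ) ≤ n := by exact_mod_cast hn
  rw [Nat.cast_sub (by omega)]; push_cast; linarith

lemma exists_gamma (r : ℕ) {α ν : ℝ} (hα : 0 < α) : ∃ γ : ℕ → ℝ, (∀ j, 0 < γ j) ∧ γ r = 1 ∧
    (∀ j < r, (r + 1) * γ j ≤ α * γ (j + 1)) ∧
    (∀ j < r, 2 ^ r * (r + 1) ^ 2 * Real.exp ((r + 2) / (ν * γ (j + 1))) * γ j ≤ γ (j + 1)) ∧
    ∃ g0, 0 < g0 ∧ ∀ j < r, g0 ≤ γ j := by
  let Ψ : ℝ → ℝ := fun g =>
    min (α * g / (r + 1)) (g / (2 ^ r * (r + 1) ^ 2 * Real.exp ((r + 2) / (ν * g))))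
  have hpos : ∀ i, 0 < Ψ^[i] 1 := by
    intro i
    induction i with
    | zero => simp
    | succ i ih => rw [Function.iterate_succ_apply']; exact lt_min (by positivity) (by positivity)
  have hs : ∀ j < r, Ψ^[r - j] 1 = Ψ (Ψ^[r - (j + 1)] 1) := by
    intro j hj
    rw [show r - j = (r - (j + 1)) + 1 by omega, Function.iterate_succ_apply']
  refine ⟨fun j => Ψ^[r - j] 1, fun j => hpos _, by simp, fun j hj => ?_, fun j hj => ?_, ?_⟩
  · beta_reduce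
    rw [hs j hj, mul_comm, ← le_div_iff₀ (by positivity)]
    exact min_le_left _ _
  · beta_reduce
    rw [hs j hj, mul_comm, ← le_div_iff₀ (by positivity)]
    exact min_le_right _ _
  · obtain ⟨j, _, hj⟩ := exists_min_image (range (r + 1)) (fun j => Ψ^[r - j] 1) ⟨0, by simp⟩
    exact ⟨_, hpos _, fun i hi => hj i (mem_range.2 (by omega))⟩

/-- total error -/
noncomputable def err (r : ℕ) (ε0 x : ℝ) : ℝ :=
  (2 ^ r * r.factorial * Real.exp (-(Real.log x / 16)) + 2 * r * (Real.log x / x))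
    + Real.exp (-Real.log x) + Real.exp (-(Real.log x / 16)) / ε0
    + 2 * (((r + 1) * (r + 3) * Real.log x) ^ 4 * Real.exp (-(3 / 8 * Real.log x)))
    + r * (x ^ r * Real.exp (-x)) + r * (Real.exp (1 / x) - 1)

lemma err_tendsto (r : ℕ) (ε0 : ℝ) : Tendsto (fun n : ℕ => err r ε0 n) atTop (𝓝 0) := by
  have hx : Tendsto (fun n : ℕ => (n : ℝ)) atTop atTop := tendsto_natCast_atTop_atTop
  have hl : Tendsto (fun n : ℕ => Real.log n) atTop atTop := Real.tendsto_log_atTop.comp hx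
  have h1 : Tendsto (fun n : ℕ => Real.exp (-(Real.log n / 16))) atTop (𝓝 0) :=
    Real.tendsto_exp_neg_atTop_nhds_zero.comp (hl.atTop_div_const (by norm_num))
  have h2 : Tendsto (fun n : ℕ => Real.log n / n) atTop (𝓝 0) :=
    (Real.isLittleO_log_id_atTop.tendsto_div_nhds_zero).comp hx
  have h3 : Tendsto (fun n : ℕ => Real.exp (-Real.log n)) atTop (𝓝 0) :=
    Real.tendsto_exp_neg_atTop_nhds_zero.comp hl
  have h4 : Tendsto (fun n : ℕ => (((r : ℝ) + 1) * (r + 3) * Real.log n) ^ 4 *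
      Real.exp (-(3 / 8 * Real.log n))) atTop (𝓝 0) := by
    have := ((Real.tendsto_pow_mul_exp_neg_atTop_nhds_zero 4).comp
      (hl.const_mul_atTop (by norm_num : (0 : ℝ) < 3 / 8))).const_mul
      ((((r : ℝ) + 1) * (r + 3) * (8 / 3)) ^ 4)
    rw [mul_zero] at this
    refine this.congr fun n => ?_
    simp only [Function.comp]; ring
  have h5 : Tendsto (fun n : ℕ => (n : ℝ) ^ r * Real.exp (-(n : ℝ))) atTop (𝓝 0) :=
    (Real.tendsto_pow_mul_exp_neg_atTop_nhds_zero r).comp hx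
  have h6 : Tendsto (fun n : ℕ => Real.exp (1 / (n : ℝ)) - 1) atTop (𝓝 0) := by
    have := ((Real.continuous_exp.tendsto 0).comp tendsto_one_div_atTop_nhds_zero_nat).sub_const 1
    simpa using this
  have := ((((((h1.const_mul (2 ^ r * r.factorial : ℝ)).add (h2.const_mul (2 * r : ℝ))).add h3).add
    (h1.div_const ε0)).add (h4.const_mul 2)).add (h5.const_mul (r : ℝ))).add (h6.const_mul (r : ℝ))
  simpa [err] using this

lemma get_num {r : ℕ} (hr : 1 ≤ r) {δ : ℝ} (hδ0 : 0 < δ) (hδ1 : δ ≤ 1 / 16) (n : ℕ)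
    (a1 : 320 * (4 * (r + 1).factorial) * (r + 3) ^ 2 ≤ (n : ℝ))
    (a2 : Real.log n / n ≤ 1 / (64 * (r + 3) ^ 2)) (a3 : 1 ≤ Real.log n) :
    ∃ m1 m2 : ℕ, Num r n (Real.log n) (Real.log n / n) (n.choose (r + 1)) m1 m2 δ := by
  have hr' : (1 : ℝ) ≤ r := by exact_mod_cast hr
  obtain ⟨Cf, hCf⟩ : ∃ Cf : ℝ, Cf = 4 * (r + 1).factorial := ⟨_, rfl⟩
  rw [← hCf] at a1
  have hCf1 : 4 ≤ Cf := by
    have : (1 : ℝ) ≤ (r + 1).factorial := by exact_mod_cast Nat.factorial_pos _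
    linarith
  have hr3 : (16 : ℝ) ≤ (r + 3) ^ 2 := by nlinarith
  have hr4 : (r : ℝ) ≤ (r + 3) ^ 2 := by nlinarith
  have b1 : 320 * Cf ≤ n := by nlinarith
  have b2 : 1280 * ((r : ℝ) + 3) ^ 2 ≤ n := by nlinarith
  have b3 : 32 * r * Cf ≤ n := by nlinarith
  have hx0 : (0 : ℝ) < n := by linarith
  have hxr : 2 * ((r : ℝ) + 1) ≤ n := by nlinarith
  have hn4 : 2 * (r + 1) ≤ n := by exact_mod_cast hxr
  have hMlow : (n : ℝ) ^ 2 / Cf ≤ n.choose (r + 1) := by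
    refine le_trans ?_ (choose_lower n (r + 1) hn4)
    rw [hCf, ← div_div]
    refine div_le_div_of_nonneg_right ?_ (by positivity)
    calc (n : ℝ) ^ 2 / 4 = (n / 2) ^ 2 := by ring
      _ ≤ _ := pow_le_pow_right₀ (by linarith) (by omega)
  have hu0 : 0 < Real.log n / n := by positivity
  have hβ : (0 : ℝ) ≤ r - 1 / 8 := by linarith
  refine ⟨⌊(r - 1 / 8) * (Real.log n / n) * n.choose (r + 1)⌋₊,
    ⌈(r + 2) * (Real.log n / n) * n.choose (r + 1)⌉₊, hr', b2, by field_simp, a3, ?_, ?_, ?_,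
    Nat.floor_le (by positivity), (Nat.lt_floor_add_one _).le, Nat.le_ceil _,
    (Nat.ceil_lt_add_one (by positivity)).le, hδ0, hδ1⟩
  · rw [le_div_iff₀ (by positivity)] at a2; linarith
  · refine le_trans ?_ hMlow
    rw [le_div_iff₀ (by linarith)]
    have := mul_le_mul_of_nonneg_left b1 hx0.le
    linarith
  · refine le_trans ?_ hMlow
    rw [le_div_iff₀ (by linarith)]
    have := mul_le_mul_of_nonneg_left b3 hx0.le
    linarith

lemma fixed_n {r W : ℕ} {c α δ κ g0 : ℝ} {γ : ℕ → ℝ} (hc : 0 < c)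
    (hα : α = c / (6 * (r + 1) * 2 ^ r)) (hLL : 1 ≤ Real.log (32 * (r + 3)))
    (hδ1 : δ * Real.log (32 * (r + 3)) = 1 / 16)
    (hκ0 : 0 < κ) (hκ1 : κ ≤ α / 32) (hκ2 : κ ≤ δ / 2) (hγ : ∀ j, 0 < γ j) (hγr : γ r = 1)
    (hγ1 : ∀ j < r, (r + 1) * γ j ≤ α * γ (j + 1))
    (hγ2 : ∀ j < r, 2 ^ r * (r + 1) ^ 2 * Real.exp ((r + 2) /
      (κ * c / (2 * (r + 1) * 2 ^ (r + 1)) * γ (j + 1))) * γ j ≤ γ (j + 1))
    (hg0 : 0 < g0) (hg : ∀ j < r, g0 ≤ γ j) (n : ℕ) [Fintype (Ordg n (r + 1))]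
    (hcert : Cert n r W c) {m1 m2 : ℕ} {ℓ u : ℝ} (hℓ : ℓ = Real.log n) (hu : u = ℓ / n)
    (N : Num r n ℓ u (n.choose (r + 1)) m1 m2 δ)
    (a4 : 2 * (r + 1) / δ ≤ ℓ)
    (a5 : (Real.log (2 * ((r + 1) * W : ℕ) + 1) + 1) * 8 / (α * g0) ≤ ℓ) :
    pr (fun σ : Ordg n (r + 1) => ¬ Good σ) ≤ err r (κ * g0 / (r + 1)) n := by
  have hr' := N.hr
  have a3 := N.hℓ
  have hα0 : 0 < α := by rw [hα]; positivity
  have hx0 := N.x0
  have hn4 : 4 * (r + 1) ≤ n := by exact_mod_cast N.xr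
  have hn1 : 1 ≤ n := by omega
  have hMn0 : 0 < n.choose (r + 1) := by exact_mod_cast N.M0
  have hu0 := N.u0
  have hm2M : m2 ≤ n.choose (r + 1) := by exact_mod_cast N.m2M
  have h12 : m1 ≤ m2 := by exact_mod_cast N.m12
  have hδ0 := N.hδ0
  have hd : ((n - r : ℕ) : ℝ) = n - r := by rw [Nat.cast_sub (by omega)]
  have H : LowHyp n r m1 m2 (δ * ℓ) (32 * (r + 3)) ((r - 3 / 16) * u) ((r - 5 / 16) * ℓ) := by
    refine ⟨h12, hm2M, hMn0, by positivity, by linarith, N.low_u,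
      mul_nonneg (by linarith) hu0.le, N.low_b, ?_⟩
    rw [hd, mul_right_comm, hδ1]
    exact N.low_a
  have hxr' : (n : ℝ) ^ r = Real.exp (r * ℓ) := by rw [Real.exp_nat_mul, hℓ, Real.exp_log hx0]
  have E1 := pr_cov_early (n := n) (r := r) m1 ((r - 3 / 32) * u) (by omega) (by
      have := N.cov1
      rw [← hd] at this; exact_mod_cast this) (by rw [hd]; exact N.cov2) N.z0 N.z1
  have E1' : Real.exp ((n - r : ℕ) * ((r - 3 / 32) * u * (1 + 2 * ((r - 3 / 32) * u)))) / n.choose r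
      + 2 * ((r - 3 / 32) * u) ≤ 2 ^ r * r.factorial * Real.exp (-(ℓ / 16)) + 2 * r * u := by
    refine add_le_add ?_ (by linarith)
    have h1 := choose_lower n r (by omega)
    have h2 : (0 : ℝ) < (n / 2) ^ r / r.factorial := by positivity
    have h3 := N.cov3
    rw [hd]
    calc _ ≤ Real.exp (r * ℓ - ℓ / 16) / ((n / 2) ^ r / r.factorial) := by gcongr
      _ = _ := by
        rw [sub_eq_add_neg, Real.exp_add, ← hxr', div_pow]; field_simp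
  have E2 := pr_cov_late (n := n) (r := r) m2 hm2M hMn0
  have E2' : (n : ℝ) ^ r * Real.exp (-((n - r : ℕ) * ((m2 : ℝ) / n.choose (r + 1)))) ≤
      Real.exp (-ℓ) := by
    rw [hxr', ← Real.exp_add, hd]
    exact Real.exp_le_exp.2 N.cov4
  have hε : 0 < κ * g0 / (r + 1) := by positivity
  have E3 := pr_many_low H (κ * g0 / (r + 1) * n) (by positivity)
  have E3' : (n : ℝ) ^ r * Real.exp (-((r - 5 / 16) * ℓ)) / (κ * g0 / (r + 1) * n) ≤
      Real.exp (-(ℓ / 16)) / (κ * g0 / (r + 1)) := by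
    rw [mul_comm _ (n : ℝ), ← div_div]
    refine div_le_div_of_nonneg_right ?_ hε.le
    have hn' : (n : ℝ) = Real.exp ℓ := by rw [hℓ, Real.exp_log hx0]
    rw [hxr', ← Real.exp_add, hn', ← Real.exp_sub]
    exact Real.exp_le_exp.2 (by linarith)
  obtain ⟨A, hA⟩ : ∃ A : ℝ, A = (r + 1) * (r + 3) * ℓ := ⟨_, rfl⟩
  have hA1 : 1 ≤ A := hA ▸ N.A1
  have hA2 : n * (r + 1) * ((m2 : ℝ) / n.choose (r + 1)) ≤ A := hA ▸ N.A2
  have hA3 : (n : ℝ) ^ r * Real.exp (-(2 * ((r - 5 / 16) * ℓ))) ≤ Real.exp (-(3 / 8 * ℓ)) := by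
    rw [hxr', ← Real.exp_add]
    exact Real.exp_le_exp.2 N.A3
  have E4 := pr_far2 H
  have E4' : (n : ℝ) ^ r * (n * (r + 1) * (n * (r + 1) * (((m2 : ℝ) / n.choose (r + 1)) ^ 2 *
      Real.exp (-(2 * ((r - 5 / 16) * ℓ)))))) ≤ A ^ 4 * Real.exp (-(3 / 8 * ℓ)) := by
    calc _ = (n * (r + 1) * ((m2 : ℝ) / n.choose (r + 1))) ^ 2 *
            ((n : ℝ) ^ r * Real.exp (-(2 * ((r - 5 / 16) * ℓ)))) := by ring
      _ ≤ A ^ 2 * Real.exp (-(3 / 8 * ℓ)) := by gcongr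
      _ ≤ _ := mul_le_mul_of_nonneg_right (pow_le_pow_right₀ hA1 (by norm_num)) (by positivity)
  have E5 := pr_far4 H
  have E5' : (n : ℝ) ^ r * (n * (r + 1) * (n * (r + 1) * (n * (r + 1) * (n * (r + 1) *
      (((m2 : ℝ) / n.choose (r + 1)) ^ 4 * Real.exp (-(2 * ((r - 5 / 16) * ℓ)))))))) ≤
      A ^ 4 * Real.exp (-(3 / 8 * ℓ)) := by
    calc _ = (n * (r + 1) * ((m2 : ℝ) / n.choose (r + 1))) ^ 4 *
            ((n : ℝ) ^ r * Real.exp (-(2 * ((r - 5 / 16) * ℓ)))) := by ring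
      _ ≤ _ := by gcongr
  have E6 := pr_notP (n := n) (r := r) (W := W) (m := m1) hγ hα0 (by linarith : 2 * κ ≤ α / 16)
    (by linarith : 0 ≤ ℓ) hn1 (h12.trans hm2M) hMn0 N.P1 (fun j hj => by
      rw [div_le_iff₀ (by positivity)] at a5
      have h1 : ℓ * (α * g0) ≤ ℓ * (α * γ j) := by
        have := hg j hj
        gcongr
      linarith)
  have E7 := pr_notU (n := n) (r := r) (m := m1) hγ
    (by positivity : 0 < κ * c / (2 * (r + 1) * 2 ^ (r + 1))) hn1 (h12.trans hm2M)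
    (hℓ ▸ N.U1) hγ2
  rw [← hℓ] at E7
  have key : ∀ σ : Ordg n (r + 1), ¬ Good σ →
      ((((((∀ f ∈ PS n r, ∃ e ∈ HH σ m1, f ⊆ e) ∨ ¬ ∀ f ∈ PS n r, ∃ e ∈ HH σ m2, f ⊆ e) ∨
      κ * g0 / (r + 1) * n ≤ ((PS n r).filter (low r (δ * ℓ) (HH σ m1))).card) ∨
      ¬ Far2 r (δ * ℓ) (HH σ m1) (HH σ m2)) ∨ ¬ Far4 r (δ * ℓ) (HH σ m1) (HH σ m2)) ∨
      ¬ PropP r W γ α κ ℓ (HH σ m1)) ∨
      ¬ PropU r γ (κ * c / (2 * (r + 1) * 2 ^ (r + 1))) ℓ (HH σ m1) := by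
    intro σ hσ
    by_contra hcon
    simp only [not_or, not_not] at hcon
    obtain ⟨⟨⟨⟨⟨⟨c1, c2⟩, c3⟩, c4⟩, c5⟩, c6⟩, c7⟩ := hcon
    apply hσ
    have main : ∀ t, m1 ≤ t → t ≤ m2 → (∀ f ∈ PS n r, ∃ e ∈ HH σ t, f ⊆ e) →
        ∃ w : Finset (Fin n) → ℝ, (∀ e, 0 ≤ w e ∧ w e ≤ 1) ∧
          ∀ f ∈ PS n r, ∑ e ∈ (HH σ t).filter (fun e => f ⊆ e), w e = 1 := by
      intro t h1 h2 hcov
      refine deterministic hγ hγr hc hα hκ0 a3 hn1 hγ1 hcert (HH_mono σ h1) (HH_mono σ h2)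
        (HH_subset σ m2) hcov c4 c5 ?_ c6 c7 fun j hj => ?_
      · rw [div_le_iff₀ hδ0] at a4
        have := mul_le_mul_of_nonneg_right hκ2 (by linarith : 0 ≤ ℓ)
        linarith
      · have h3 := (not_le.1 c3).le
        have h4 : ((r : ℝ) + 1) * (κ * g0 / (r + 1) * n) = κ * g0 * n := by field_simp
        have h5 := mul_le_mul_of_nonneg_left h3 (by positivity : (0 : ℝ) ≤ r + 1)
        rw [h4] at h5
        have h6 := hg j hj
        have h7 : κ * g0 * n ≤ κ * γ j * n := by gcongr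
        have h8 : κ * γ j * n ≤ α * γ j * n := by
          have := hγ j
          have : κ ≤ α := by linarith
          gcongr
        exact ⟨h5.trans (h7.trans h8), h5.trans h7⟩
    intro t hcov
    by_cases h1 : m1 ≤ t
    · by_cases h2 : t ≤ m2
      · exact main t h1 h2 hcov
      · exact frac_mono (HH_mono σ (not_le.1 h2).le) (main m2 h12 le_rfl c2)
    · exact absurd (fun f hf => by
        obtain ⟨e, he, h⟩ := hcov f hf
        exact ⟨e, HH_mono σ (not_le.1 h1).le he, h⟩) c1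
  refine (pr_mono key).trans ?_
  refine (pr_or _ _).trans ?_
  refine (add_le_add ((pr_or _ _).trans (add_le_add ((pr_or _ _).trans (add_le_add
    ((pr_or _ _).trans (add_le_add ((pr_or _ _).trans (add_le_add ((pr_or _ _).trans
      (add_le_add (E1.trans E1') (E2.trans E2'))) (E3.trans E3'))) (E4.trans E4')))
      (E5.trans E5'))) E6)) E7).trans (le_of_eq ?_)
  unfold err
  rw [← hℓ, ← hu, ← hA]; ring

theorem bad_tendsto (r : ℕ) (hr : 1 ≤ r) : ∃ ε : ℕ → ℝ, Tendsto ε atTop (𝓝 0) ∧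
    ∀ᶠ n in atTop, ∀ [Fintype (Ordg n (r + 1))], pr (fun σ : Ordg n (r + 1) => ¬ Good σ) ≤ ε n := by
  obtain ⟨W, c, hc, hcert⟩ := certificate r hr
  set α : ℝ := c / (6 * (r + 1) * 2 ^ r) with hα
  set δ : ℝ := 1 / (16 * Real.log (32 * (r + 3))) with hδ
  have hα0 : 0 < α := by positivity
  have hLL : (1 : ℝ) ≤ Real.log (32 * (r + 3)) := by
    rw [Real.le_log_iff_exp_le (by positivity)]
    have := Real.exp_one_lt_d9
    have : (0 : ℝ) ≤ r := by positivity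
    linarith
  have hδ0 : 0 < δ := by positivity
  have hδ1 : δ * Real.log (32 * (r + 3)) = 1 / 16 := by rw [hδ]; field_simp
  have hδ2 : δ ≤ 1 / 16 := by nlinarith
  set κ : ℝ := min (α / 32) (δ / 2) with hκ
  have hκ0 : 0 < κ := lt_min (by positivity) (by positivity)
  obtain ⟨γ, hγ, hγr, hγ1, hγ2, g0, hg0, hg⟩ :=
    exists_gamma r (ν := κ * c / (2 * (r + 1) * 2 ^ (r + 1))) hα0
  refine ⟨_, err_tendsto r (κ * g0 / (r + 1)), ?_⟩
  have hx : Tendsto (fun n : ℕ => (n : ℝ)) atTop atTop := tendsto_natCast_atTop_atTop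
  have hl : Tendsto (fun n : ℕ => Real.log n) atTop atTop := Real.tendsto_log_atTop.comp hx
  have h2 : Tendsto (fun n : ℕ => Real.log n / n) atTop (𝓝 0) :=
    (Real.isLittleO_log_id_atTop.tendsto_div_nhds_zero).comp hx
  filter_upwards [hx.eventually_ge_atTop (320 * (4 * (r + 1).factorial) * (r + 3) ^ 2),
    h2.eventually_le_const (by positivity : (0 : ℝ) < 1 / (64 * (r + 3) ^ 2)),
    hl.eventually_ge_atTop 1, hl.eventually_ge_atTop (2 * (r + 1) / δ),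
    hl.eventually_ge_atTop ((Real.log (2 * ((r + 1) * W : ℕ) + 1) + 1) * 8 / (α * g0)),
    eventually_ge_atTop (4 * (r + 1))] with n a1 a2 a3 a4 a5 a6
  intro _
  obtain ⟨m1, m2, N⟩ := get_num hr hδ0 hδ2 n a1 a2 a3
  exact fixed_n hc hα hLL hδ1 hκ0 (min_le_left _ _) (min_le_right _ _) hγ hγr hγ1 hγ2 hg0 hg n
    (hcert n a6) rfl rfl N a4 a5

end Pool.Agent.H220Z.Frac
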