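import Pool.Agent.H220Z.Frac.Pr

/-! Uniformly random orderings of a finite type: one-step conditioning and tail bounds. -/

set_option autoImplicit false
open Finset
open scoped Classical

namespace Pool.Agent.H220Z.Frac

variable {α : Type*} [Fintype α] {M : ℕ} [Fintype (Fin M ≃ α)]

/-- position of an element in an ordering -/
def pos (σ : Fin M ≃ α) (a : α) : ℕ := (σ.symm a).val

omit [Fintype (Fin M ≃ α)] in
lemma card_pos_lt (σ : Fin M ≃ α) (m : ℕ) (hm : m ≤ M) :
    (univ.filter fun b => pos σ b < m).card = m := by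
  have : (univ.filter fun b => pos σ b < m).card = (univ.filter fun i : Fin M => i.val < m).card := by
    apply card_equiv σ.symm
    intro b; rw [mem_filter, mem_filter]; simp [pos]
  rw [this, Fin.card_filter_val_lt, min_eq_right hm]

omit [Fintype (Fin M ≃ α)] in
lemma card_pos_ge (σ : Fin M ≃ α) (m : ℕ) (hm : m ≤ M) :
    (univ.filter fun b => m ≤ pos σ b).card = M - m := by
  have h1 := card_filter_add_card_filter_not (s := (univ : Finset α)) (fun b => pos σ b < m)
  have h2 : Fintype.card α = M := by rw [← Fintype.card_congr σ, Fintype.card_fin]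
  rw [card_pos_lt σ m hm, card_univ, h2] at h1
  simp only [not_lt] at h1
  omega

/-- exact one-step conditioning -/
lemma step_eq (hM : Fintype.card α = M) (T : Finset α) (a : α) (ha : a ∉ T) (q : α → ℕ → Prop)
    (P : ℕ → Prop) [DecidablePred P] :
    (M - T.card) * (univ.filter fun σ : Fin M ≃ α => (∀ x ∈ T, q x (pos σ x)) ∧ P (pos σ a)).card
      = ∑ σ ∈ univ.filter (fun σ : Fin M ≃ α => ∀ x ∈ T, q x (pos σ x)),
          (Tᶜ.filter fun b => P (pos σ b)).card := by
  have h1 : ∀ b ∈ Tᶜ,
      (univ.filter fun σ : Fin M ≃ α => (∀ x ∈ T, q x (pos σ x)) ∧ P (pos σ a)).card =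
      (univ.filter fun σ : Fin M ≃ α => (∀ x ∈ T, q x (pos σ x)) ∧ P (pos σ b)).card := by
    intro b hb
    have hb' : b ∉ T := mem_compl.1 hb
    have key : ∀ (σ : Fin M ≃ α) (x : α), pos (σ.trans (Equiv.swap a b)) x = pos σ (Equiv.swap a b x) := by
      intro σ x; simp [pos]
    have key2 : ∀ x ∈ T, Equiv.swap a b x = x := fun x hx =>
      Equiv.swap_apply_of_ne_of_ne (fun h => ha (h ▸ hx)) (fun h => hb' (h ▸ hx))
    refine card_bij' (fun σ _ => σ.trans (Equiv.swap a b)) (fun σ _ => σ.trans (Equiv.swap a b))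
      ?_ ?_ ?_ ?_
    · intro σ hσ
      simp only [mem_filter, mem_univ, true_and] at hσ ⊢
      refine ⟨fun x hx => ?_, ?_⟩
      · rw [key, key2 x hx]; exact hσ.1 x hx
      · rw [key, Equiv.swap_apply_right]; exact hσ.2
    · intro σ hσ
      simp only [mem_filter, mem_univ, true_and] at hσ ⊢
      refine ⟨fun x hx => ?_, ?_⟩
      · rw [key, key2 x hx]; exact hσ.1 x hx
      · rw [key, Equiv.swap_apply_left]; exact hσ.2
    · intro σ _; ext i; simp
    · intro σ _; ext i; simp
  have h2 : M - T.card = Tᶜ.card := by rw [card_compl, hM]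
  rw [h2, ← smul_eq_mul, ← sum_const, sum_congr rfl h1]
  simp only [card_filter]
  rw [sum_comm, sum_filter]
  refine sum_congr rfl fun σ _ => ?_
  by_cases h : ∀ x ∈ T, q x (pos σ x)
  · simp only [if_pos h]
    refine sum_congr rfl fun b _ => ?_
    by_cases h' : P (pos σ b)
    · rw [if_pos ⟨h, h'⟩, if_pos h']
    · rw [if_neg (fun hh => h' hh.2), if_neg h']
  · simp only [if_neg h]
    exact sum_eq_zero fun b _ => if_neg (fun hh => h hh.1)

/-- one-step conditioning, probability form with a bound on the free positions -/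
lemma step_pr (hM : Fintype.card α = M) (T : Finset α) (a : α) (ha : a ∉ T) (q : α → ℕ → Prop)
    (P : ℕ → Prop) [DecidablePred P] (c : ℕ)
    (hc : ∀ σ : Fin M ≃ α, (∀ x ∈ T, q x (pos σ x)) → (Tᶜ.filter fun b => P (pos σ b)).card = c) :
    ((M : ℝ) - T.card) * pr (fun σ : Fin M ≃ α => (∀ x ∈ T, q x (pos σ x)) ∧ P (pos σ a))
      = c * pr (fun σ : Fin M ≃ α => ∀ x ∈ T, q x (pos σ x)) := by
  have h := step_eq hM T a ha q P
  rw [sum_congr rfl (fun σ hσ => hc σ (mem_filter.1 hσ).2), sum_const, smul_eq_mul] at h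
  have hT : T.card ≤ M := hM ▸ card_le_univ T
  rw [← pr_eq, ← pr_eq, ← mul_div_assoc, ← mul_div_assoc]
  congr 1
  rw [← Nat.cast_sub hT, mul_comm (c : ℝ)]
  exact_mod_cast h

omit [Fintype (Fin M ≃ α)] in
lemma card_compl_filter (T : Finset α) (p : α → Prop) [DecidablePred p] (S : Finset α) (hS : T.filter p = S) :
    (Tᶜ.filter p).card = (univ.filter p).card - S.card := by
  rw [← hS]
  have : Tᶜ.filter p = univ.filter p \ T.filter p := by
    ext x; simp; tauto
  rw [this, card_sdiff_of_subset (filter_subset_filter _ (subset_univ _))]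

lemma pr_all_lt (hM : Fintype.card α = M) (m : ℕ) (hm : m ≤ M) (Y : Finset α) :
    pr (fun σ : Fin M ≃ α => ∀ x ∈ Y, pos σ x < m) ≤ ((m : ℝ) / M) ^ Y.card := by
  induction Y using Finset.induction_on with
  | empty => simpa using pr_le_one _
  | insert a Y ha ih =>
    have h := step_pr hM Y a ha (fun _ t => t < m) (fun t => t < m) (m - Y.card) (by
      intro σ hσ
      rw [card_compl_filter Y _ Y (filter_true_of_mem hσ), card_pos_lt σ m hm])
    have e : pr (fun σ : Fin M ≃ α => ∀ x ∈ insert a Y, pos σ x < m) =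
        pr (fun σ : Fin M ≃ α => (∀ x ∈ Y, pos σ x < m) ∧ pos σ a < m) :=
      pr_congr fun σ => by rw [forall_mem_insert, and_comm]
    rw [e, card_insert_of_notMem ha, pow_succ]
    have hY : Y.card < M := by
      have := card_le_univ (insert a Y)
      rw [card_insert_of_notMem ha, hM] at this; omega
    have hY' : (0 : ℝ) < (M : ℝ) - Y.card := by
      have : (Y.card : ℝ) < M := by exact_mod_cast hY
      linarith
    have hM0 : (0 : ℝ) < M := by
      have : 0 < M := by omega
      exact_mod_cast this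
    have hr : ((m - Y.card : ℕ) : ℝ) ≤ ((m : ℝ) / M) * ((M : ℝ) - Y.card) := by
      rcases le_total m Y.card with h' | h'
      · rw [Nat.sub_eq_zero_of_le h']; simp only [Nat.cast_zero]; positivity
      · rw [Nat.cast_sub h', div_mul_eq_mul_div, le_div_iff₀ hM0]
        have : (m : ℝ) ≤ M := by exact_mod_cast hm
        have h0 : (0 : ℝ) ≤ Y.card := by positivity
        nlinarith
    apply le_of_mul_le_mul_left _ hY'
    rw [h]
    calc ((m - Y.card : ℕ) : ℝ) * pr (fun σ : Fin M ≃ α => ∀ x ∈ Y, pos σ x < m)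
        ≤ (((m : ℝ) / M) * ((M : ℝ) - Y.card)) * ((m : ℝ) / M) ^ Y.card :=
          mul_le_mul hr ih (pr_nonneg _) (by positivity)
      _ = _ := by ring

/-- joint bound: `Y` early, `X` late -/
lemma pr_early_late (hM : Fintype.card α = M) (m1 m2 : ℕ) (h1 : m1 ≤ M) (h2 : m2 ≤ M)
    (Y : Finset α) (hY : Y.card < M) (X : Finset α) (hXY : Disjoint X Y) :
    pr (fun σ : Fin M ≃ α => (∀ x ∈ Y, pos σ x < m2) ∧ ∀ x ∈ X, m1 ≤ pos σ x) ≤
      ((m2 : ℝ) / M) ^ Y.card * (((M : ℝ) - m1) / ((M : ℝ) - Y.card)) ^ X.card := by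
  induction X using Finset.induction_on with
  | empty => simpa using pr_all_lt hM m2 h2 Y
  | insert a X ha ih =>
    have haY : a ∉ Y := disjoint_left.1 hXY (mem_insert_self _ _)
    have hXY' : Disjoint X Y := disjoint_of_subset_left (subset_insert _ _) hXY
    have ih' := ih hXY'
    have hY' : (0 : ℝ) < (M : ℝ) - Y.card := by
      have : (Y.card : ℝ) < M := by exact_mod_cast hY
      linarith
    have hm1 : (0 : ℝ) ≤ (M : ℝ) - m1 := by
      have : (m1 : ℝ) ≤ M := by exact_mod_cast h1
      linarith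
    set b : ℝ := ((M : ℝ) - m1) / ((M : ℝ) - Y.card) with hb
    have hb0 : 0 ≤ b := by positivity
    rw [card_insert_of_notMem ha, pow_succ, ← mul_assoc]
    have e : pr (fun σ : Fin M ≃ α => (∀ x ∈ Y, pos σ x < m2) ∧ ∀ x ∈ insert a X, m1 ≤ pos σ x) =
        pr (fun σ : Fin M ≃ α => ((∀ x ∈ Y, pos σ x < m2) ∧ ∀ x ∈ X, m1 ≤ pos σ x)
          ∧ m1 ≤ pos σ a) :=
      pr_congr fun σ => by rw [forall_mem_insert]; tauto
    rw [e]
    rcases le_total 1 b with hb1 | hb1
    · refine le_trans (pr_mono fun σ h => h.1) (ih'.trans ?_)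
      exact le_mul_of_one_le_right (by positivity) hb1
    · let q : α → ℕ → Prop := fun x t => (x ∈ Y → t < m2) ∧ (x ∈ X → m1 ≤ t)
      have eq : ∀ σ : Fin M ≃ α, (∀ x ∈ X ∪ Y, q x (pos σ x)) ↔
          ((∀ x ∈ Y, pos σ x < m2) ∧ ∀ x ∈ X, m1 ≤ pos σ x) := by
        intro σ
        constructor
        · intro h
          exact ⟨fun x hx => (h x (mem_union_right _ hx)).1 hx,
            fun x hx => (h x (mem_union_left _ hx)).2 hx⟩
        · intro h x _
          exact ⟨h.1 x, h.2 x⟩
      have haT : a ∉ X ∪ Y := by simp [ha, haY]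
      have hs := step_eq hM (X ∪ Y) a haT q (fun t => m1 ≤ t)
      have hle : ∀ σ ∈ univ.filter (fun σ : Fin M ≃ α => ∀ x ∈ X ∪ Y, q x (pos σ x)),
          ((X ∪ Y)ᶜ.filter fun b => m1 ≤ pos σ b).card ≤ M - m1 - X.card := by
        intro σ hσ
        have hσ' := (eq σ).1 (mem_filter.1 hσ).2
        have : ((X ∪ Y)ᶜ.filter fun b => m1 ≤ pos σ b) ⊆ Xᶜ.filter fun b => m1 ≤ pos σ b :=
          filter_subset_filter _ (compl_subset_compl.2 subset_union_left)
        refine (card_le_card this).trans ?_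
        rw [card_compl_filter X _ X (filter_true_of_mem hσ'.2), card_pos_ge σ m1 h1]
      have hs2 := hs.le.trans (sum_le_card_nsmul _ _ (M - m1 - X.card)
        (fun σ hσ => hle σ (by simpa only [mem_filter] using hσ)))
      rw [smul_eq_mul, card_union_of_disjoint hXY'] at hs2
      have hT : X.card + Y.card < M := by
        have := card_le_univ (insert a (X ∪ Y))
        rw [card_insert_of_notMem haT, hM, card_union_of_disjoint hXY'] at this; omega
      have hT' : (0 : ℝ) < (M : ℝ) - (X.card + Y.card) := by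
        have : ((X.card + Y.card : ℕ) : ℝ) < M := by exact_mod_cast hT
        push_cast at this; linarith
      have hs3 : ((M : ℝ) - (X.card + Y.card)) *
          pr (fun σ : Fin M ≃ α => (∀ x ∈ X ∪ Y, q x (pos σ x)) ∧ m1 ≤ pos σ a) ≤
          ((M - m1 - X.card : ℕ) : ℝ) * pr (fun σ : Fin M ≃ α => ∀ x ∈ X ∪ Y, q x (pos σ x)) := by
        rw [← pr_eq, ← pr_eq, ← mul_div_assoc, ← mul_div_assoc]
        apply div_le_div_of_nonneg_right _ (by positivity)
        rw [mul_comm ((M - m1 - X.card : ℕ) : ℝ), ← Nat.cast_add, ← Nat.cast_sub hT.le,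
          ← Nat.cast_mul, ← Nat.cast_mul, Nat.cast_le]
        convert hs2
        rfl
      rw [pr_congr (fun σ => and_congr_left' (eq σ)), pr_congr eq] at hs3
      have hr : ((M - m1 - X.card : ℕ) : ℝ) ≤ b * ((M : ℝ) - (X.card + Y.card)) := by
        rcases le_total (M - m1) X.card with h' | h'
        · rw [Nat.sub_eq_zero_of_le h']; simp only [Nat.cast_zero]; positivity
        · rw [Nat.cast_sub h', Nat.cast_sub h1]
          have e1 : b * ((M : ℝ) - Y.card) = (M : ℝ) - m1 := by rw [hb]; field_simp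
          have h0 : (0 : ℝ) ≤ X.card := by positivity
          nlinarith
      apply le_of_mul_le_mul_left _ hT'
      refine hs3.trans ?_
      calc _ ≤ (b * ((M : ℝ) - (X.card + Y.card))) * (((m2 : ℝ) / M) ^ Y.card * b ^ X.card) :=
            mul_le_mul hr ih' (pr_nonneg _) (by positivity)
        _ = _ := by ring

/-- exact probability that a set of `x` elements lies late -/
noncomputable def late (M m x : ℕ) : ℝ :=
  ∏ i ∈ range x, ((M - m - i : ℕ) : ℝ) / ((M : ℝ) - i)

lemma pr_late (hM : Fintype.card α = M) (m : ℕ) (hm : m ≤ M) (X : Finset α) :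
    pr (fun σ : Fin M ≃ α => ∀ x ∈ X, m ≤ pos σ x) = late M m X.card := by
  have : Nonempty (Fin M ≃ α) := ⟨(Fintype.equivFinOfCardEq hM).symm⟩
  induction X using Finset.induction_on with
  | empty =>
    have := pr_compl (fun σ : Fin M ≃ α => False)
    rw [pr_false (A := fun _ : Fin M ≃ α => False) (fun _ h => h)] at this
    simp only [late, card_empty, range_zero, prod_empty]
    rw [← sub_zero (1 : ℝ), ← this]
    exact pr_congr fun σ => by simp
  | insert a X ha ih =>
    have h := step_pr hM X a ha (fun _ t => m ≤ t) (fun t => m ≤ t) (M - m - X.card) (by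
      intro σ hσ
      rw [card_compl_filter X _ X (filter_true_of_mem hσ), card_pos_ge σ m hm])
    have e : pr (fun σ : Fin M ≃ α => ∀ x ∈ insert a X, m ≤ pos σ x) =
        pr (fun σ : Fin M ≃ α => (∀ x ∈ X, m ≤ pos σ x) ∧ m ≤ pos σ a) :=
      pr_congr fun σ => by rw [forall_mem_insert, and_comm]
    have hY : X.card < M := by
      have := card_le_univ (insert a X)
      rw [card_insert_of_notMem ha, hM] at this; omega
    have hY' : (0 : ℝ) < (M : ℝ) - X.card := by
      have : (X.card : ℝ) < M := by exact_mod_cast hY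
      linarith
    rw [e, card_insert_of_notMem ha, late, prod_range_succ, ← late, ← ih]
    apply mul_left_cancel₀ hY'.ne'
    rw [h]; field_simp

end Pool.Agent.H220Z.Frac
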