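import Mathlib

/-! Uniform probability on a finite type: union bound, Markov, second moment. -/

set_option autoImplicit false
open Finset
open scoped Classical

namespace Pool.Agent.H220Z.Frac

/-- uniform probability of a predicate on a finite type -/
noncomputable def pr {Ω : Type*} [Fintype Ω] (A : Ω → Prop) : ℝ :=
  ((univ.filter A).card : ℝ) / (Fintype.card Ω : ℝ)

variable {Ω : Type*} [Fintype Ω]

lemma pr_eq (A : Ω → Prop) [d : DecidablePred A] :
    ((@Finset.filter Ω A d univ).card : ℝ) / (Fintype.card Ω : ℝ) = pr A := by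
  unfold pr; congr

lemma pr_nonneg (A : Ω → Prop) : 0 ≤ pr A := by
  unfold pr; positivity

lemma pr_le_one (A : Ω → Prop) : pr A ≤ 1 := by
  unfold pr
  apply div_le_one_of_le₀ _ (by positivity)
  exact_mod_cast card_le_univ _

lemma pr_mono {A B : Ω → Prop} (h : ∀ ω, A ω → B ω) : pr A ≤ pr B := by
  unfold pr
  apply div_le_div_of_nonneg_right _ (by positivity)
  exact_mod_cast card_le_card (fun ω hω => by
    simp only [mem_filter, mem_univ, true_and] at hω ⊢; exact h ω hω)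

lemma pr_congr {A B : Ω → Prop} (h : ∀ ω, A ω ↔ B ω) : pr A = pr B :=
  le_antisymm (pr_mono fun ω => (h ω).1) (pr_mono fun ω => (h ω).2)

lemma pr_false {A : Ω → Prop} (h : ∀ ω, ¬ A ω) : pr A = 0 := by
  unfold pr
  rw [filter_eq_empty_iff.2 (fun ω _ => h ω)]; simp

lemma pr_eq_sum (A : Ω → Prop) [DecidablePred A] :
    pr A = (∑ ω : Ω, if A ω then (1 : ℝ) else 0) / (Fintype.card Ω : ℝ) := by
  rw [← pr_eq]; simp

lemma pr_or (A B : Ω → Prop) : pr (fun ω => A ω ∨ B ω) ≤ pr A + pr B := by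
  rw [← pr_eq (fun ω => A ω ∨ B ω)]
  unfold pr
  rw [← add_div]
  apply div_le_div_of_nonneg_right _ (by positivity)
  have : (univ.filter fun ω => A ω ∨ B ω) ⊆ univ.filter A ∪ univ.filter B := by
    intro ω; simp
  have h2 := (card_le_card this).trans (card_union_le _ _)
  exact_mod_cast h2

lemma pr_compl [Nonempty Ω] (A : Ω → Prop) : pr (fun ω => ¬ A ω) = 1 - pr A := by
  rw [← pr_eq (fun ω => ¬ A ω)]
  unfold pr
  have h : (0 : ℝ) < Fintype.card Ω := by exact_mod_cast Fintype.card_pos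
  have h2 := card_filter_add_card_filter_not (s := (univ : Finset Ω)) A
  rw [card_univ] at h2
  have h3 : ((univ.filter A).card : ℝ) + ((univ.filter fun ω => ¬ A ω).card : ℝ)
      = Fintype.card Ω := by exact_mod_cast h2
  field_simp
  exact eq_sub_of_add_eq' h3

lemma pr_exists_le_sum {ι : Type*} (s : Finset ι) (A : ι → Ω → Prop) :
    pr (fun ω => ∃ i ∈ s, A i ω) ≤ ∑ i ∈ s, pr (A i) := by
  rw [← pr_eq (fun ω => ∃ i ∈ s, A i ω)]
  unfold pr
  rw [← sum_div]
  apply div_le_div_of_nonneg_right _ (by positivity)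
  have : (univ.filter fun ω => ∃ i ∈ s, A i ω) ⊆ s.biUnion (fun i => univ.filter (A i)) := by
    intro ω; simp
  have h2 := (card_le_card this).trans card_biUnion_le
  exact_mod_cast h2

lemma pr_exists_le {ι : Type*} (s : Finset ι) (A : ι → Ω → Prop) (c B : ℝ)
    (hs : (s.card : ℝ) ≤ c) (hB : 0 ≤ B) (h : ∀ i ∈ s, pr (A i) ≤ B) :
    pr (fun ω => ∃ i ∈ s, A i ω) ≤ c * B := by
  refine (pr_exists_le_sum s A).trans ?_
  refine (sum_le_card_nsmul s _ B h).trans ?_
  rw [nsmul_eq_mul]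
  exact mul_le_mul_of_nonneg_right hs hB

lemma sum_card_filter_eq {ι : Type*} (s : Finset ι) (A : ι → Ω → Prop) :
    (∑ ω : Ω, ((s.filter fun i => A i ω).card : ℝ)) =
      ∑ i ∈ s, ((univ.filter (A i)).card : ℝ) := by
  simp only [card_filter, Nat.cast_sum]
  rw [sum_comm]

/-- Markov's inequality for a count -/
lemma pr_markov {ι : Type*} (s : Finset ι) (A : ι → Ω → Prop) (T : ℝ) (hT : 0 < T) :
    pr (fun ω => T ≤ ((s.filter fun i => A i ω).card : ℝ)) ≤ (∑ i ∈ s, pr (A i)) / T := by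
  rw [← pr_eq (fun ω => T ≤ ((s.filter fun i => A i ω).card : ℝ))]
  unfold pr
  rw [← sum_div, ← sum_card_filter_eq, div_div, mul_comm, ← div_div]
  apply div_le_div_of_nonneg_right _ (by positivity)
  rw [le_div_iff₀ hT]
  calc ((univ.filter fun ω => T ≤ ((s.filter fun i => A i ω).card : ℝ)).card : ℝ) * T
      = ∑ ω ∈ univ.filter fun ω => T ≤ ((s.filter fun i => A i ω).card : ℝ), T := by
        rw [sum_const, nsmul_eq_mul]
    _ ≤ ∑ ω ∈ univ.filter fun ω => T ≤ ((s.filter fun i => A i ω).card : ℝ),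
          ((s.filter fun i => A i ω).card : ℝ) :=
        sum_le_sum fun ω hω => (mem_filter.1 hω).2
    _ ≤ _ := sum_le_sum_of_subset_of_nonneg (filter_subset _ _) (fun _ _ _ => by positivity)

/-- second moment bound -/
lemma pr_second_moment [Nonempty Ω] {ι : Type*} (s : Finset ι) (A : ι → Ω → Prop) (π ρ : ℝ)
    (hπ : 0 < π) (hρ : 1 ≤ ρ) (hs : s.Nonempty) (h1 : ∀ i ∈ s, pr (A i) = π)
    (h2 : ∀ i ∈ s, ∀ j ∈ s, i ≠ j → pr (fun ω => A i ω ∧ A j ω) ≤ ρ * π ^ 2) :
    pr (fun ω => ∀ i ∈ s, ¬ A i ω) ≤ 1 / (s.card * π) + (ρ - 1) := by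
  have hΩ : (0 : ℝ) < Fintype.card Ω := by exact_mod_cast Fintype.card_pos
  have hN : (0 : ℝ) < s.card := by exact_mod_cast hs.card_pos
  set U : Ω → ℝ := fun ω => ((s.filter fun i => A i ω).card : ℝ) with hU
  have e1 : ∑ ω, U ω = s.card * π * Fintype.card Ω := by
    rw [hU, sum_card_filter_eq, mul_assoc, ← nsmul_eq_mul, ← sum_const]
    refine sum_congr rfl fun i hi => ?_
    rw [← h1 i hi]; unfold pr; field_simp
  have e2 : ∑ ω, U ω ^ 2 ≤ (s.card * π + s.card ^ 2 * (ρ * π ^ 2)) * Fintype.card Ω := by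
    have : ∀ ω, U ω ^ 2 = ∑ i ∈ s, ∑ j ∈ s, if A i ω ∧ A j ω then (1 : ℝ) else 0 := by
      intro ω
      simp only [hU, card_filter, Nat.cast_sum, sq, sum_mul_sum]
      refine sum_congr rfl fun i _ => sum_congr rfl fun j _ => ?_
      by_cases h : A i ω <;> by_cases h' : A j ω <;> simp [h, h']
    simp only [this]
    rw [sum_comm]
    have : ∀ i ∈ s, ∑ ω : Ω, ∑ j ∈ s, (if A i ω ∧ A j ω then (1 : ℝ) else 0) ≤
        (π + s.card * (ρ * π ^ 2)) * Fintype.card Ω := by
      intro i hi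
      rw [sum_comm]
      have h3 : ∀ j ∈ s, ∑ ω : Ω, (if A i ω ∧ A j ω then (1 : ℝ) else 0) ≤
          ((if j = i then π else 0) + ρ * π ^ 2) * Fintype.card Ω := by
        intro j hj
        rw [← div_le_iff₀ hΩ]
        have h4 := pr_eq_sum (fun ω => A i ω ∧ A j ω)
        have h5 : (∑ ω : Ω, (if A i ω ∧ A j ω then (1 : ℝ) else 0)) / (Fintype.card Ω : ℝ)
            = pr (fun ω => A i ω ∧ A j ω) := by rw [h4]
        rw [h5]
        have h6 : 0 ≤ ρ * π ^ 2 := by positivity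
        by_cases hji : j = i
        · subst hji
          have : pr (fun ω => A j ω ∧ A j ω) ≤ π := by
            rw [← h1 j hj]; exact pr_mono fun ω h => h.1
          simp only [if_true]; linarith
        · simp only [hji, if_false, zero_add]
          exact h2 i hi j hj (Ne.symm hji)
      refine (sum_le_sum h3).trans (le_of_eq ?_)
      rw [← sum_mul, sum_add_distrib, sum_ite_eq' s i, if_pos hi, sum_const, nsmul_eq_mul]
    refine (sum_le_sum this).trans (le_of_eq ?_)
    rw [sum_const, nsmul_eq_mul]; ring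
  set B : Finset Ω := univ.filter fun ω => ¬ ∀ i ∈ s, ¬ A i ω with hB
  have e3 : ∑ ω, U ω = ∑ ω ∈ B, U ω := by
    symm
    apply sum_subset (subset_univ _)
    intro ω _ hω
    simp only [hB, mem_filter, mem_univ, true_and, not_not] at hω
    simp only [hU]
    rw [filter_eq_empty_iff.2 hω]; simp
  have e4 : (∑ ω ∈ B, U ω) ^ 2 ≤ B.card * ∑ ω, U ω ^ 2 :=
    sq_sum_le_card_mul_sum_sq.trans (mul_le_mul_of_nonneg_left
      (sum_le_sum_of_subset_of_nonneg (subset_univ _) fun _ _ _ => by positivity) (by positivity))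
  have e5 : pr (fun ω => ¬ ∀ i ∈ s, ¬ A i ω) = B.card / Fintype.card Ω := by
    rw [← pr_eq]
  have e6 := pr_compl (fun ω => ∀ i ∈ s, ¬ A i ω)
  rw [e5] at e6
  set q : ℝ := B.card / Fintype.card Ω with hq
  have hBq : (B.card : ℝ) = q * Fintype.card Ω := by rw [hq]; field_simp
  have hq0 : 0 ≤ q := by positivity
  have hq1 : q ≤ 1 := by linarith [pr_nonneg (fun ω => ∀ i ∈ s, ¬ A i ω)]
  set μ : ℝ := s.card * π with hμ
  have hμ0 : 0 < μ := by positivity
  have e7 : (μ * Fintype.card Ω) ^ 2 ≤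
      q * Fintype.card Ω * ((μ + μ ^ 2 * ρ) * Fintype.card Ω) := by
    rw [← e3, e1, hBq] at e4
    refine e4.trans (mul_le_mul_of_nonneg_left (e2.trans (le_of_eq ?_)) (by positivity))
    rw [hμ]; ring
  have e8 : μ ^ 2 ≤ q * (μ + μ ^ 2 * ρ) := by
    have : (μ ^ 2) * (Fintype.card Ω : ℝ) ^ 2 ≤ (q * (μ + μ ^ 2 * ρ)) * (Fintype.card Ω : ℝ) ^ 2 := by
      nlinarith
    exact le_of_mul_le_mul_right this (by positivity)
  have e9 : 1 ≤ q * (1 / μ + ρ) := by
    have : μ ^ 2 * 1 ≤ μ ^ 2 * (q * (1 / μ + ρ)) := by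
      refine le_trans (by linarith) (e8.trans (le_of_eq ?_))
      field_simp
    exact le_of_mul_le_mul_left this (by positivity)
  have e10 : 0 ≤ 1 / μ + (ρ - 1) := by
    have : 0 < 1 / μ := by positivity
    linarith
  nlinarith

end Pool.Agent.H220Z.Frac
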