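import Pool.Agent.H220Z.Frac.Band

/-! Minimal heavy sets: the structure of a certificate. -/

set_option autoImplicit false
open Finset
open scoped Classical

namespace Pool.Agent.H220Z.Frac

variable {n : ℕ}

def heavy (r : ℕ) (γ : ℕ → ℝ) (F : Finset (Finset (Fin n))) (S : Finset (Fin n)) : Prop :=
  γ S.card * (n : ℝ) ^ (r - S.card) ≤ ((F.filter fun f => S ⊆ f).card : ℝ)

noncomputable def SS (r : ℕ) (γ : ℕ → ℝ) (F : Finset (Finset (Fin n))) (j : ℕ) :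
    Finset (Finset (Fin n)) :=
  (PS n j).filter fun S => heavy r γ F S ∧ ∀ s ∈ S, ¬ heavy r γ F (S.erase s)

noncomputable def XS (r : ℕ) (F : Finset (Finset (Fin n))) (S : Finset (Fin n)) :
    Finset (Finset (Fin n)) :=
  (up (r + 1) S).filter fun e => ∃ f ∈ F, f ⊆ e ∧ ¬ S ⊆ f

noncomputable def MM (r : ℕ) (γ : ℕ → ℝ) (F : Finset (Finset (Fin n))) (j : ℕ) :
    Finset (Finset (Fin n)) :=
  (SS r γ F j).biUnion (XS r F)

noncomputable def QQ (r : ℕ) (θ : ℤ) (S : Finset (Fin n)) (h : Finset (Fin n) → ℤ) :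
    Finset (Finset (Fin n)) :=
  (up (r + 1) S).filter fun e => ∑ f ∈ (e.powersetCard r).filter (fun f => S ⊆ f), h f < -θ

lemma MM_subset (r : ℕ) (γ : ℕ → ℝ) (F : Finset (Finset (Fin n))) (j : ℕ) :
    MM r γ F j ⊆ PS n (r + 1) := by
  intro e he
  obtain ⟨S, _, h⟩ := mem_biUnion.1 he
  exact up_subset _ _ (mem_filter.1 h).1

lemma QQ_subset (r : ℕ) (θ : ℤ) (S : Finset (Fin n)) (h : Finset (Fin n) → ℤ) :
    QQ r θ S h ⊆ PS n (r + 1) := (filter_subset _ _).trans (up_subset _ _)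

lemma sum_card_sup_le (k j : ℕ) (G : Finset (Finset (Fin n))) (hG : G ⊆ PS n k) :
    ∑ S ∈ PS n j, ((G.filter fun f => S ⊆ f).card : ℝ) ≤ 2 ^ k * G.card := by
  simp only [card_filter, Nat.cast_sum]
  rw [sum_comm, mul_comm, ← nsmul_eq_mul]
  refine sum_le_card_nsmul _ _ _ fun e he => ?_
  have : ((PS n j).filter fun S => S ⊆ e) ⊆ e.powerset := fun S hS =>
    mem_powerset.2 (mem_filter.1 hS).2
  have h2 := card_le_card this
  rw [card_powerset, mem_PS.1 (hG he), card_filter] at h2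
  exact_mod_cast h2

lemma card_SS (r : ℕ) (γ : ℕ → ℝ) (F : Finset (Finset (Fin n))) (hF : F ⊆ PS n r) (j : ℕ) :
    ((SS r γ F j).card : ℝ) * (γ j * (n : ℝ) ^ (r - j)) ≤ 2 ^ r * F.card := by
  refine le_trans ?_ (sum_card_sup_le r j F hF)
  rw [← nsmul_eq_mul]
  have hsub : SS r γ F j ⊆ PS n j := filter_subset _ _
  refine le_trans (card_nsmul_le_sum (SS r γ F j) (fun S => ((F.filter fun f => S ⊆ f).card : ℝ)) _
    fun S hS => ?_)
    (sum_le_sum_of_subset_of_nonneg hsub fun _ _ _ => by positivity)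
  obtain ⟨h1, h2, _⟩ := mem_filter.1 hS
  unfold heavy at h2
  rwa [mem_PS.1 h1] at h2

lemma eq_insert_of {r : ℕ} {e f : Finset (Fin n)} {s : Fin n} (he : e.card = r + 1)
    (hf : f.card = r) (hfe : f ⊆ e) (hs : s ∈ e) (hsf : s ∉ f) : insert s f = e :=
  eq_of_subset_of_card_le (insert_subset hs hfe) (by rw [card_insert_of_notMem hsf, he, hf])

lemma card_XS (r : ℕ) (γ : ℕ → ℝ) (F : Finset (Finset (Fin n))) (hF : F ⊆ PS n r) (j : ℕ)
    (S : Finset (Fin n)) (hS : S ∈ SS r γ F (j + 1)) :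
    ((XS r F S).card : ℝ) ≤ (j + 1) * (γ j * (n : ℝ) ^ (r - j)) := by
  obtain ⟨h1, _, h3⟩ := mem_filter.1 hS
  have hc := mem_PS.1 h1
  have hsub : XS r F S ⊆ S.biUnion fun s => (F.filter fun f => S.erase s ⊆ f).image (insert s) := by
    intro e he
    obtain ⟨he1, f, hf, hfe, hSf⟩ := mem_filter.1 he
    obtain ⟨he2, he3⟩ := mem_up.1 he1
    obtain ⟨s, hs, hsf⟩ := not_subset.1 hSf
    have := eq_insert_of he2 (mem_PS.1 (hF hf)) hfe (he3 hs) hsf
    refine mem_biUnion.2 ⟨s, hs, mem_image.2 ⟨f, mem_filter.2 ⟨hf, fun x hx => ?_⟩, this⟩⟩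
    have hx' : x ∈ insert s f := this ▸ he3 (mem_of_mem_erase hx)
    exact (mem_insert.1 hx').resolve_left (mem_erase.1 hx).1
  have h4 : ((XS r F S).card : ℝ) ≤ ∑ s ∈ S, ((F.filter fun f => S.erase s ⊆ f).card : ℝ) := by
    have := (card_le_card hsub).trans (card_biUnion_le.trans (sum_le_sum fun s _ => card_image_le))
    exact_mod_cast this
  refine h4.trans ?_
  have h5 := sum_le_card_nsmul S (fun s => ((F.filter fun f => S.erase s ⊆ f).card : ℝ))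
    (γ j * (n : ℝ) ^ (r - j)) fun s hs => by
      have := h3 s hs
      unfold heavy at this
      rw [card_erase_of_mem hs, hc, add_tsub_cancel_right] at this
      exact (not_le.1 this).le
  rw [hc, nsmul_eq_mul] at h5
  push_cast at h5
  exact h5

lemma XS_empty (r : ℕ) (F : Finset (Finset (Fin n))) : XS r F ∅ = ∅ :=
  filter_eq_empty_iff.2 fun _ _ ⟨_, _, _, h⟩ => h (empty_subset _)

lemma card_MM (r : ℕ) (γ : ℕ → ℝ) (hγ : ∀ j, 0 < γ j) (F : Finset (Finset (Fin n)))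
    (hF : F ⊆ PS n r) (j : ℕ) (hj : j + 1 ≤ r) :
    γ (j + 1) * (MM r γ F (j + 1)).card ≤ 2 ^ r * (r + 1) * γ j * F.card * n := by
  have h1 : ((MM r γ F (j + 1)).card : ℝ) ≤
      (SS r γ F (j + 1)).card * ((j + 1) * (γ j * (n : ℝ) ^ (r - j))) := by
    have : ((MM r γ F (j + 1)).card : ℝ) ≤ ∑ S ∈ SS r γ F (j + 1), ((XS r F S).card : ℝ) := by
      exact_mod_cast card_biUnion_le
    refine this.trans ?_
    rw [← nsmul_eq_mul]
    exact sum_le_card_nsmul _ _ _ fun S hS => card_XS r γ F hF j S hS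
  have h2 := card_SS r γ F hF (j + 1)
  have e : (n : ℝ) ^ (r - j) = (n : ℝ) ^ (r - (j + 1)) * n := by
    rw [← pow_succ]; congr 1; omega
  have hj' : (j : ℝ) + 1 ≤ r + 1 := by
    have : (j : ℝ) ≤ r := by exact_mod_cast (by omega : j ≤ r)
    linarith
  have g1 := hγ j
  have g2 := hγ (j + 1)
  calc γ (j + 1) * (MM r γ F (j + 1)).card
      ≤ γ (j + 1) * ((SS r γ F (j + 1)).card * ((j + 1) * (γ j * (n : ℝ) ^ (r - j)))) :=
        mul_le_mul_of_nonneg_left h1 g2.le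
    _ = ((SS r γ F (j + 1)).card * (γ (j + 1) * (n : ℝ) ^ (r - (j + 1)))) * ((j + 1) * γ j * n) := by
        rw [e]; ring
    _ ≤ (2 ^ r * F.card) * ((r + 1) * γ j * n) := by gcongr
    _ = _ := by ring

lemma sum_link_eq {r : ℕ} {w : Finset (Fin n) → ℤ} {F : Finset (Finset (Fin n))}
    (hwF : ∀ f ∈ PS n r, w f ≠ 0 → f ∈ F) {S e : Finset (Fin n)} (he : e ∈ up (r + 1) S)
    (hX : e ∉ XS r F S) :
    ∑ f ∈ (e.powersetCard r).filter (fun f => S ⊆ f), w f = bd r w e := by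
  unfold bd
  refine sum_subset (filter_subset _ _) fun f hf hf' => ?_
  by_contra hne
  obtain ⟨h1, h2⟩ := mem_powersetCard.1 hf
  exact hX (mem_filter.2 ⟨he, f, hwF f (mem_PS.2 h2) hne, h1,
    fun h => hf' (mem_filter.2 ⟨hf, h⟩)⟩)

lemma good_top {r : ℕ} {θ : ℤ} {w : Finset (Fin n) → ℤ} {F R G : Finset (Finset (Fin n))}
    (hwF : ∀ f ∈ PS n r, w f ≠ 0 → f ∈ F) (hG' : G ⊆ PS n (r + 1))
    (hG : ∀ e ∈ G, (∀ f ∈ R, ¬ f ⊆ e) → -θ ≤ bd r w e) {S : Finset (Fin n)} (hS : S.card = r)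
    {e0 : Finset (Fin n)} (h0 : e0 ∈ up (r + 1) S) (h1 : e0 ∉ XS r F S) (h2 : bd r w e0 < -θ) :
    (G.filter fun e => S ⊆ e ∧ ∀ g ∈ R, ¬ g ⊆ e) ⊆ XS r F S ∩ G := by
  have key : ∀ e ∈ up (r + 1) S, e ∉ XS r F S → bd r w e = w S := by
    intro e he hX
    rw [← sum_link_eq hwF he hX]
    have : ((e.powersetCard r).filter fun f => S ⊆ f) = {S} := by
      ext f
      rw [mem_filter, mem_powersetCard, mem_singleton]
      constructor
      · rintro ⟨⟨_, h4⟩, h5⟩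
        exact (eq_of_subset_of_card_le h5 (by rw [h4, hS])).symm
      · rintro rfl
        exact ⟨⟨(mem_up.1 he).2, hS⟩, Subset.refl _⟩
    rw [this, sum_singleton]
  intro e he
  obtain ⟨he1, he2, he3⟩ := mem_filter.1 he
  refine mem_inter.2 ⟨?_, he1⟩
  by_contra hX
  have h3 := hG e he1 he3
  rw [key e (mem_up.2 ⟨mem_PS.1 (hG' he1), he2⟩) hX, ← key e0 h0 h1] at h3
  omega

lemma low_sub1 {r : ℕ} {θ : ℤ} {w : Finset (Fin n) → ℤ} {F R : Finset (Finset (Fin n))}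
    (hwF : ∀ f ∈ PS n r, w f ≠ 0 → f ∈ F) (S : Finset (Fin n)) (V : ℤ) :
    (((PS n (r + 1)).filter fun e => bd r w e < -θ).filter fun e => S ⊆ e) ⊆
      QQ r θ S (fun f => if f ∈ R then V else w f) ∪ (XS r F S ∪ R.biUnion (up (r + 1))) := by
  intro e he
  obtain ⟨he1, he2⟩ := mem_filter.1 he
  obtain ⟨he3, he4⟩ := mem_filter.1 he1
  have hu : e ∈ up (r + 1) S := mem_up.2 ⟨mem_PS.1 he3, he2⟩
  by_cases hX : e ∈ XS r F S
  · exact mem_union_right _ (mem_union_left _ hX)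
  by_cases hR : e ∈ R.biUnion (up (r + 1))
  · exact mem_union_right _ (mem_union_right _ hR)
  refine mem_union_left _ (mem_filter.2 ⟨hu, ?_⟩)
  rw [← sum_link_eq hwF hu hX] at he4
  refine lt_of_eq_of_lt (sum_congr rfl fun f hf => if_neg fun hfR => hR ?_) he4
  exact mem_biUnion.2 ⟨f, hfR, mem_up.2 ⟨mem_PS.1 he3,
    (mem_powersetCard.1 (mem_filter.1 hf).1).1⟩⟩

lemma low_sub2 {r W : ℕ} {θ : ℤ} (hθ : 0 ≤ θ) {w : Finset (Fin n) → ℤ}
    {F R G : Finset (Finset (Fin n))} (hw : ∀ f, |w f| ≤ W)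
    (hwF : ∀ f ∈ PS n r, w f ≠ 0 → f ∈ F) (hR : R ⊆ PS n r)
    (hG : ∀ e ∈ G, (∀ f ∈ R, ¬ f ⊆ e) → -θ ≤ bd r w e) (S : Finset (Fin n)) :
    QQ r θ S (fun f => if f ∈ R then ((r + 1) * W : ℕ) else w f) ∩ G ⊆
      (XS r F S ∩ G) ∪ R.image (· ∪ S) := by
  intro e he
  obtain ⟨he1, he2⟩ := mem_inter.1 he
  obtain ⟨hu, hs⟩ := mem_filter.1 he1
  obtain ⟨hc, hSe⟩ := mem_up.1 hu
  by_cases hX : e ∈ XS r F S
  · exact mem_union_left _ (mem_inter.2 ⟨hX, he2⟩)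
  refine mem_union_right _ ?_
  set T := (e.powersetCard r).filter fun f => S ⊆ f with hT
  have hTR : ∀ g ∈ T, g ∉ R := by
    intro g hg hgR
    rw [← add_sum_erase _ _ hg, if_pos hgR] at hs
    have h1 : (T.erase g).card • (-(W : ℤ)) ≤
        ∑ f ∈ T.erase g, if f ∈ R then (((r + 1) * W : ℕ) : ℤ) else w f := by
      refine card_nsmul_le_sum _ _ _ fun f _ => ?_
      split_ifs
      · have : (0 : ℤ) ≤ (((r + 1) * W : ℕ) : ℤ) := by positivity
        omega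
      · exact (abs_le.1 (hw f)).1
    have h2 : (T.erase g).card ≤ r + 1 := by
      refine (card_le_card ((erase_subset _ _).trans (filter_subset _ _))).trans ?_
      rw [card_powersetCard, hc, Nat.choose_succ_self_right]
    rw [nsmul_eq_mul] at h1
    have h3 : ((T.erase g).card : ℤ) ≤ r + 1 := by exact_mod_cast h2
    push_cast at hs h1
    have h4 : (0 : ℤ) ≤ W := by positivity
    nlinarith
  rw [sum_congr rfl fun f hf => if_neg (hTR f hf), hT, sum_link_eq hwF hu hX] at hs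
  have h5 : ¬ ∀ f ∈ R, ¬ f ⊆ e := fun h => absurd (hG e he2 h) (not_le.2 hs)
  push Not at h5
  obtain ⟨g, hgR, hge⟩ := h5
  have hgc := mem_PS.1 (hR hgR)
  have h6 : ¬ S ⊆ g := fun h =>
    hTR g (mem_filter.2 ⟨mem_powersetCard.2 ⟨hge, hgc⟩, h⟩) hgR
  obtain ⟨s, hs1, hs2⟩ := not_subset.1 h6
  refine mem_image.2 ⟨g, hgR, Subset.antisymm (union_subset hge hSe) ?_⟩
  rw [← eq_insert_of hc hgc hge (hSe hs1) hs2]
  exact insert_subset (mem_union_right _ hs1) subset_union_left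

lemma exists_SS {r : ℕ} {γ : ℕ → ℝ} (hγr : γ r = 1) {F : Finset (Finset (Fin n))}
    (hF : F ⊆ PS n r) {f : Finset (Fin n)} (hf : f ∈ F) :
    ∃ j ∈ range (r + 1), ∃ S ∈ SS r γ F j, S ⊆ f := by
  have hfc := mem_PS.1 (hF hf)
  have hh : heavy r γ F f := by
    unfold heavy
    rw [hfc, hγr, Nat.sub_self, pow_zero, one_mul]
    have : 0 < (F.filter fun g => f ⊆ g).card :=
      card_pos.2 ⟨f, mem_filter.2 ⟨hf, Subset.refl _⟩⟩
    exact_mod_cast this
  obtain ⟨S, hS, hmin⟩ := exists_min_image (f.powerset.filter (heavy r γ F)) card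
    ⟨f, mem_filter.2 ⟨mem_powerset_self _, hh⟩⟩
  obtain ⟨h1, h2⟩ := mem_filter.1 hS
  rw [mem_powerset] at h1
  refine ⟨S.card, mem_range.2 (Nat.lt_succ_of_le (hfc ▸ card_le_card h1)), S,
    mem_filter.2 ⟨mem_PS.2 rfl, h2, fun s hs h3 => ?_⟩, h1⟩
  have := hmin _ (mem_filter.2 ⟨mem_powerset.2 ((erase_subset s S).trans h1), h3⟩)
  exact absurd (card_erase_lt_of_mem hs) (not_lt.2 this)

lemma good_bound {r W : ℕ} {θ : ℤ} (hθ : 0 ≤ θ) {γ : ℕ → ℝ} (hγ : ∀ j, 0 < γ j) (hγr : γ r = 1)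
    {α κ ℓ : ℝ} (hα : 0 < α) (hκ : 0 < κ) (hℓ : 1 ≤ ℓ) (hn : 1 ≤ n)
    (hγ1 : ∀ j < r, (r + 1) * γ j ≤ α * γ (j + 1))
    {w : Finset (Fin n) → ℤ} {F R G : Finset (Finset (Fin n))} (hF : F ⊆ PS n r)
    (hw : ∀ f, |w f| ≤ W) (hwF : ∀ f ∈ PS n r, w f ≠ 0 → f ∈ F) (hFR : ∀ f ∈ F, f ∉ R)
    (hR : R ⊆ PS n r) (hG' : G ⊆ PS n (r + 1))
    (hG : ∀ e ∈ G, (∀ f ∈ R, ¬ f ⊆ e) → -θ ≤ bd r w e)
    (hP : ∀ j < r, ∀ S ∈ PS n j, ∀ h : Finset (Fin n) → ℤ, (∀ f, |h f| ≤ ((r + 1) * W : ℕ)) →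
      α * γ j * (n : ℝ) ^ (r + 1 - j) ≤ (QQ r θ S h).card →
      2 * κ * γ j * (n : ℝ) ^ (r - j) * ℓ ≤ (QQ r θ S h ∩ G).card)
    (hD : ∀ f ∈ PS n r, f ∉ R → κ * ℓ ≤ (G.filter fun e => f ⊆ e ∧ ∀ g ∈ R, ¬ g ⊆ e).card)
    (hRc : ∀ j < r, (R.card : ℝ) ≤ α * γ j * n ∧ (R.card : ℝ) ≤ κ * γ j * n)
    {j : ℕ} (hj : j ≤ r) {S : Finset (Fin n)} (hS : S ∈ SS r γ F j)
    (hgood : 3 * α * γ j * (n : ℝ) ^ (r + 1 - j) ≤
      (((PS n (r + 1)).filter fun e => bd r w e < -θ).filter fun e => S ⊆ e).card) :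
    κ * γ j * (n : ℝ) ^ (r - j) * ℓ ≤ (XS r F S ∩ G).card := by
  have hn' : (1 : ℝ) ≤ n := by exact_mod_cast hn
  have hSc : S.card = j := mem_PS.1 (mem_filter.1 hS).1
  have g0 := hγ j
  have hpos : 0 < α * γ j * (n : ℝ) ^ (r + 1 - j) := by positivity
  have hX : ((XS r F S).card : ℝ) ≤ α * γ j * (n : ℝ) ^ (r + 1 - j) := by
    rcases j with _ | j
    · rw [card_eq_zero.1 hSc, XS_empty, card_empty, Nat.cast_zero]; exact hpos.le
    · refine (card_XS r γ F hF j S hS).trans ?_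
      have h1 := hγ1 j (by omega)
      have h2 : (j : ℝ) + 1 ≤ r + 1 := by
        have : (j : ℝ) ≤ r := by exact_mod_cast (by omega : j ≤ r)
        linarith
      have g1 := hγ j
      rw [show r + 1 - (j + 1) = r - j by omega, ← mul_assoc]
      refine mul_le_mul_of_nonneg_right (le_trans ?_ h1) (by positivity)
      exact mul_le_mul_of_nonneg_right h2 g1.le
  set Q := ((PS n (r + 1)).filter fun e => bd r w e < -θ).filter fun e => S ⊆ e with hQ
  rcases hj.lt_or_eq with hj | hj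
  · set h : Finset (Fin n) → ℤ := fun f => if f ∈ R then ((r + 1) * W : ℕ) else w f with hh
    have h1 := card_le_card (low_sub1 (θ := θ) (R := R) hwF S ((r + 1) * W : ℕ))
    have h2 : (R.biUnion (up (r + 1))).card ≤ R.card * n := by
      refine card_biUnion_le.trans ?_
      rw [← smul_eq_mul]
      exact sum_le_card_nsmul _ _ _ fun f hf => by rw [card_star (mem_PS.1 (hR hf))]; omega
    have h3 : Q.card ≤ (QQ r θ S h).card + ((XS r F S).card + R.card * n) :=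
      h1.trans ((card_union_le _ _).trans (Nat.add_le_add_left
        ((card_union_le _ _).trans (Nat.add_le_add_left h2 _)) _))
    have h3' : (Q.card : ℝ) ≤ (QQ r θ S h).card + ((XS r F S).card + R.card * n) := by
      exact_mod_cast h3
    obtain ⟨h4, h5⟩ := hRc j hj
    have h6 : (n : ℝ) * n ≤ (n : ℝ) ^ (r + 1 - j) := by
      rw [← sq]; exact pow_le_pow_right₀ hn' (by omega)
    have h7 : (R.card : ℝ) * n ≤ α * γ j * (n : ℝ) ^ (r + 1 - j) := by
      calc (R.card : ℝ) * n ≤ α * γ j * n * n := by gcongr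
        _ = α * γ j * (n * n) := by ring
        _ ≤ _ := by gcongr
    have h8 := hP j hj S (mem_PS.2 hSc) h (fun f => by
      simp only [hh]
      split_ifs
      · rw [abs_of_nonneg (by positivity)]
      · refine (hw f).trans ?_
        push_cast
        have : (0 : ℤ) ≤ W := by positivity
        have : (0 : ℤ) ≤ r := by positivity
        nlinarith) (by linarith)
    have h9 := (card_le_card (low_sub2 hθ hw hwF hR hG S)).trans
      ((card_union_le _ _).trans (Nat.add_le_add_left card_image_le _))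
    have h9' : ((QQ r θ S h ∩ G).card : ℝ) ≤ (XS r F S ∩ G).card + R.card := by
      exact_mod_cast h9
    have h10 : (n : ℝ) ≤ (n : ℝ) ^ (r - j) * ℓ := by
      have : (n : ℝ) ≤ (n : ℝ) ^ (r - j) := le_self_pow₀ hn' (by omega)
      nlinarith
    have h11 : κ * γ j * n ≤ κ * γ j * ((n : ℝ) ^ (r - j) * ℓ) := by gcongr
    nlinarith
  · subst hj
    have h1 : ¬ Q ⊆ XS j F S := by
      intro h
      have : (Q.card : ℝ) ≤ (XS j F S).card := by exact_mod_cast card_le_card h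
      linarith
    obtain ⟨e0, he0, he1⟩ := not_subset.1 h1
    obtain ⟨h2, h3⟩ := mem_filter.1 he0
    obtain ⟨h4, h5⟩ := mem_filter.1 h2
    have h6 := card_le_card (good_top hwF hG' hG hSc (mem_up.2 ⟨mem_PS.1 h4, h3⟩) he1 h5)
    have hSF : S ∈ F := by
      have h7 := (mem_filter.1 hS).2.1
      unfold heavy at h7
      rw [hSc, hγr, Nat.sub_self, pow_zero, one_mul] at h7
      have h8 : 0 < (F.filter fun f => S ⊆ f).card := by exact_mod_cast h7
      obtain ⟨f, hf⟩ := card_pos.1 h8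
      obtain ⟨h9, h10⟩ := mem_filter.1 hf
      rwa [eq_of_subset_of_card_le h10 (by rw [hSc, mem_PS.1 (hF h9)])]
    have h7 := hD S (mem_PS.2 hSc) (hFR S hSF)
    rw [hγr, Nat.sub_self, pow_zero, mul_one, mul_one]
    refine h7.trans ?_
    exact_mod_cast h6

/-- the structural lemma -/
lemma structure_lemma {r W : ℕ} {θ : ℤ} (hθ : 0 ≤ θ) {γ : ℕ → ℝ} (hγ : ∀ j, 0 < γ j)
    (hγr : γ r = 1) {c α κ ℓ : ℝ} (hc : 0 < c) (hα : α = c / (6 * (r + 1) * 2 ^ r)) (hκ : 0 < κ)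
    (hℓ : 1 ≤ ℓ) (hn : 1 ≤ n) (hγ1 : ∀ j < r, (r + 1) * γ j ≤ α * γ (j + 1))
    {w : Finset (Fin n) → ℤ} {F R G : Finset (Finset (Fin n))} (hF : F ⊆ PS n r)
    (hFne : F.Nonempty)
    (hw : ∀ f, |w f| ≤ W) (hwF : ∀ f ∈ PS n r, w f ≠ 0 → f ∈ F) (hFR : ∀ f ∈ F, f ∉ R)
    (hR : R ⊆ PS n r) (hG' : G ⊆ PS n (r + 1))
    (hG : ∀ e ∈ G, (∀ f ∈ R, ¬ f ⊆ e) → -θ ≤ bd r w e)
    (hP : ∀ j < r, ∀ S ∈ PS n j, ∀ h : Finset (Fin n) → ℤ, (∀ f, |h f| ≤ ((r + 1) * W : ℕ)) →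
      α * γ j * (n : ℝ) ^ (r + 1 - j) ≤ (QQ r θ S h).card →
      2 * κ * γ j * (n : ℝ) ^ (r - j) * ℓ ≤ (QQ r θ S h ∩ G).card)
    (hD : ∀ f ∈ PS n r, f ∉ R → κ * ℓ ≤ (G.filter fun e => f ⊆ e ∧ ∀ g ∈ R, ¬ g ⊆ e).card)
    (hRc : ∀ j < r, (R.card : ℝ) ≤ α * γ j * n ∧ (R.card : ℝ) ≤ κ * γ j * n)
    (hQ : c * F.card * n ≤ ((PS n (r + 1)).filter fun e => bd r w e < -θ).card) :
    ∃ j < r, κ * c / (2 * (r + 1) * 2 ^ (r + 1)) * γ (j + 1) * F.card * ℓ ≤
      (MM r γ F (j + 1) ∩ G).card := by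
  have hn' : (1 : ℝ) ≤ n := by exact_mod_cast hn
  have hα0 : 0 < α := by rw [hα]; positivity
  have hm : (0 : ℝ) < F.card := by exact_mod_cast hFne.card_pos
  set Q := (PS n (r + 1)).filter fun e => bd r w e < -θ with hQd
  have h1 : Q ⊆ (range (r + 1)).biUnion fun j => (SS r γ F j).biUnion fun S =>
      Q.filter fun e => S ⊆ e := by
    intro e he
    have h2 := (mem_filter.1 he).2
    have h3 : ∃ f ∈ e.powersetCard r, w f ≠ 0 := by
      by_contra hcon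
      push Not at hcon
      rw [bd, sum_eq_zero hcon] at h2
      omega
    obtain ⟨f, hf, hf'⟩ := h3
    obtain ⟨h4, h5⟩ := mem_powersetCard.1 hf
    obtain ⟨j, hj, S, hS, hSf⟩ := exists_SS hγr hF (hwF f (mem_PS.2 h5) hf')
    exact mem_biUnion.2 ⟨j, hj, mem_biUnion.2 ⟨S, hS, mem_filter.2 ⟨he, hSf.trans h4⟩⟩⟩
  have h2 : (Q.card : ℝ) ≤ ∑ j ∈ range (r + 1), ∑ S ∈ SS r γ F j,
      ((Q.filter fun e => S ⊆ e).card : ℝ) := by
    have := (card_le_card h1).trans (card_biUnion_le.trans (sum_le_sum fun j _ => card_biUnion_le))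
    exact_mod_cast this
  have h3 : ∑ _j ∈ range (r + 1), c * F.card * n / (r + 1) ≤ ∑ j ∈ range (r + 1),
      ∑ S ∈ SS r γ F j, ((Q.filter fun e => S ⊆ e).card : ℝ) := by
    refine le_trans (le_of_eq ?_) (hQ.trans h2)
    rw [sum_const, card_range, nsmul_eq_mul]; push_cast; field_simp
  obtain ⟨j, hj, h4⟩ := exists_le_of_sum_le ⟨0, by simp⟩ h3
  have hjr : j ≤ r := Nat.lt_succ_iff.1 (mem_range.1 hj)
  have g0 := hγ j
  set Gd := (SS r γ F j).filter fun S => 3 * α * γ j * (n : ℝ) ^ (r + 1 - j) ≤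
      ((Q.filter fun e => S ⊆ e).card : ℝ) with hGd
  have e1 : (n : ℝ) ^ (r + 1 - j) = (n : ℝ) ^ (r - j) * n := by
    rw [← pow_succ]; congr 1; omega
  have h5 : ∑ S ∈ SS r γ F j, ((Q.filter fun e => S ⊆ e).card : ℝ) ≤
      Gd.card * (n : ℝ) ^ (r + 1 - j) + (SS r γ F j).card * (3 * α * γ j * (n : ℝ) ^ (r + 1 - j)) := by
    rw [hGd, card_filter, Nat.cast_sum, sum_mul, ← nsmul_eq_mul, ← sum_const, ← sum_add_distrib]
    refine sum_le_sum fun S hS => ?_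
    have hp : 0 ≤ 3 * α * γ j * (n : ℝ) ^ (r + 1 - j) := by positivity
    split_ifs with h
    · have hSc : S.card = j := mem_PS.1 (mem_filter.1 hS).1
      have h6 : ((Q.filter fun e => S ⊆ e).card : ℝ) ≤ (up (r + 1) S).card := by
        exact_mod_cast card_le_card (filter_subset_filter _ (filter_subset _ _))
      have h7 := card_up_le (j := r + 1) (S := S) (by omega)
      rw [hSc] at h7
      simp only [Nat.cast_one, one_mul]; linarith
    · simp only [Nat.cast_zero, zero_mul, zero_add]; exact (not_le.1 h).le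
  have h6 := card_SS r γ F hF j
  have h7 : c * F.card / (2 * (r + 1)) ≤ Gd.card * (n : ℝ) ^ (r - j) := by
    have h8 : ((SS r γ F j).card : ℝ) * (3 * α * γ j * (n : ℝ) ^ (r + 1 - j)) ≤
        c * F.card / (2 * (r + 1)) * n := by
      calc _ = 3 * α * n * ((SS r γ F j).card * (γ j * (n : ℝ) ^ (r - j))) := by rw [e1]; ring
        _ ≤ 3 * α * n * (2 ^ r * F.card) := by gcongr
        _ = _ := by rw [hα]; field_simp; ring
    have h9 : c * F.card * n / (r + 1) = 2 * (c * F.card / (2 * (r + 1)) * n) := by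
      field_simp
    have h10 : c * F.card / (2 * (r + 1)) * n ≤ Gd.card * (n : ℝ) ^ (r - j) * n := by
      rw [e1] at h5; rw [e1] at h8; nlinarith
    exact le_of_mul_le_mul_right h10 (by linarith)
  have h8 : Gd.card • (κ * γ j * (n : ℝ) ^ (r - j) * ℓ) ≤
      ∑ S ∈ Gd, (((MM r γ F j ∩ G).filter fun e => S ⊆ e).card : ℝ) := by
    refine card_nsmul_le_sum _ _ _ fun S hS => ?_
    obtain ⟨h9, h10⟩ := mem_filter.1 hS
    refine (good_bound hθ hγ hγr hα0 hκ hℓ hn hγ1 hF hw hwF hFR hR hG' hG hP hD hRc hjr h9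
      h10).trans ?_
    have : XS r F S ∩ G ⊆ (MM r γ F j ∩ G).filter fun e => S ⊆ e := by
      intro e he
      obtain ⟨h11, h12⟩ := mem_inter.1 he
      exact mem_filter.2 ⟨mem_inter.2 ⟨mem_biUnion.2 ⟨S, h9, h11⟩, h12⟩,
        (mem_up.1 (mem_filter.1 h11).1).2⟩
    exact_mod_cast card_le_card this
  have hsub : Gd ⊆ PS n j := (filter_subset _ _).trans (filter_subset _ _)
  have h9 := (h8.trans (sum_le_sum_of_subset_of_nonneg hsub fun _ _ _ => by positivity)).trans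
    (sum_card_sup_le (r + 1) j (MM r γ F j ∩ G) (inter_subset_right.trans hG'))
  rw [nsmul_eq_mul] at h9
  have h10 : κ * c / (2 * (r + 1) * 2 ^ (r + 1)) * γ j * F.card * ℓ ≤ (MM r γ F j ∩ G).card := by
    have hℓ0 : 0 < ℓ := by linarith
    have h11 : κ * γ j * ℓ * (c * F.card / (2 * (r + 1))) ≤
        κ * γ j * ℓ * (Gd.card * (n : ℝ) ^ (r - j)) := by gcongr
    have h12 : (2 : ℝ) ^ (r + 1) * (κ * c / (2 * (r + 1) * 2 ^ (r + 1)) * γ j * F.card * ℓ) =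
        κ * γ j * ℓ * (c * F.card / (2 * (r + 1))) := by field_simp
    apply le_of_mul_le_mul_left _ (by positivity : (0 : ℝ) < 2 ^ (r + 1))
    rw [h12]; nlinarith
  rcases j with _ | j
  · exfalso
    have : MM r γ F 0 = ∅ := by
      rw [MM, eq_empty_iff_forall_notMem]
      intro e he
      obtain ⟨S, hS, h⟩ := mem_biUnion.1 he
      rw [card_eq_zero.1 (mem_PS.1 (mem_filter.1 hS).1), XS_empty] at h
      exact notMem_empty _ h
    rw [this, empty_inter, card_empty, Nat.cast_zero] at h10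
    have : 0 < κ * c / (2 * (r + 1) * 2 ^ (r + 1)) * γ 0 * F.card * ℓ := by positivity
    linarith
  · exact ⟨j, by omega, h10⟩

end Pool.Agent.H220Z.Frac
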