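import Pool.Agent.H220Z.Frac.Perm

/-! The hypergraph process: tail bounds. -/

set_option autoImplicit false
open Finset
open scoped Classical

namespace Pool.Agent.H220Z.Frac

/-- all `j`-subsets of `Fin n` -/
def PS (n j : ℕ) : Finset (Finset (Fin n)) := (univ : Finset (Fin n)).powersetCard j

lemma mem_PS {n j : ℕ} {s : Finset (Fin n)} : s ∈ PS n j ↔ s.card = j := by
  simp [PS]

lemma card_PS (n j : ℕ) : (PS n j).card = n.choose j := by
  simp [PS]

/-- orderings of the `k`-subsets -/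
abbrev Ordg (n k : ℕ) := Fin (n.choose k) ≃ {s : Finset (Fin n) // s.card = k}

/-- the hypergraph formed by the first `m` edges -/
noncomputable def HH {n k : ℕ} (σ : Ordg n k) (m : ℕ) : Finset (Finset (Fin n)) :=
  (PS n k).filter fun e => ∃ h : e.card = k, pos σ ⟨e, h⟩ < m

lemma mem_HH {n k : ℕ} {σ : Ordg n k} {m : ℕ} {e : Finset (Fin n)} :
    e ∈ HH σ m ↔ ∃ h : e.card = k, pos σ ⟨e, h⟩ < m := by
  unfold HH
  rw [mem_filter, mem_PS]
  exact ⟨fun h => h.2, fun h => ⟨h.1, h⟩⟩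

lemma HH_subset {n k : ℕ} (σ : Ordg n k) (m : ℕ) : HH σ m ⊆ PS n k := filter_subset _ _

lemma HH_mono {n k : ℕ} (σ : Ordg n k) {m m' : ℕ} (h : m ≤ m') : HH σ m ⊆ HH σ m' := by
  intro e he
  obtain ⟨h1, h2⟩ := mem_HH.1 he
  exact mem_HH.2 ⟨h1, lt_of_lt_of_le h2 h⟩

lemma card_edges (n k : ℕ) : Fintype.card {s : Finset (Fin n) // s.card = k} = n.choose k := by
  simp

lemma nonempty_Ordg (n k : ℕ) : Nonempty (Ordg n k) :=
  ⟨(Fintype.equivFinOfCardEq (card_edges n k)).symm⟩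

lemma card_sub {n k : ℕ} {X : Finset (Finset (Fin n))} (hX : X ⊆ PS n k) :
    (X.subtype fun s => s.card = k).card = X.card := by
  rw [card_subtype, filter_true_of_mem fun x hx => mem_PS.1 (hX hx)]

variable {n k : ℕ} [Fintype (Ordg n k)]

lemma pr_PB (m1 m2 : ℕ) (h1 : m1 ≤ n.choose k) (h2 : m2 ≤ n.choose k)
    (Y X : Finset (Finset (Fin n))) (hYs : Y ⊆ PS n k) (hXs : X ⊆ PS n k)
    (hY : Y.card < n.choose k) (hXY : Disjoint X Y) :
    pr (fun σ : Ordg n k => Y ⊆ HH σ m2 ∧ Disjoint X (HH σ m1)) ≤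
      ((m2 : ℝ) / n.choose k) ^ Y.card *
        (((n.choose k : ℝ) - m1) / ((n.choose k : ℝ) - Y.card)) ^ X.card := by
  have h := pr_early_late (card_edges n k) m1 m2 h1 h2 (Y.subtype fun s => s.card = k)
    (by rw [card_sub hYs]; exact hY) (X.subtype fun s => s.card = k) (by
      rw [disjoint_left] at hXY ⊢
      intro a ha hb
      exact hXY (mem_subtype.1 ha) (mem_subtype.1 hb))
  rw [card_sub hYs, card_sub hXs] at h
  refine le_trans (pr_mono fun σ hσ => ⟨fun x hx => ?_, fun x hx => ?_⟩) h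
  · obtain ⟨_, h3⟩ := mem_HH.1 (hσ.1 (mem_subtype.1 hx))
    exact h3
  · by_contra hc
    exact disjoint_left.1 hσ.2 (mem_subtype.1 hx) (mem_HH.2 ⟨x.2, not_le.1 hc⟩)

lemma pr_sub (m : ℕ) (h : m ≤ n.choose k) (Y : Finset (Finset (Fin n))) (hYs : Y ⊆ PS n k) :
    pr (fun σ : Ordg n k => Y ⊆ HH σ m) ≤ ((m : ℝ) / n.choose k) ^ Y.card := by
  have h := pr_all_lt (card_edges n k) m h (Y.subtype fun s => s.card = k)
  rw [card_sub hYs] at h
  refine le_trans (pr_mono fun σ hσ => fun x hx => ?_) h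
  obtain ⟨_, h3⟩ := mem_HH.1 (hσ (mem_subtype.1 hx))
  exact h3

lemma pr_disj (m : ℕ) (h : m ≤ n.choose k) (X : Finset (Finset (Fin n))) (hXs : X ⊆ PS n k) :
    pr (fun σ : Ordg n k => Disjoint X (HH σ m)) = late (n.choose k) m X.card := by
  have h := pr_late (card_edges n k) m h (X.subtype fun s => s.card = k)
  rw [card_sub hXs] at h
  rw [← h]
  refine pr_congr fun σ => ⟨fun hσ x hx => ?_, fun hσ => ?_⟩
  · by_contra hc
    exact disjoint_left.1 hσ (mem_subtype.1 hx) (mem_HH.2 ⟨x.2, not_le.1 hc⟩)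
  · rw [disjoint_left]
    intro e he he'
    obtain ⟨h1, h2⟩ := mem_HH.1 he'
    exact absurd (hσ ⟨e, h1⟩ (mem_subtype.2 he)) (not_le.2 h2)

/-- lower tail, jointly with a few prescribed edges -/
lemma pr_LT (m1 m2 : ℕ) (h12 : m1 ≤ m2) (h2 : m2 ≤ n.choose k)
    (Y Z : Finset (Finset (Fin n))) (hYs : Y ⊆ PS n k) (hZs : Z ⊆ PS n k) (hYZ : Disjoint Y Z)
    (r L : ℝ) (hr : 0 ≤ r) (hL : 1 ≤ L) (hM : 0 < n.choose k)
    (hu : 2 * (Y.card + r) ≤ n.choose k) :
    pr (fun σ : Ordg n k => Y ⊆ HH σ m2 ∧ ((Z ∩ HH σ m1).card : ℝ) < r) ≤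
      ((m2 : ℝ) / n.choose k) ^ Y.card *
        Real.exp (r * Real.log L + Z.card * ((m2 : ℝ) / n.choose k / L - (m1 : ℝ) / n.choose k
          + 2 * (Y.card + r) / n.choose k)) := by
  set M : ℝ := ((n.choose k : ℕ) : ℝ) with hMd
  have hM0 : 0 < M := by rw [hMd]; exact_mod_cast hM
  have hm1 : (m1 : ℝ) ≤ M := by rw [hMd]; exact_mod_cast h12.trans h2
  set p2 : ℝ := (m2 : ℝ) / M with hp2
  set p1 : ℝ := (m1 : ℝ) / M with hp1
  set u : ℝ := ((Y.card : ℝ) + r) / M with hu'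
  have hp20 : 0 ≤ p2 := by positivity
  have hp10 : 0 ≤ p1 := by positivity
  have hp11 : p1 ≤ 1 := by rw [hp1]; exact div_le_one_of_le₀ hm1 hM0.le
  have hu0 : 0 ≤ u := by positivity
  have hu1 : u ≤ 1 / 2 := by rw [hu', div_le_iff₀ hM0]; linarith
  set b : ℝ := 1 - p1 + 2 * u with hb
  have hb0 : 0 ≤ b := by linarith
  have hL0 : 0 < L := by linarith
  have step : ∀ W ∈ Z.powerset.filter (fun W => (W.card : ℝ) < r),
      pr (fun σ : Ordg n k => Y ∪ W ⊆ HH σ m2 ∧ Disjoint (Z \ W) (HH σ m1)) ≤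
        p2 ^ Y.card * Real.exp (r * Real.log L) * ((p2 / L) ^ W.card * b ^ (Z.card - W.card)) := by
    intro W hW
    obtain ⟨hWZ, hWr⟩ := mem_filter.1 hW
    rw [mem_powerset] at hWZ
    have hYW : Disjoint Y W := disjoint_of_subset_right hWZ hYZ
    have hc : (Y ∪ W).card = Y.card + W.card := card_union_of_disjoint hYW
    have hcM : ((Y ∪ W).card : ℝ) < M := by
      rw [hc]; push_cast
      have : (0 : ℝ) ≤ Y.card := by positivity
      linarith
    have h := pr_PB m1 m2 (h12.trans h2) h2 (Y ∪ W) (Z \ W)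
      (union_subset hYs (hWZ.trans hZs)) (sdiff_subset.trans hZs)
      (by rw [hMd] at hcM; exact_mod_cast hcM) (by
        rw [disjoint_union_right]
        exact ⟨disjoint_of_subset_left sdiff_subset hYZ.symm, sdiff_disjoint⟩)
    refine h.trans ?_
    rw [card_sdiff_of_subset hWZ, ← hMd, ← hp2]
    have hbb : (M - m1) / (M - ((Y ∪ W).card : ℝ)) ≤ b := by
      rw [div_le_iff₀ (by linarith), hc]; push_cast
      have e1 : (m1 : ℝ) = p1 * M := by rw [hp1]; field_simp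
      have e2 : (Y.card : ℝ) + r = u * M := by rw [hu', div_mul_cancel₀ _ hM0.ne']
      have e3 : M * (1 - u) ≤ M - (Y.card + W.card) := by nlinarith
      have e4 : 1 - p1 ≤ b * (1 - u) := by rw [hb]; nlinarith
      calc M - m1 = M * (1 - p1) := by rw [e1]; ring
        _ ≤ M * (b * (1 - u)) := mul_le_mul_of_nonneg_left e4 hM0.le
        _ = b * (M * (1 - u)) := by ring
        _ ≤ _ := mul_le_mul_of_nonneg_left e3 hb0
    have hLW : L ^ W.card ≤ Real.exp (r * Real.log L) := by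
      have : L ^ W.card = Real.exp (W.card * Real.log L) := by
        rw [Real.exp_nat_mul, Real.exp_log hL0]
      rw [this]
      exact Real.exp_le_exp.2 (mul_le_mul_of_nonneg_right hWr.le (Real.log_nonneg hL))
    have hb' : 0 ≤ (M - m1) / (M - ((Y ∪ W).card : ℝ)) :=
      div_nonneg (by linarith) (by linarith)
    calc p2 ^ (Y ∪ W).card * ((M - m1) / (M - ((Y ∪ W).card : ℝ))) ^ (Z.card - W.card)
        ≤ p2 ^ (Y ∪ W).card * b ^ (Z.card - W.card) :=
          mul_le_mul_of_nonneg_left (pow_le_pow_left₀ hb' hbb _) (by positivity)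
      _ = p2 ^ Y.card * L ^ W.card * ((p2 / L) ^ W.card * b ^ (Z.card - W.card)) := by
          have : p2 ^ W.card = L ^ W.card * (p2 / L) ^ W.card := by
            rw [← mul_pow, mul_div_cancel₀ _ hL0.ne']
          rw [hc, pow_add, this]; ring
      _ ≤ _ := by gcongr
  calc pr (fun σ : Ordg n k => Y ⊆ HH σ m2 ∧ ((Z ∩ HH σ m1).card : ℝ) < r)
      ≤ pr (fun σ : Ordg n k => ∃ W ∈ Z.powerset.filter (fun W => (W.card : ℝ) < r),
          Y ∪ W ⊆ HH σ m2 ∧ Disjoint (Z \ W) (HH σ m1)) := by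
        refine pr_mono fun σ hσ => ⟨Z ∩ HH σ m1, ?_, ?_, ?_⟩
        · exact mem_filter.2 ⟨mem_powerset.2 inter_subset_left, hσ.2⟩
        · exact union_subset hσ.1 (inter_subset_right.trans (HH_mono σ h12))
        · rw [disjoint_left]; intro e he he'
          exact (mem_sdiff.1 he).2 (mem_inter.2 ⟨(mem_sdiff.1 he).1, he'⟩)
    _ ≤ _ := pr_exists_le_sum _ _
    _ ≤ ∑ W ∈ Z.powerset.filter (fun W => (W.card : ℝ) < r),
          p2 ^ Y.card * Real.exp (r * Real.log L) * ((p2 / L) ^ W.card * b ^ (Z.card - W.card)) :=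
        sum_le_sum step
    _ ≤ ∑ W ∈ Z.powerset,
          p2 ^ Y.card * Real.exp (r * Real.log L) * ((p2 / L) ^ W.card * b ^ (Z.card - W.card)) :=
        sum_le_sum_of_subset_of_nonneg (filter_subset _ _) fun _ _ _ => by positivity
    _ = p2 ^ Y.card * Real.exp (r * Real.log L) * (p2 / L + b) ^ Z.card := by
        rw [← mul_sum, sum_pow_mul_eq_add_pow]
    _ ≤ p2 ^ Y.card * Real.exp (r * Real.log L) * (Real.exp (p2 / L - p1 + 2 * u)) ^ Z.card := by
        gcongr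
        have := Real.add_one_le_exp (p2 / L - p1 + 2 * u)
        linarith
    _ = _ := by
        rw [← Real.exp_nat_mul, mul_assoc, ← Real.exp_add, hu', mul_div_assoc]

/-- lower tail, simple form -/
lemma pr_LT2 (m : ℕ) (h : m ≤ n.choose k) (Z : Finset (Finset (Fin n))) (hZs : Z ⊆ PS n k)
    (hM : 0 < n.choose k) :
    pr (fun σ : Ordg n k => ((Z ∩ HH σ m).card : ℝ) < (m : ℝ) / n.choose k * Z.card / 8) ≤
      Real.exp (-((m : ℝ) / n.choose k * Z.card / 4)) := by
  have hM0 : (0 : ℝ) < n.choose k := by exact_mod_cast hM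
  have hp1 : (m : ℝ) / n.choose k ≤ 1 := div_le_one_of_le₀ (by exact_mod_cast h) hM0.le
  have hZ : (Z.card : ℝ) ≤ n.choose k := by
    have := card_le_card hZs
    rw [card_PS] at this; exact_mod_cast this
  have hp0 : (0 : ℝ) ≤ (m : ℝ) / n.choose k := by positivity
  have hZ0 : (0 : ℝ) ≤ Z.card := by positivity
  have h1 := pr_LT m m le_rfl h ∅ Z (empty_subset _) hZs (disjoint_empty_left _)
    ((m : ℝ) / n.choose k * Z.card / 8) 4 (by positivity) (by norm_num) hM (by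
      simp only [card_empty, Nat.cast_zero, zero_add]; nlinarith)
  simp only [card_empty, pow_zero, one_mul, Nat.cast_zero, zero_add, empty_subset, true_and] at h1
  refine h1.trans (Real.exp_le_exp.2 ?_)
  set p : ℝ := (m : ℝ) / n.choose k
  have hlog : Real.log 4 ≤ 2 := by
    have : Real.log 4 = 2 * Real.log 2 := by
      rw [show (4 : ℝ) = 2 ^ 2 by norm_num, Real.log_pow]; norm_num
    have h2 := Real.log_two_lt_d9
    linarith
  have e1 : 2 * (p * Z.card / 8) / n.choose k ≤ p / 4 := by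
    rw [div_le_iff₀ hM0]; nlinarith
  have e2 : p * Z.card / 8 * Real.log 4 ≤ p * Z.card / 8 * 2 :=
    mul_le_mul_of_nonneg_left hlog (by positivity)
  have e3 := mul_le_mul_of_nonneg_left e1 hZ0
  nlinarith

/-- upper tail -/
lemma pr_UT (m : ℕ) (h : m ≤ n.choose k) (Z : Finset (Finset (Fin n))) (hZs : Z ⊆ PS n k)
    (ρ Λ : ℝ) (hΛ : 0 ≤ Λ) :
    pr (fun σ : Ordg n k => ρ ≤ ((Z ∩ HH σ m).card : ℝ)) ≤
      Real.exp (Real.exp Λ * ((m : ℝ) / n.choose k) * Z.card - ρ * Λ) := by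
  set p : ℝ := (m : ℝ) / n.choose k with hp
  have hp0 : 0 ≤ p := by positivity
  set L := Real.exp Λ with hL
  have hL0 : 0 < L := Real.exp_pos _
  calc pr (fun σ : Ordg n k => ρ ≤ ((Z ∩ HH σ m).card : ℝ))
      ≤ pr (fun σ : Ordg n k => ∃ W ∈ Z.powerset.filter (fun W => ρ ≤ (W.card : ℝ)),
          W ⊆ HH σ m) :=
        pr_mono fun σ hσ => ⟨Z ∩ HH σ m,
          mem_filter.2 ⟨mem_powerset.2 inter_subset_left, hσ⟩, inter_subset_right⟩
    _ ≤ _ := pr_exists_le_sum _ _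
    _ ≤ ∑ W ∈ Z.powerset.filter (fun W => ρ ≤ (W.card : ℝ)),
          Real.exp (-(ρ * Λ)) * ((L * p) ^ W.card * 1 ^ (Z.card - W.card)) := by
        refine sum_le_sum fun W hW => ?_
        obtain ⟨hWZ, hWr⟩ := mem_filter.1 hW
        refine (pr_sub m h W ((mem_powerset.1 hWZ).trans hZs)).trans ?_
        rw [one_pow, mul_one, mul_pow, ← mul_assoc, ← hp]
        refine le_mul_of_one_le_left (by positivity) ?_
        rw [hL, ← Real.exp_nat_mul, ← Real.exp_add]
        apply Real.one_le_exp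
        nlinarith
    _ ≤ ∑ W ∈ Z.powerset, Real.exp (-(ρ * Λ)) * ((L * p) ^ W.card * 1 ^ (Z.card - W.card)) :=
        sum_le_sum_of_subset_of_nonneg (filter_subset _ _) fun _ _ _ => by positivity
    _ = Real.exp (-(ρ * Λ)) * (L * p + 1) ^ Z.card := by
        rw [← mul_sum, sum_pow_mul_eq_add_pow]
    _ ≤ Real.exp (-(ρ * Λ)) * (Real.exp (L * p)) ^ Z.card := by
        gcongr
        exact Real.add_one_le_exp _
    _ = _ := by
        rw [← Real.exp_nat_mul, ← Real.exp_add]; congr 1; ring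

end Pool.Agent.H220Z.Frac
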